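import Pool.Agent.HexLim.Parts
import Pool.Agent.HexWall.Sym

/-!
The walk does not come back to the boundary of the strip away from its end points.
-/

set_option autoImplicit false

open ENNReal

namespace HexObs

namespace Ex

lemma UU_add_le (a s : ℕ) : UU (a + s) ≤ UU a + UU s := by
  have h1 : UU (a + s) = UU a + ∑ x ∈ Finset.range s, uu (a + 1 + x) := by
    unfold UU
    rw [show a + s + 1 = (a + 1) + s by ring, Finset.sum_range_add]
  rw [h1]
  have h2 : ∑ x ∈ Finset.range s, uu (a + 1 + x) ≤ ∑ x ∈ Finset.range s, uu x :=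
    Finset.sum_le_sum fun x _ => uu_anti (by omega)
  have h3 : ∑ x ∈ Finset.range s, uu x ≤ UU s := by
    unfold UU
    rw [Finset.sum_range_succ]
    have := uu_pos s
    linarith
  linarith

lemma UU_mul_le (s : ℕ) : ∀ k : ℕ, 1 ≤ k → UU (k * s) ≤ k * UU s := by
  intro k hk
  induction k, hk using Nat.le_induction with
  | base => simp
  | succ k hk ih =>
    have h := UU_add_le (k * s) s
    rw [show (k + 1) * s = k * s + s by ring]
    push_cast
    linarith

lemma UU_large (x : ℝ) : ∃ s0 : ℕ, 1 ≤ s0 ∧ ∀ s : ℕ, s0 ≤ s → x ≤ UU s := by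
  have hCW := Num2Aux.CW_pos
  have h1 : Filter.Tendsto (fun n : ℕ => (n : ℝ) ^ (1 / (6 + CW))) Filter.atTop Filter.atTop :=
    (tendsto_rpow_atTop (by positivity : 0 < 1 / (6 + CW))).comp tendsto_natCast_atTop_atTop
  obtain ⟨n, hn1, hn⟩ := ((Filter.eventually_ge_atTop 1).and (h1.eventually_ge_atTop (2 * x))).exists
  refine ⟨n, hn1, ?_⟩
  intro s hs
  have h2 := UU_growth (s := 1) (T := n) le_rfl hn1
  rw [Nat.cast_one, div_one] at h2
  have h3 := UU_one_ge
  have h4 : (0 : ℝ) ≤ (n : ℝ) ^ (1 / (6 + CW)) := Real.rpow_nonneg (Nat.cast_nonneg n) _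
  have h5 : (n : ℝ) ^ (1 / (6 + CW)) ≤ UU 1 * (n : ℝ) ^ (1 / (6 + CW)) := by nlinarith
  have h6 := Num2Aux.UU_mono hs
  linarith

/-- NEAR THE BOTTOM. For all δ, η > 0 there is ε > 0 such that for all T a critical bridge of T rows has a site in the
rows up to ε T at distance more than δ T from the start with probability at most η. -/
theorem touch {δ η : ℝ} (hδ : 0 < δ) (hη : 0 < η) : ∃ ε : ℝ, 0 < ε ∧ ε ≤ 1 ∧ ∀ T s : ℕ, 1 ≤ T → (s : ℝ) ≤ ε * T →
    gf {t | t ∈ Brd T ∧ ∃ i ≤ t.length, lev t i ≤ 3 * s ∧ δ * T < |(lat t i : ℝ)|} ≤ ENNReal.ofReal (η * uu T) := by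
  have hCW := Num2Aux.CW_pos
  obtain ⟨C0, q, hC0, hq, hq1, hlat⟩ := latR
  -- W
  have hW : ∃ W : ℕ, 1 ≤ W ∧ 4 * (6 + CW) * (W : ℝ) ^ (-(1 / (6 + CW))) ≤ η / 4 := by
    have h1 : Filter.Tendsto (fun n : ℕ => (n : ℝ) ^ (-(1 / (6 + CW)))) Filter.atTop (nhds 0) :=
      (tendsto_rpow_neg_atTop (by positivity : 0 < 1 / (6 + CW))).comp tendsto_natCast_atTop_atTop
    obtain ⟨n, hn1, hn⟩ := ((Filter.eventually_ge_atTop 1).and
      (h1.eventually_le_const (by positivity : (0 : ℝ) < η / 4 / (4 * (6 + CW))))).exists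
    refine ⟨n, hn1, ?_⟩
    rw [le_div_iff₀ (by positivity)] at hn
    linarith
  obtain ⟨W, hW1, hW⟩ := hW
  set A := 2 * (6 + CW) * (9 + CW) with hA
  have hA0 : 0 < A := by positivity
  set δ' := η / (4 * A) with hδ'
  have hδ0 : 0 < δ' := by positivity
  -- s0
  obtain ⟨s0, hs01, hs0⟩ := UU_large (4 * A / η)
  -- M
  have hM : ∃ M : ℕ, 2 * (6 + CW) * C0 * q ^ M * ((W + 2) / δ') ≤ η / 4 := by
    have h1 : Filter.Tendsto (fun n : ℕ => q ^ n) Filter.atTop (nhds 0) :=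
      tendsto_pow_atTop_nhds_zero_of_lt_one hq.le hq1
    obtain ⟨n, hn⟩ := (h1.eventually_le_const
      (by positivity : (0 : ℝ) < η / 4 / (2 * (6 + CW) * C0 * ((W + 2) / δ')))).exists
    refine ⟨n, ?_⟩
    rw [le_div_iff₀ (by positivity)] at hn
    linarith
  obtain ⟨M, hM⟩ := hM
  set ε' := min (1 / (2 * ((W : ℝ) + 2))) (δ / (M * ((W : ℝ) + 2) + 1)) with hε'
  have hε0 : 0 < ε' := by
    rw [hε']
    apply lt_min <;> positivity
  have hε1 : ε' * (2 * ((W : ℝ) + 2)) ≤ 1 := by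
    have h1 : ε' ≤ 1 / (2 * ((W : ℝ) + 2)) := min_le_left _ _
    rwa [le_div_iff₀ (by positivity)] at h1
  have hε2 : ε' * (M * ((W : ℝ) + 2) + 1) ≤ δ := by
    have h1 : ε' ≤ δ / (M * ((W : ℝ) + 2) + 1) := min_le_right _ _
    rwa [le_div_iff₀ (by positivity)] at h1
  obtain ⟨T0, hT0⟩ := exists_nat_ge ((s0 + 1 : ℝ) / ε')
  have hT0p : (0 : ℝ) < T0 := by
    refine lt_of_lt_of_le ?_ hT0
    positivity
  rw [div_le_iff₀ hε0] at hT0
  refine ⟨min 1 (min ε' (1 / (T0 + 1))), by positivity, min_le_left _ _, ?_⟩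
  intro T s hT hs
  have hTp : (0 : ℝ) < T := by exact_mod_cast hT
  have hsε : (s : ℝ) ≤ ε' * T := by
    refine hs.trans (mul_le_mul_of_nonneg_right ?_ hTp.le)
    exact (min_le_right _ _).trans (min_le_left _ _)
  rcases Nat.lt_or_ge T T0 with hTT | hTT
  · -- small T
    have h1 : (s : ℝ) ≤ 1 / (T0 + 1) * T := by
      refine hs.trans (mul_le_mul_of_nonneg_right ?_ hTp.le)
      exact (min_le_right _ _).trans (min_le_right _ _)
    have h2 : (s : ℝ) < 1 := by
      refine lt_of_le_of_lt h1 ?_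
      rw [one_div, inv_mul_lt_iff₀ (by positivity)]
      have : (T : ℝ) < T0 := by exact_mod_cast hTT
      linarith
    have h3 : s = 0 := by
      have : s < 1 := by exact_mod_cast h2
      omega
    have h4 : {t | t ∈ Brd T ∧ ∃ i ≤ t.length, lev t i ≤ 3 * s ∧ δ * T < |(lat t i : ℝ)|} ⊆ Bot T 0 0 := by
      rintro t ⟨ht, i, hi, hl, hr⟩
      refine ⟨ht, i, hi, by rw [h3] at hl; exact hl, ?_⟩
      have h5 : (0 : ℝ) < |(lat t i : ℝ)| := lt_trans (by positivity) hr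
      have h6 : (0 : ℝ) < ((|lat t i| : ℤ) : ℝ) := by
        rw [Int.cast_abs]
        exact h5
      push_cast
      exact_mod_cast h6
    refine (gf_mono h4).trans ?_
    rw [Bot_zero]
    unfold gf
    simp
  · -- large T
    set s' := ⌊ε' * T⌋₊ with hs'
    have hTT' : (T0 : ℝ) ≤ T := by exact_mod_cast hTT
    have h1 : (s0 : ℝ) + 1 ≤ ε' * T := by nlinarith
    have hs's : s ≤ s' := Nat.le_floor hsε
    have hs'0 : s0 ≤ s' := Nat.le_floor (by linarith)
    have hs'1 : (s' : ℝ) ≤ ε' * T := Nat.floor_le (by positivity)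
    have hs11 : 1 ≤ s' := hs01.trans hs'0
    have hUU := hs0 s' hs'0
    have hUs : 0 < UU s' := Num2Aux.UU_pos s'
    set n := ⌈δ' * UU s'⌉₊ with hn
    have hn1 : 1 ≤ n := Nat.ceil_pos.2 (by positivity)
    have hn2 : δ' * UU s' ≤ n := Nat.le_ceil _
    have hn3 : (n : ℝ) < δ' * UU s' + 1 := Nat.ceil_lt_add_one (by positivity)
    have hnp : (0 : ℝ) < n := by exact_mod_cast hn1
    have hTs : 2 * ((W + 2) * s') ≤ T := by
      have h2 : (2 : ℝ) * ((W + 2) * s') ≤ T := by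
        calc (2 : ℝ) * ((W + 2) * s') ≤ 2 * ((W + 2) * (ε' * T)) := by gcongr
          _ = ε' * (2 * (W + 2)) * T := by ring
          _ ≤ 1 * T := mul_le_mul_of_nonneg_right hε1 hTp.le
          _ = T := one_mul _
      exact_mod_cast h2
    have hsub : {t | t ∈ Brd T ∧ ∃ i ≤ t.length, lev t i ≤ 3 * s ∧ δ * T < |(lat t i : ℝ)|} ⊆
        Bot T s' (M * ((W + 2) * s')) := by
      rintro t ⟨ht, i, hi, hl, hr⟩
      refine ⟨ht, i, hi, ?_, ?_⟩
      · have : (s : ℤ) ≤ s' := by exact_mod_cast hs's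
        omega
      · have h2 : ((M * ((W + 2) * s') : ℕ) : ℝ) < ((|lat t i| : ℤ) : ℝ) := by
          rw [Int.cast_abs]
          refine lt_of_le_of_lt ?_ hr
          push_cast
          calc (M : ℝ) * ((W + 2) * s') ≤ M * ((W + 2) * (ε' * T)) := by gcongr
            _ = ε' * (M * (W + 2)) * T := by ring
            _ ≤ δ * T := by
              apply mul_le_mul_of_nonneg_right _ hTp.le
              nlinarith
        exact_mod_cast h2
    refine (gf_mono hsub).trans ((bot_parts hC0 hq hlat hs11 hW1 hn1 hTs le_rfl).trans ?_)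
    apply ENNReal.ofReal_le_ofReal
    apply mul_le_mul_of_nonneg_right _ (uu_pos T).le
    have e1 : A * (n / UU s') ≤ η / 4 + η / 4 := by
      have h3 : (n : ℝ) / UU s' ≤ δ' + 1 / UU s' := by
        rw [div_le_iff₀ hUs, add_mul, one_div, inv_mul_cancel₀ hUs.ne']
        exact hn3.le
      have h4 : A * (1 / UU s') ≤ η / 4 := by
        rw [mul_one_div, div_le_iff₀ hUs]
        rw [div_le_iff₀ hη] at hUU
        nlinarith
      have h5 : A * δ' = η / 4 := by
        rw [hδ']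
        field_simp
      calc A * (n / UU s') ≤ A * (δ' + 1 / UU s') := mul_le_mul_of_nonneg_left h3 hA0.le
        _ = A * δ' + A * (1 / UU s') := by ring
        _ ≤ η / 4 + η / 4 := by rw [h5]; linarith
    have e2 : 2 * (6 + CW) * C0 * q ^ M * (UU ((W + 2) * s') / n) ≤ η / 4 := by
      refine le_trans ?_ hM
      apply mul_le_mul_of_nonneg_left _ (by positivity)
      have h3 := UU_mul_le s' (W + 2) (by omega)
      push_cast at h3
      rw [div_le_div_iff₀ hnp hδ0]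
      calc UU ((W + 2) * s') * δ' ≤ ((W + 2) * UU s') * δ' := mul_le_mul_of_nonneg_right h3 hδ0.le
        _ = (W + 2) * (δ' * UU s') := by ring
        _ ≤ (W + 2) * n := by gcongr
    linarith

/-- NEAR THE TOP. -/
theorem touch_top {δ η : ℝ} (hδ : 0 < δ) (hη : 0 < η) : ∃ ε : ℝ, 0 < ε ∧ ε ≤ 1 ∧ ∀ T s : ℕ, 1 ≤ T → (s : ℝ) ≤ ε * T →
    gf {t | t ∈ Brd T ∧ ∃ i, 1 ≤ i ∧ i ≤ t.length ∧ 3 * (T - s : ℤ) + 2 ≤ lev t i ∧
      δ * T < |(latE t : ℝ) - lat t i|} ≤ ENNReal.ofReal (η * uu T) := by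
  obtain ⟨ε, h1, h2, h3⟩ := touch hδ hη
  refine ⟨ε, h1, h2, ?_⟩
  intro T s hT hs
  refine le_trans ?_ (h3 T s hT hs)
  rw [← Wall.gf_Brd_rev T (fun t => ∃ i ≤ t.length, lev t i ≤ 3 * s ∧ δ * T < |(lat t i : ℝ)|)]
  apply gf_mono
  rintro t ⟨ht, i, hi1, hi2, hl, hr⟩
  refine ⟨ht, t.length + 1 - i, by rw [rev_length]; omega, ?_, ?_⟩
  · rw [lev_rot (Wall.dx_end ht) (by omega), lev_top ht]
    have : t.length + 1 - (t.length + 1 - i) = i := by omega
    rw [this]
    omega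
  · rw [Wall.lat_rev ht (by omega)]
    have : t.length + 1 - (t.length + 1 - i) = i := by omega
    rw [this]
    push_cast
    exact hr

end Ex

end HexObs
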