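import Pool.Agent.HexLim.Anti

/-!
Anticoncentration of the end of a bridge of a given height: final form.
-/

set_option autoImplicit false

namespace HexObs

namespace Ex

open Complex Finset ENNReal

lemma UU_one_ge : 1 ≤ UU 1 := by
  have h := Num2Aux.UU_mono (Nat.zero_le 1)
  have h0 : UU 0 = 1 := by
    unfold UU
    rw [zero_add, Finset.sum_range_one, uu_zero]
  rw [h0] at h
  exact h

/-- numbers. -/
lemma anti_num {T l : ℕ} (hl : 1 ≤ l) {R : ℝ} (hR : 24 ≤ R) (hRT : (l : ℝ) * R ^ 2 = T) :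
    ∃ s W n : ℕ, 1 ≤ s ∧ 1 ≤ W ∧ 1 ≤ n ∧ 2 * ((W + 2) * s) ≤ T ∧
      4 * (6 + CW) * (W : ℝ) ^ (-(1 / (6 + CW))) +
      2 * (6 + CW) * (9 + CW) * (n / UU s) + 2 * (6 + CW) * C3 * (l * uu s / n) ≤
      (32 * (6 + CW) + 10 * (6 + CW) * (9 + CW) + 4 * (6 + CW) * C3) * R ^ (-(1 / (6 + CW))) := by
  have hCW := Num2Aux.CW_pos
  have hc3 := C3_pos
  obtain ⟨κ, hκ⟩ : ∃ κ : ℝ, κ = 1 / (6 + CW) := ⟨_, rfl⟩
  have hκ0 : 0 < κ := by rw [hκ]; positivity
  have hκ1 : κ ≤ 1 / 2 := by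
    rw [hκ, div_le_div_iff₀ (by linarith) (by norm_num)]
    linarith
  rw [← hκ]
  have hR0 : 0 < R := by linarith
  have hlp : (1 : ℝ) ≤ l := by exact_mod_cast hl
  have hTR : (T : ℝ) / R = l * R := by
    rw [← hRT]
    field_simp
  have hlR : R ≤ l * R := by nlinarith
  obtain ⟨s, hs⟩ : ∃ s : ℕ, s = ⌊(T : ℝ) / R⌋₊ := ⟨_, rfl⟩
  obtain ⟨W, hW⟩ : ∃ W : ℕ, W = ⌊R / 4⌋₊ := ⟨_, rfl⟩
  have s1 : (s : ℝ) ≤ l * R := by
    rw [hs, ← hTR]
    exact Nat.floor_le (by positivity)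
  have s2 : l * R < s + 1 := by
    rw [hs, ← hTR]
    exact Nat.lt_floor_add_one _
  have s3 : (R : ℝ) / 2 ≤ s := by linarith
  have s4 : (l : ℝ) * R / 2 ≤ s := by linarith
  have w1 : (W : ℝ) ≤ R / 4 := by
    rw [hW]
    exact Nat.floor_le (by positivity)
  have w2 : R / 4 < W + 1 := by
    rw [hW]
    exact Nat.lt_floor_add_one _
  have w3 : R / 8 ≤ W := by linarith
  have hs1 : 1 ≤ s := by
    have : (0 : ℝ) < s := by linarith
    exact Nat.one_le_iff_ne_zero.2 (by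
      rintro h0
      rw [h0] at this
      simp at this)
  have hW1 : 1 ≤ W := by
    have : (0 : ℝ) < W := by linarith
    exact Nat.one_le_iff_ne_zero.2 (by
      rintro h0
      rw [h0] at this
      simp at this)
  have hU := Num2Aux.UU_pos s
  have hsp : (1 : ℝ) ≤ s := by exact_mod_cast hs1
  have hWp : (1 : ℝ) ≤ W := by exact_mod_cast hW1
  have hsq : 0 < Real.sqrt R := Real.sqrt_pos.2 hR0
  obtain ⟨n, hn⟩ : ∃ n : ℕ, n = ⌈UU s / Real.sqrt R⌉₊ := ⟨_, rfl⟩
  have n1 : UU s / Real.sqrt R ≤ n := by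
    rw [hn]
    exact Nat.le_ceil _
  have n2 : (n : ℝ) < UU s / Real.sqrt R + 1 := by
    rw [hn]
    exact Nat.ceil_lt_add_one (by positivity)
  have hn0 : (0 : ℝ) < n := lt_of_lt_of_le (by positivity) n1
  have hn1 : 1 ≤ n := Nat.one_le_iff_ne_zero.2 (by
      rintro h0
      rw [h0] at hn0
      simp at hn0)
  refine ⟨s, W, n, hs1, hW1, hn1, ?_, ?_⟩
  · have h1 : (2 : ℝ) * ((W + 2) * s) ≤ T := by
      have h2 : (W + 2 : ℝ) * s ≤ (R / 4 + 2) * (l * R) := mul_le_mul (by linarith) s1 (by linarith) (by linarith)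
      rw [← hRT]
      nlinarith
    exact_mod_cast h1
  · set X := R ^ (-κ) with hX
    have hX0 : 0 < X := Real.rpow_pos_of_pos hR0 _
    have hRk : 0 < R ^ κ := Real.rpow_pos_of_pos hR0 _
    have hXi : X = (R ^ κ)⁻¹ := Real.rpow_neg hR0.le κ
    -- W
    have a1 : (W : ℝ) ^ (-κ) ≤ 8 * X := by
      have h1 : (W : ℝ) ^ (-κ) ≤ (R / 8) ^ (-κ) :=
        Real.rpow_le_rpow_of_nonpos (by positivity) w3 (by linarith)
      have h2 : (R / 8) ^ (-κ) = X * (8 : ℝ) ^ κ := by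
        rw [Real.div_rpow hR0.le (by norm_num), Real.rpow_neg (by norm_num : (0 : ℝ) ≤ 8)]
        rw [div_inv_eq_mul]
      have h3 : (8 : ℝ) ^ κ ≤ 8 := by
        calc (8 : ℝ) ^ κ ≤ (8 : ℝ) ^ (1 : ℝ) := Real.rpow_le_rpow_of_exponent_le (by norm_num) (by linarith)
          _ = 8 := Real.rpow_one 8
      rw [h2] at h1
      nlinarith
    -- sqrt
    have a2 : 1 / Real.sqrt R ≤ X := by
      rw [hXi, one_div]
      apply inv_anti₀ hRk
      rw [Real.sqrt_eq_rpow]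
      exact Real.rpow_le_rpow_of_exponent_le (by linarith) hκ1
    have a3 : 1 / UU s ≤ 4 * X := by
      have h1 := UU_growth (s := 1) (T := s) le_rfl hs1
      have h2 : (((s : ℕ) : ℝ) / ((1 : ℕ) : ℝ)) = s := by
        rw [Nat.cast_one, div_one]
      rw [h2, ← hκ] at h1
      have h3 := UU_one_ge
      have h4 : (R / 2) ^ κ ≤ (s : ℝ) ^ κ := Real.rpow_le_rpow (by positivity) s3 hκ0.le
      have h5 : R ^ κ / 2 ≤ (R / 2) ^ κ := by
        rw [Real.div_rpow hR0.le (by norm_num)]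
        apply div_le_div_of_nonneg_left hRk.le (Real.rpow_pos_of_pos (by norm_num) _)
        calc (2 : ℝ) ^ κ ≤ (2 : ℝ) ^ (1 : ℝ) := Real.rpow_le_rpow_of_exponent_le (by norm_num) (by linarith)
          _ = 2 := Real.rpow_one 2
      have h6 : 0 < (s : ℝ) ^ κ := Real.rpow_pos_of_pos (by linarith) _
      have h7 : (s : ℝ) ^ κ ≤ 2 * UU s := by nlinarith
      have h8 : R ^ κ ≤ 4 * UU s := by linarith
      rw [hXi, one_div, inv_le_iff_one_le_mul₀ hU]
      have h9 : R ^ κ * (R ^ κ)⁻¹ = 1 := mul_inv_cancel₀ hRk.ne'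
      have h10 : 0 < (R ^ κ)⁻¹ := by positivity
      nlinarith
    have a4 : (n : ℝ) / UU s ≤ 5 * X := by
      have h1 : (n : ℝ) / UU s ≤ (UU s / Real.sqrt R + 1) / UU s := div_le_div_of_nonneg_right n2.le hU.le
      have h2 : (UU s / Real.sqrt R + 1) / UU s = 1 / Real.sqrt R + 1 / UU s := by
        field_simp
      rw [h2] at h1
      linarith
    have a5 : (l : ℝ) * uu s / n ≤ 2 * X := by
      have h1 : (l : ℝ) * uu s / n ≤ l * uu s / (UU s / Real.sqrt R) :=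
        div_le_div_of_nonneg_left (mul_nonneg (by linarith) (uu_pos s).le) (by positivity) n1
      have h2 : (l : ℝ) * uu s / (UU s / Real.sqrt R) = l * (uu s / UU s) * Real.sqrt R := by
        field_simp
      have h3 : uu s / UU s ≤ 1 / s := by
        rw [div_le_div_iff₀ hU (by linarith)]
        have := Num2Aux.mul_le_UU s
        linarith
      have h4 : (1 : ℝ) / s ≤ 2 / (l * R) := by
        rw [div_le_div_iff₀ (by linarith) (by positivity)]
        linarith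
      have h5 : (l : ℝ) * (uu s / UU s) * Real.sqrt R ≤ l * (2 / (l * R)) * Real.sqrt R := by
        have := h3.trans h4
        have hl0 : (0 : ℝ) ≤ l := by linarith
        gcongr
      have h6 : (l : ℝ) * (2 / (l * R)) * Real.sqrt R = 2 * (1 / Real.sqrt R) := by
        have h7 : Real.sqrt R * Real.sqrt R = R := Real.mul_self_sqrt hR0.le
        have hl0 : (l : ℝ) ≠ 0 := by linarith
        field_simp
        rw [sq]
        linarith
      rw [h2] at h1
      linarith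
    have b1 : 4 * (6 + CW) * (W : ℝ) ^ (-κ) ≤ 4 * (6 + CW) * (8 * X) := mul_le_mul_of_nonneg_left a1 (by positivity)
    have b2 : 2 * (6 + CW) * (9 + CW) * (n / UU s) ≤ 2 * (6 + CW) * (9 + CW) * (5 * X) :=
      mul_le_mul_of_nonneg_left a4 (by positivity)
    have b3 : 2 * (6 + CW) * C3 * (l * uu s / n) ≤ 2 * (6 + CW) * C3 * (2 * X) :=
      mul_le_mul_of_nonneg_left a5 (by positivity)
    calc _ ≤ 4 * (6 + CW) * (8 * X) + 2 * (6 + CW) * (9 + CW) * (5 * X) + 2 * (6 + CW) * C3 * (2 * X) := by linarith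
      _ = _ := by ring

/-- ANTICONCENTRATION: the end of a bridge of height T is in a given set I of columns with probability at most
C (|I|/T)^κ. -/
theorem anti_end : ∃ C κ : ℝ, 0 < C ∧ 0 < κ ∧ ∀ T : ℕ, 1 ≤ T → ∀ I : Finset ℤ, I.Nonempty →
    gf (endI T I) ≤ ENNReal.ofReal (C * ((I.card : ℝ) / T) ^ κ * uu T) := by
  have hCW := Num2Aux.CW_pos
  have hc3 := C3_pos
  obtain ⟨κ, hκ⟩ : ∃ κ : ℝ, κ = 1 / (6 + CW) := ⟨_, rfl⟩
  have hκ0 : 0 < κ := by rw [hκ]; positivity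
  have hκ1 : κ ≤ 1 := by
    rw [hκ, div_le_one (by linarith)]
    linarith
  set C := 32 * (6 + CW) + 10 * (6 + CW) * (9 + CW) + 4 * (6 + CW) * C3 + 24 with hC
  have hC0 : 0 < C := by positivity
  refine ⟨C, κ / 2, hC0, by positivity, ?_⟩
  intro T hT I hI
  have hl : 1 ≤ I.card := Finset.card_pos.2 hI
  have hlp : (1 : ℝ) ≤ I.card := by exact_mod_cast hl
  have hTp : (1 : ℝ) ≤ T := by exact_mod_cast hT
  have huT := uu_pos T
  set R := Real.sqrt ((T : ℝ) / I.card) with hR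
  have hR0 : 0 < R := Real.sqrt_pos.2 (by positivity)
  have hR2 : R ^ 2 = (T : ℝ) / I.card := Real.sq_sqrt (by positivity)
  have hRT : (I.card : ℝ) * R ^ 2 = T := by
    rw [hR2]
    field_simp
  have hX : ((I.card : ℝ) / T) ^ (κ / 2) = R ^ (-κ) := by
    have h1 : (I.card : ℝ) / T = (R ^ 2)⁻¹ := by
      rw [hR2, inv_div]
    rw [h1, Real.inv_rpow (by positivity), ← Real.rpow_neg (by positivity), ← Real.rpow_natCast R 2,
      ← Real.rpow_mul hR0.le]
    congr 1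
    push_cast
    ring
  rw [hX]
  rcases le_or_gt 24 R with h24 | h24
  · obtain ⟨s, W, n, hs, hW, hn, hT2, hnum⟩ := anti_num hl h24 hRT
    refine (anti_parts hs hW hn hT2 I).trans (ENNReal.ofReal_le_ofReal ?_)
    apply mul_le_mul_of_nonneg_right _ huT.le
    refine hnum.trans ?_
    rw [← hκ]
    apply mul_le_mul_of_nonneg_right _ (Real.rpow_pos_of_pos hR0 _).le
    rw [hC]
    linarith
  · refine (gfB_le (T := T) (P := endI T I) fun _ h => h.1).trans (ENNReal.ofReal_le_ofReal ?_)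
    have h1 : R ^ κ ≤ 24 := by
      calc R ^ κ ≤ (24 : ℝ) ^ κ := Real.rpow_le_rpow hR0.le h24.le hκ0.le
        _ ≤ (24 : ℝ) ^ (1 : ℝ) := Real.rpow_le_rpow_of_exponent_le (by norm_num) hκ1
        _ = 24 := Real.rpow_one 24
    have hRk : 0 < R ^ κ := Real.rpow_pos_of_pos hR0 _
    have h2 : 1 ≤ C * R ^ (-κ) := by
      rw [Real.rpow_neg hR0.le, ← div_eq_mul_inv, le_div_iff₀ hRk, one_mul]
      refine h1.trans ?_
      have : 0 ≤ 32 * (6 + CW) + 10 * (6 + CW) * (9 + CW) + 4 * (6 + CW) * C3 := by positivity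
      linarith
    calc uu T = 1 * uu T := (one_mul _).symm
      _ ≤ _ := mul_le_mul_of_nonneg_right h2 huT.le

end Ex

end HexObs
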