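import Pool.Agent.HexLim.TubeT
import Pool.Agent.HexLim.Anti2
import Pool.Agent.W47.Bridge

/-!
The tube theorem, the tails and the anticoncentration of the end for the critical bridges of the brick wall.
-/

set_option autoImplicit false

open ENNReal

namespace HexObs

namespace CC

open Ex

lemma brd_out {T : ℕ} {t : List Bool} : t ∈ Brd T ↔ t ∈ out (St T) oo up up := by
  unfold Brd
  rw [br_empty]

/-- the words and the lists. -/
theorem transfer {T : ℕ} (hT : 1 ≤ T) (Q : List (ℤ × ℤ) → Prop) :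
    ∑' L : {L // (∃ b, Crossing T 0 b L) ∧ Q L}, wt L = gf {t | t ∈ Brd T ∧ Q (toL oo t)} := by
  have h0 : (oo : Pt).1 = 0 := rfl
  have hmap : ∀ t : {t | t ∈ Brd T ∧ Q (toL oo t)}, (∃ b, Crossing T 0 b (toL oo t.1)) ∧ Q (toL oo t.1) := by
    rintro ⟨t, ht, hQ⟩
    obtain ⟨b, h1, -⟩ := crossing_toL hT lv_oo (brd_out.1 ht)
    exact ⟨⟨b, h1⟩, hQ⟩
  let f : {t | t ∈ Brd T ∧ Q (toL oo t)} → {L // (∃ b, Crossing T 0 b L) ∧ Q L} := fun t => ⟨toL oo t.1, hmap t⟩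
  have hf : Function.Bijective f := by
    constructor
    · intro t s h
      exact Subtype.ext (toL_inj lv_oo (brd_out.1 t.2.1) (brd_out.1 s.2.1) (congrArg Subtype.val h))
    · rintro ⟨L, ⟨b, hL⟩, hQ⟩
      obtain ⟨h1, h2, h3⟩ := toW_spec (T := T) (by simp : Even (0 : ℤ)) lv_oo h0 hL
      exact ⟨⟨toW T 0 b L, brd_out.2 h1, by rw [h2]; exact hQ⟩, Subtype.ext h2⟩
  unfold gf
  rw [← (Equiv.ofBijective f hf).tsum_eq]
  apply tsum_congr
  intro t
  show wt (toL oo t.1) = wE t.1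
  exact wt_toL _ _

lemma B_uu {T : ℕ} (hT : 1 ≤ T) : B T = ENNReal.ofReal (uu T) := by
  rw [B_eq hT, BT_eq]

/-- the sites of the list. -/
lemma site {t : List Bool} {p : ℤ × ℤ} (hp : p ∈ toL oo t) :
    ∃ i, 1 ≤ i ∧ i ≤ t.length ∧ p.1 = lat t i ∧ (lev t i = 3 * p.2 ∨ lev t i = 3 * p.2 - 1) := by
  obtain ⟨v, ⟨i, h1, h2, rfl⟩, rfl⟩ := mem_toL.1 hp
  refine ⟨i, h1, h2, ?_, ?_⟩
  · show (vx oo up t i).1 = lat t i
    unfold lat
    simp only [cross, up]
    ring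
  · have h3 := lv_vx lv_oo t i
    have h4 : lev t i = lv (vx oo up t i) := by
      unfold lev lv ip up
      ring
    have h5 : (ph (vx oo up t i)).2 = (lv (vx oo up t i) + 1) / 3 := rfl
    rw [h5, h4]
    split_ifs at h3
    · left
      omega
    · right
      omega

/-- all the vertices are sites. -/
lemma site' {t : List Bool} {i : ℕ} (h1 : 1 ≤ i) (h2 : i ≤ t.length) : ∃ p ∈ toL oo t, p.1 = lat t i := by
  refine ⟨ph (vx oo up t i), mem_toL.2 ⟨_, ⟨i, h1, h2, rfl⟩, rfl⟩, ?_⟩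
  show (vx oo up t i).1 = lat t i
  unfold lat
  simp only [cross, up]
  ring

lemma latE_last {T : ℕ} (hT : 1 ≤ T) {t : List Bool} (ht : t ∈ Brd T) {b : ℤ}
    (hb : Crossing T 0 b (toL oo t)) : b = latE t := by
  have h5 := hb.2.2.2.2.1
  obtain ⟨b', h1, h2⟩ := crossing_toL hT lv_oo (brd_out.1 ht)
  have h3 := h1.2.2.2.2.1
  have h4 : b = b' := by
    rw [h5] at h3
    have := Option.some.inj h3
    exact (Prod.mk.inj this).1
  rw [h4, ← tip_fst ht, h2]
  rfl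

/-- TUBE THEOREM, Lipschitz form: for every L there is C such that for all L-Lipschitz g on [0, 1] with g 0 = 0,
all ε in (0, 1] and all T ≥ C / ε: a critical bridge of T rows stays within ε T of the graph of T g (y / T) with
probability at least exp (- C / ε). -/
theorem tube_lip (L : ℕ) : ∃ C : ℝ, 0 < C ∧ ∀ (g : ℝ → ℝ),
    (∀ a ∈ Set.Icc (0 : ℝ) 1, ∀ b ∈ Set.Icc (0 : ℝ) 1, |g a - g b| ≤ L * |a - b|) → g 0 = 0 →
    ∀ (ε : ℝ) (T : ℕ), 0 < ε → ε ≤ 1 → C / ε ≤ T →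
      ENNReal.ofReal (Real.exp (-(C / ε))) * B T ≤
        ∑' L : {L // (∃ b, Crossing T 0 b L) ∧ ∀ p ∈ L, |(p.1 : ℝ) / T - g ((p.2 : ℝ) / T)| ≤ ε}, wt L := by
  obtain ⟨C, hC, hmain⟩ := tube_words L
  have hLr : (0 : ℝ) ≤ L := Nat.cast_nonneg L
  refine ⟨2 * C + 2 * L + 2, by positivity, ?_⟩
  intro g hg hg0 ε T hε hε1 hT
  have hTε : 2 * C + 2 * L + 2 ≤ ε * T := by
    rw [div_le_iff₀ hε] at hT
    linarith
  have hTp : (0 : ℝ) < T := by
    have : 0 < ε * T := by linarith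
    exact (pos_iff_pos_of_mul_pos this).1 hε
  have hT1 : 1 ≤ T := by
    have : 0 < T := by exact_mod_cast hTp
    omega
  -- the clamped function
  let cl : ℝ → ℝ := fun x => max 0 (min 1 x)
  have hcl0 : ∀ x, cl x ∈ Set.Icc (0 : ℝ) 1 := fun x => ⟨le_max_left _ _, max_le zero_le_one (min_le_left _ _)⟩
  have hcl1 : ∀ x ∈ Set.Icc (0 : ℝ) 1, cl x = x := by
    rintro x ⟨h0, h1⟩
    show max 0 (min 1 x) = x
    rw [min_eq_right h1, max_eq_right h0]
  have hclL : ∀ x y, |cl x - cl y| ≤ |x - y| := by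
    intro x y
    show |max 0 (min 1 x) - max 0 (min 1 y)| ≤ |x - y|
    have h1 := abs_max_sub_max_le_abs (min 1 x) (min 1 y) 0
    have h2 := abs_min_sub_min_le_max 1 x 1 y
    rw [max_comm (min 1 x) 0, max_comm (min 1 y) 0] at h1
    refine h1.trans (h2.trans ?_)
    rw [sub_self, abs_zero, max_eq_right (abs_nonneg _)]
  let G : ℝ → ℝ := fun x => T * g (cl (x / T))
  have hG : ∀ a b, |G a - G b| ≤ L * |a - b| := by
    intro a b
    show |(T : ℝ) * g (cl (a / T)) - T * g (cl (b / T))| ≤ L * |a - b|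
    rw [← mul_sub, abs_mul, abs_of_pos hTp]
    have h1 := hg _ (hcl0 (a / T)) _ (hcl0 (b / T))
    have h2 := hclL (a / T) (b / T)
    have h3 : |a / T - b / T| = |a - b| / T := by
      rw [← sub_div, abs_div, abs_of_pos hTp]
    rw [h3] at h2
    calc (T : ℝ) * |g (cl (a / T)) - g (cl (b / T))| ≤ T * (L * (|a - b| / T)) := by
          apply mul_le_mul_of_nonneg_left _ hTp.le
          exact h1.trans (mul_le_mul_of_nonneg_left h2 hLr)
      _ = L * |a - b| := by field_simp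
  have hG0 : G 0 = 0 := by
    show (T : ℝ) * g (cl (0 / T)) = 0
    rw [zero_div, hcl1 0 ⟨le_rfl, zero_le_one⟩, hg0, mul_zero]
  have h1 := hmain G hG hG0 (ε / 2) T (by positivity) (by linarith) (by
    rw [div_le_iff₀ (by positivity)]
    nlinarith)
  rw [transfer hT1, B_uu hT1, ← ENNReal.ofReal_mul (Real.exp_pos _).le]
  refine (ENNReal.ofReal_le_ofReal ?_).trans (h1.trans (gf_mono ?_))
  · apply mul_le_mul_of_nonneg_right _ (uu_pos T).le
    apply Real.exp_le_exp.2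
    have h2 : C / (ε / 2) = 2 * C / ε := by field_simp
    rw [h2, neg_le_neg_iff, div_le_div_iff_of_pos_right hε]
    linarith
  · rintro N ⟨hN, ht⟩
    refine ⟨hN, ?_⟩
    intro p hp
    obtain ⟨i, i1, i2, e1, e2⟩ := site hp
    have h2 := ht i i2
    simp only [Nat.cast_zero, Int.cast_zero, zero_add] at h2
    have hr := lev_range hN i2
    have hTr : (lev N i : ℝ) / 3 / T ∈ Set.Icc (0 : ℝ) 1 := by
      refine ⟨div_nonneg hr.1 hTp.le, ?_⟩
      rw [div_le_one hTp]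
      exact hr.2
    have hGe : G ((lev N i : ℝ) / 3) = T * g ((lev N i : ℝ) / 3 / T) := by
      show (T : ℝ) * g (cl ((lev N i : ℝ) / 3 / T)) = _
      rw [hcl1 _ hTr]
    rw [hGe] at h2
    -- the row
    have hrow : |(lev N i : ℝ) / 3 - p.2| ≤ 1 / 3 := by
      rcases e2 with e2 | e2
      · rw [e2]
        push_cast
        rw [show (3 : ℝ) * p.2 / 3 - p.2 = 0 by ring, abs_zero]
        norm_num
      · rw [e2]
        push_cast
        rw [show ((3 : ℝ) * p.2 - 1) / 3 - p.2 = -(1 / 3) by ring, abs_neg, abs_of_pos (by norm_num)]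
    have hp2 : (p.2 : ℝ) / T ∈ Set.Icc (0 : ℝ) 1 := by
      have hl1 := (mem_Brd.1 hN).1 i i1 i2
      have h3 : 0 ≤ p.2 ∧ p.2 ≤ T := by omega
      have h4 : (0 : ℝ) ≤ p.2 := by exact_mod_cast h3.1
      have h5 : (p.2 : ℝ) ≤ T := by exact_mod_cast h3.2
      exact ⟨div_nonneg h4 hTp.le, (div_le_one hTp).2 h5⟩
    have h3 := hg _ hTr _ hp2
    have h4 : |(lev N i : ℝ) / 3 / T - (p.2 : ℝ) / T| ≤ 1 / 3 / T := by
      rw [← sub_div, abs_div, abs_of_pos hTp]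
      exact div_le_div_of_nonneg_right hrow hTp.le
    have h5 : |g ((lev N i : ℝ) / 3 / T) - g ((p.2 : ℝ) / T)| ≤ L * (1 / 3 / T) :=
      h3.trans (mul_le_mul_of_nonneg_left h4 hLr)
    have h6 : |(p.1 : ℝ) / T - g ((lev N i : ℝ) / 3 / T)| ≤ ε / 2 := by
      have h7 : (p.1 : ℝ) / T - g ((lev N i : ℝ) / 3 / T) =
          ((lat N i : ℝ) - T * g ((lev N i : ℝ) / 3 / T)) / T := by
        rw [e1]
        field_simp
      rw [h7, abs_div, abs_of_pos hTp, div_le_iff₀ hTp]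
      exact h2
    have h7 : (L : ℝ) * (1 / 3 / T) ≤ ε / 2 := by
      rw [div_div, mul_one_div, div_le_iff₀ (by positivity)]
      nlinarith
    have e : (p.1 : ℝ) / T - g ((p.2 : ℝ) / T) = ((p.1 : ℝ) / T - g ((lev N i : ℝ) / 3 / T)) +
        (g ((lev N i : ℝ) / 3 / T) - g ((p.2 : ℝ) / T)) := by ring
    rw [e]
    refine (abs_add_le _ _).trans ?_
    linarith

/-- TAILS: exponential tails of the lateral extent. -/
theorem tails : ∃ C q : ℝ, 0 < C ∧ 0 < q ∧ q < 1 ∧ ∀ M T : ℕ, 1 ≤ T →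
    ∑' L : {L // (∃ b, Crossing T 0 b L) ∧ ∃ p ∈ L, (M * T : ℤ) < |p.1|}, wt L ≤
      ENNReal.ofReal (C * q ^ M) * B T := by
  obtain ⟨C0, q, h0, h1, h2, h3⟩ := latR
  refine ⟨C0, q, h0, h1, h2, ?_⟩
  intro M T hT
  rw [transfer hT, B_uu hT, ← ENNReal.ofReal_mul (by positivity)]
  refine le_trans (gf_mono ?_) (h3 M T hT)
  rintro t ⟨ht, p, hp, hM⟩
  obtain ⟨i, i1, i2, e1, -⟩ := site hp
  rw [e1] at hM
  exact ⟨ht, i, i2, hM⟩

/-- ANTICONCENTRATION of the end (b, T), in every finite set of columns. -/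
theorem end_anti : ∃ C κ : ℝ, 0 < C ∧ 0 < κ ∧ ∀ T : ℕ, 1 ≤ T → ∀ I : Finset ℤ, I.Nonempty →
    ∑ b ∈ I, E T b ≤ ENNReal.ofReal (C * ((I.card : ℝ) / T) ^ κ) * B T := by
  obtain ⟨C, κ, hC, hκ, hmain⟩ := anti_end
  refine ⟨C, κ, hC, hκ, ?_⟩
  intro T hT I hI
  rw [B_uu hT, ← ENNReal.ofReal_mul (by positivity)]
  refine le_trans ?_ (hmain T hT I hI)
  have h1 : ∀ b, E T b = gf {t | t ∈ Brd T ∧ latE t = b} := by
    intro b
    rw [E_eq hT]
    congr 1
    ext t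
    constructor
    · rintro ⟨h2, h3⟩
      have ht : t ∈ Brd T := brd_out.2 h2
      refine ⟨ht, ?_⟩
      rw [← tip_fst ht, h3]
      rfl
    · rintro ⟨ht, h3⟩
      have h2 := brd_out.1 ht
      refine ⟨h2, ?_⟩
      obtain ⟨b', h4, h5⟩ := crossing_toL hT lv_oo h2
      have h6 := latE_last hT ht h4
      rw [h5, h6, h3]
  simp_rw [h1]
  rw [← gf_biUnion]
  · apply gf_mono
    intro t ht
    simp only [Set.mem_iUnion] at ht
    obtain ⟨b, hb, ht, he⟩ := ht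
    exact ⟨ht, by rw [he]; exact hb⟩
  · intro i _ j _ hij
    rw [Set.disjoint_left]
    rintro t ⟨_, h2⟩ ⟨_, h3⟩
    exact hij (h2.symm.trans h3)

end CC

end HexObs
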