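import Pool.Agent.HexLim.Few

/-!
Anticoncentration of the end of a bridge of a given height.
-/

set_option autoImplicit false

namespace HexObs

namespace Ex

open Complex Finset ENNReal

/-- bridges with end in a finite set of columns. -/
def endI (T : ℕ) (I : Finset ℤ) : Set (List Bool) := {t | t ∈ Brd T ∧ latE t ∈ I}

/-- constant of the point estimate. -/
noncomputable def C3 : ℝ := 3 + 2 * Real.sqrt 2

lemma C3_pos : 0 < C3 := by
  unfold C3
  positivity

lemma endI_le {T : ℕ} (hT : 1 ≤ T) (I : Finset ℤ) :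
    gf (endI T I) ≤ ENNReal.ofReal (I.card * (C3 * (uu T - uu (T + 1)))) := by
  have hd : 0 ≤ uu T - uu (T + 1) := by
    have := uu_anti (Nat.le_succ T)
    linarith
  have hc := C3_pos
  have hsub : endI T I ⊆ ⋃ x ∈ I, BrE (St T) ∅ oo up {w | w.1 = x} := by
    rintro t ⟨ht, hx⟩
    simp only [Set.mem_iUnion]
    have h1 := brE_Brd T {latE t}
    rw [foot_oo] at h1
    refine ⟨latE t, hx, ?_⟩
    have h2 : t ∈ BrE (St T) ∅ oo up {w | w.1 ∈ ({latE t} : Set ℤ)} := by
      rw [h1]
      exact ⟨ht, rfl⟩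
    exact h2
  refine (gf_mono hsub).trans ((ENNReal.tsum_biUnion_le wE _ _).trans ?_)
  refine (Finset.sum_le_sum fun x _ => brE_point hT x).trans ?_
  rw [Finset.sum_const, nsmul_eq_mul, ← ENNReal.ofReal_natCast, ← ENNReal.ofReal_mul (Nat.cast_nonneg _)]
  apply ENNReal.ofReal_le_ofReal
  rw [uu_eq hT, uu_eq (by omega : 1 ≤ T + 1)]
  exact le_of_eq rfl

/-- counting the cuts. -/
lemma count_cuts {a b n : ℕ} {S : Set (List Bool)} (hn : ∀ t ∈ S, n ≤ (cutsIn t a b).card) :
    (n : ℝ≥0∞) * gf S ≤ ∑ c ∈ Finset.Icc a b, gf {t | t ∈ S ∧ Cut t c} := by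
  classical
  have h1 : ∀ c, gf {t | t ∈ S ∧ Cut t c} = ∑' t : S, (if Cut (t : List Bool) c then wE (t : List Bool) else 0) := by
    intro c
    unfold gf
    rw [_root_.tsum_subtype, _root_.tsum_subtype (f := fun t : List Bool => if Cut t c then wE t else 0)]
    apply tsum_congr
    intro t
    by_cases h2 : t ∈ S
    · by_cases h3 : Cut t c
      · rw [Set.indicator_of_mem (show t ∈ {t | t ∈ S ∧ Cut t c} from ⟨h2, h3⟩), Set.indicator_of_mem h2, if_pos h3]
      · rw [Set.indicator_of_notMem (fun h => h3 h.2), Set.indicator_of_mem h2, if_neg h3]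
    · rw [Set.indicator_of_notMem (fun h => h2 h.1), Set.indicator_of_notMem h2]
  simp_rw [h1]
  rw [← (Summable.tsum_finsetSum (fun c _ => ENNReal.summable))]
  unfold gf
  rw [← ENNReal.tsum_mul_left]
  apply ENNReal.tsum_le_tsum
  rintro ⟨t, ht⟩
  have h2 := hn t ht
  rw [← Finset.sum_filter, Finset.sum_const, nsmul_eq_mul]
  refine mul_le_mul_left ?_ _
  have e : (Finset.Icc a b).filter (fun c => Cut t c) = cutsIn t a b := by
    unfold cutsIn
    congr
  simp only
  rw [e]
  exact_mod_cast h2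

lemma cut_end {T c : ℕ} (hc : c < T) (I : Finset ℤ) :
    gf {t | t ∈ endI T I ∧ Cut t c} ≤ ENNReal.ofReal (uu c * (I.card * (C3 * (uu (T - c) - uu (T - c + 1))))) := by
  have hsub : {t | t ∈ endI T I ∧ Cut t c} ⊆ {N | ∃ a ∈ Brd c, ∃ u ∈ endI (T - c) (I.image (fun x => x - latE a)),
      N = a ++ u} := by
    rintro t ⟨⟨ht, hI⟩, s, u, b, hs, hu, e⟩
    have hb : T = c + b := by
      rw [e] at ht
      exact Brd_height ht (Brd_append hs hu)
    have hb' : T - c = b := by omega
    refine ⟨s, hs, u, ⟨by rw [hb']; exact hu, ?_⟩, e⟩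
    rw [Finset.mem_image]
    refine ⟨latE t, hI, ?_⟩
    rw [e, latE_cat (mem_Brd.1 hs).2.2.1]
    ring
  refine (gf_mono hsub).trans ((gf_sigma_le _ _).trans ?_)
  have h1 : ∀ a : Brd c, wE a * gf (endI (T - c) (I.image (fun x => x - latE (a : List Bool)))) ≤
      wE a * ENNReal.ofReal (I.card * (C3 * (uu (T - c) - uu (T - c + 1)))) := by
    rintro ⟨a, ha⟩
    have h2 := endI_le (T := T - c) (by omega) (I.image (fun x => x - latE a))
    have h3 : (I.image (fun x => x - latE a)).card = I.card :=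
      Finset.card_image_of_injective _ (sub_left_injective)
    rw [h3] at h2
    exact mul_le_mul_right h2 _
  refine (ENNReal.tsum_le_tsum h1).trans ?_
  rw [ENNReal.tsum_mul_right]
  have h2 : ∑' a : Brd c, wE (a : List Bool) = ENNReal.ofReal (uu c) := by
    rw [← BT_eq, ← gf_Brd]
    rfl
  rw [h2, ← ENNReal.ofReal_mul (uu_pos c).le]

/-- many cuts spread the end. -/
theorem many_le {T a b n : ℕ} (hab : a ≤ b) (hb : 2 * b ≤ T) (hT : 1 ≤ T) (hn : 1 ≤ n) (I : Finset ℤ) :
    gf {t | t ∈ endI T I ∧ n ≤ (cutsIn t a b).card} ≤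
      ENNReal.ofReal (2 * (6 + CW) * C3 * (I.card * uu a / n) * uu T) := by
  have hCW := Num2Aux.CW_pos
  have hc3 := C3_pos
  have hnp : (0 : ℝ) < n := by exact_mod_cast hn
  have hua := uu_pos a
  have h1 := count_cuts (a := a) (b := b) (n := n) (S := {t | t ∈ endI T I ∧ n ≤ (cutsIn t a b).card})
    (fun t ht => ht.2)
  have h2 : ∑ c ∈ Finset.Icc a b, gf {t | t ∈ {t | t ∈ endI T I ∧ n ≤ (cutsIn t a b).card} ∧ Cut t c} ≤
      ENNReal.ofReal (uu a * (I.card * (C3 * uu (T - b)))) := by
    have h3 : ∀ c ∈ Finset.Icc a b, gf {t | t ∈ {t | t ∈ endI T I ∧ n ≤ (cutsIn t a b).card} ∧ Cut t c} ≤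
        ENNReal.ofReal (uu a * (I.card * (C3 * (uu (T - c) - uu (T - c + 1))))) := by
      intro c hc
      rw [Finset.mem_Icc] at hc
      refine (gf_mono (fun t ht => ⟨ht.1.1, ht.2⟩ :
        {t | t ∈ {t | t ∈ endI T I ∧ n ≤ (cutsIn t a b).card} ∧ Cut t c} ⊆ {t | t ∈ endI T I ∧ Cut t c})).trans ?_
      refine (cut_end (by omega) I).trans (ENNReal.ofReal_le_ofReal ?_)
      apply mul_le_mul_of_nonneg_right (uu_anti hc.1)
      have : 0 ≤ uu (T - c) - uu (T - c + 1) := by
        have := uu_anti (Nat.le_succ (T - c))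
        linarith
      positivity
    refine (Finset.sum_le_sum h3).trans ?_
    have hnn : ∀ c ∈ Finset.Icc a b, 0 ≤ uu a * (I.card * (C3 * (uu (T - c) - uu (T - c + 1)))) := by
      intro c _
      have : 0 ≤ uu (T - c) - uu (T - c + 1) := by
        have := uu_anti (Nat.le_succ (T - c))
        linarith
      positivity
    rw [← ENNReal.ofReal_sum_of_nonneg hnn]
    apply ENNReal.ofReal_le_ofReal
    rw [← Finset.mul_sum]
    apply mul_le_mul_of_nonneg_left _ hua.le
    rw [← Finset.mul_sum]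
    apply mul_le_mul_of_nonneg_left _ (Nat.cast_nonneg _)
    rw [← Finset.mul_sum]
    apply mul_le_mul_of_nonneg_left _ hc3.le
    -- telescoping
    have h4 : ∀ m : ℕ, a ≤ m → m ≤ b → ∑ c ∈ Finset.Icc a m, (uu (T - c) - uu (T - c + 1)) =
        uu (T - m) - uu (T - a + 1) := by
      intro m ham
      induction m, ham using Nat.le_induction with
      | base =>
        intro _
        rw [Finset.Icc_self, Finset.sum_singleton]
      | succ m ham ih =>
        intro hmb
        rw [Finset.sum_Icc_succ_top (by omega), ih (by omega)]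
        have e : T - (m + 1) + 1 = T - m := by omega
        rw [e]
        ring
    rw [h4 b hab le_rfl]
    have := uu_pos (T - a + 1)
    linarith
  have h3 := h1.trans h2
  have h4 := uu_half hb
  have h5 : ENNReal.ofReal (uu a * (I.card * (C3 * uu (T - b)))) ≤
      ENNReal.ofReal (n * (2 * (6 + CW) * C3 * (I.card * uu a / n) * uu T)) := by
    apply ENNReal.ofReal_le_ofReal
    calc uu a * (I.card * (C3 * uu (T - b))) ≤ uu a * (I.card * (C3 * (2 * (6 + CW) * uu T))) := by
          gcongr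
      _ = n * (2 * (6 + CW) * C3 * (I.card * uu a / n) * uu T) := by
          field_simp
  have h6 := h3.trans h5
  rw [ENNReal.ofReal_mul hnp.le, ENNReal.ofReal_natCast] at h6
  have h7 : (n : ℝ≥0∞) ≠ 0 := by
    rw [Ne, Nat.cast_eq_zero]
    omega
  exact (ENNReal.mul_le_mul_iff_right h7 (ENNReal.natCast_ne_top n)).1 h6

/-- the three parts. -/
theorem anti_parts {T s W n : ℕ} (hs : 1 ≤ s) (hW : 1 ≤ W) (hn : 1 ≤ n) (hT : 2 * ((W + 2) * s) ≤ T) (I : Finset ℤ) :
    gf (endI T I) ≤ ENNReal.ofReal ((4 * (6 + CW) * (W : ℝ) ^ (-(1 / (6 + CW))) +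
      2 * (6 + CW) * (9 + CW) * (n / UU s) + 2 * (6 + CW) * C3 * (I.card * uu s / n)) * uu T) := by
  classical
  have hCW := Num2Aux.CW_pos
  have hc3 := C3_pos
  have hUs : 0 < UU s := Num2Aux.UU_pos s
  have hWp : (0 : ℝ) < W := by exact_mod_cast hW
  have hnp : (0 : ℝ) < n := by exact_mod_cast hn
  have hus := uu_pos s
  have huT := uu_pos T
  have hWs : s ≤ W * s := Nat.le_mul_of_pos_left s hW
  have hexp : (W + 2) * s = W * s + 2 * s := by ring
  have hexp1 : (W + 1) * s = W * s + s := by ring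
  set A : Set (List Bool) := ⋃ c ∈ Finset.range ((W + 1) * s), (FC s c) with hA
  have hAFC : ∀ a ∈ A, ∃ c, a ∈ FC s c := by
    intro a ha
    simp only [hA, Set.mem_iUnion] at ha
    obtain ⟨c, _, ha⟩ := ha
    exact ⟨c, ha⟩
  have hcover : endI T I ⊆ (NC s ((W + 1) * s) T ∪
      {N | ∃ a ∈ A, ∃ u ∈ {u | ∃ c, a ∈ FC s c ∧ u ∈ few n s (T - c)}, N = a ++ u}) ∪
      {t | t ∈ endI T I ∧ n ≤ (cutsIn t s ((W + 2) * s)).card} := by
    intro t ht
    by_cases hmany : n ≤ (cutsIn t s ((W + 2) * s)).card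
    · exact Or.inr ⟨ht, hmany⟩
    · left
      obtain ⟨c, a, u, h1, h2, ha, hu, e⟩ := FC_dec (s := s) (by omega) ht.1
      rcases Nat.lt_or_ge c ((W + 1) * s) with hc | hc
      · right
        refine ⟨a, ?_, u, ⟨c, ha, hu, ?_⟩, e⟩
        · simp only [hA, Set.mem_iUnion]
          exact ⟨c, Finset.mem_range.2 hc, ha⟩
        · by_contra hcon
          push Not at hcon
          apply hmany
          refine hcon.trans ?_
          have hsub : (cutsIn u 1 s).image (fun x => c + x) ⊆ cutsIn t s ((W + 2) * s) := by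
            intro x hx
            rw [Finset.mem_image] at hx
            obtain ⟨x', hx', rfl⟩ := hx
            rw [mem_cutsIn] at hx'
            rw [mem_cutsIn, e]
            exact ⟨⟨by omega, by omega⟩, cut_cat ha.1 hu hx'.2⟩
          have h3 := Finset.card_le_card hsub
          rwa [Finset.card_image_of_injective _ (add_right_injective c)] at h3
      · left
        refine ⟨ht.1, ?_⟩
        rintro c' h3 h4 ⟨s', u', b, hs', hu', e'⟩
        obtain ⟨v, hv, h5, -⟩ := cut_nested hs' ha.1 hu' hu (by omega) (e'.symm.trans e)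
        exact ha.2.2 c' h3 (by omega) ⟨s', v, _, hs', hv, h5⟩
  have h1 := E1 (s := s) (W := W) (n := T) hs hW (by omega)
  have h2 : gf {N | ∃ a ∈ A, ∃ u ∈ {u | ∃ c, a ∈ FC s c ∧ u ∈ few n s (T - c)}, N = a ++ u} ≤
      ENNReal.ofReal (2 * (6 + CW) * (9 + CW) * (n / UU s) * uu T) := by
    have h3 := fiber_le (s := s) (n := T) A hAFC (fun a => {u | ∃ c, a ∈ FC s c ∧ u ∈ few n s (T - c)})
      (ENNReal.ofReal (2 * (6 + CW) * (9 + CW) * (n / UU s))) (by
        intro a ha c hc
        simp only [hA, Set.mem_iUnion] at ha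
        obtain ⟨c', hc'r, ha'⟩ := ha
        have hcc := Brd_height hc.1 ha'.1
        subst hcc
        rw [Finset.mem_range] at hc'r
        have h4 := few_le (w := s) (m := T - c) hs (by omega) n
        have h5 : {u | ∃ c, a ∈ FC s c ∧ u ∈ few n s (T - c)} ⊆ few n s (T - c) := by
          rintro u ⟨c'', hc'', hu⟩
          have := Brd_height hc.1 hc''.1
          rw [this]
          exact hu
        refine (gf_mono h5).trans ?_
        rw [BT_eq, ← ENNReal.ofReal_mul (by positivity),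
          ← ENNReal.ofReal_toReal (gfB_ne (T := T - c) (P := few n s (T - c)) fun _ h => h.1)]
        exact ENNReal.ofReal_le_ofReal h4)
    refine h3.trans ?_
    have e5 : ENNReal.ofReal (2 * (6 + CW) * (9 + CW) * (n / UU s) * uu T) =
        ENNReal.ofReal (2 * (6 + CW) * (9 + CW) * (n / UU s)) * ENNReal.ofReal (uu T) :=
      ENNReal.ofReal_mul (by positivity)
    rw [e5]
    refine mul_le_mul' le_rfl ?_
    refine gfB_le (T := T) ?_
    rintro N ⟨a, ha, u, ⟨c, hc, hu⟩, e⟩
    simp only [hA, Set.mem_iUnion] at ha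
    obtain ⟨c', hc'r, ha'⟩ := ha
    have hcc := Brd_height hc.1 ha'.1
    subst hcc
    rw [Finset.mem_range] at hc'r
    have h4 := Brd_append hc.1 hu
    rw [← e] at h4
    have h5 : c + (T - c) = T := by omega
    rwa [h5] at h4
  have h3 := many_le (T := T) (a := s) (b := (W + 2) * s) (n := n) (by omega) hT (by omega) hn I
  refine (gf_mono hcover).trans ((gf_union_le _ _).trans ((add_le_add (gf_union_le _ _) le_rfl).trans ?_))
  refine (add_le_add (add_le_add h1 h2) h3).trans ?_
  have hk : 0 < (W : ℝ) ^ (-(1 / (6 + CW))) := Real.rpow_pos_of_pos hWp _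
  rw [← ENNReal.ofReal_add (by positivity) (by positivity), ← ENNReal.ofReal_add (by positivity) (by positivity)]
  apply ENNReal.ofReal_le_ofReal
  apply le_of_eq
  ring

end Ex

end HexObs
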