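import Pool.Agent.HexLim.Lists
import Mathlib.Topology.ContinuousMap.Weierstrass

/-!
The tube theorem for continuous functions.
-/

set_option autoImplicit false

open ENNReal

namespace HexObs

namespace CC

/-- a continuous function on [0, 1] that vanishes at 0 is close to a Lipschitz function that vanishes at 0. -/
lemma near_lip {g : ℝ → ℝ} (hg : ContinuousOn g (Set.Icc 0 1)) (h0 : g 0 = 0) {ε : ℝ} (hε : 0 < ε) :
    ∃ (L : ℕ) (f : ℝ → ℝ), (∀ a ∈ Set.Icc (0 : ℝ) 1, ∀ b ∈ Set.Icc (0 : ℝ) 1, |f a - f b| ≤ L * |a - b|) ∧ f 0 = 0 ∧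
      ∀ x ∈ Set.Icc (0 : ℝ) 1, |f x - g x| ≤ ε := by
  obtain ⟨q, hq⟩ := exists_polynomial_near_of_continuousOn 0 1 g hg (ε / 2) (by positivity)
  have hcont : ContinuousOn (fun x => (Polynomial.derivative q).eval x) (Set.Icc (0 : ℝ) 1) :=
    (Polynomial.derivative q).continuous.continuousOn
  obtain ⟨C, hC⟩ := isCompact_Icc.exists_bound_of_continuousOn hcont
  obtain ⟨L, hL⟩ := exists_nat_ge C
  refine ⟨L, fun x => q.eval x - q.eval 0, ?_, by simp, ?_⟩
  · intro a ha b hb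
    have h1 := (convex_Icc (0 : ℝ) 1).norm_image_sub_le_of_norm_hasDerivWithin_le (f := fun x => q.eval x)
      (f' := fun x => (Polynomial.derivative q).eval x) (C := L)
      (fun x _ => (q.hasDerivAt x).hasDerivWithinAt) (fun x hx => (hC x hx).trans hL) hb ha
    rw [Real.norm_eq_abs, Real.norm_eq_abs] at h1
    have e : q.eval a - q.eval 0 - (q.eval b - q.eval 0) = q.eval a - q.eval b := by ring
    rw [e]
    exact h1
  · intro x hx
    have h1 := hq x hx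
    have h2 := hq 0 ⟨le_rfl, zero_le_one⟩
    rw [h0, sub_zero] at h2
    have e : q.eval x - q.eval 0 - g x = (q.eval x - g x) + -(q.eval 0) := by ring
    show |q.eval x - q.eval 0 - g x| ≤ ε
    rw [e]
    refine (abs_add_le _ _).trans ?_
    rw [abs_neg]
    linarith

/-- TUBE THEOREM (full support). For every continuous g on [0, 1] with g 0 = 0 and every ε > 0 there is c > 0 such
that for all large T a critical bridge of T rows stays within ε T of the graph of T g (y / T) with probability at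
least c. -/
theorem tube_cont {g : ℝ → ℝ} (hg : ContinuousOn g (Set.Icc 0 1)) (h0 : g 0 = 0) {ε : ℝ} (hε : 0 < ε) :
    ∃ c : ℝ, 0 < c ∧ ∃ T0 : ℕ, ∀ T : ℕ, T0 ≤ T → ENNReal.ofReal c * B T ≤
      ∑' L : {L // (∃ b, Crossing T 0 b L) ∧ ∀ p ∈ L, |(p.1 : ℝ) / T - g ((p.2 : ℝ) / T)| ≤ ε}, wt L := by
  set δ := min (ε / 2) 1 with hδ
  have hδ0 : 0 < δ := lt_min (by positivity) one_pos
  have hδ1 : δ ≤ 1 := min_le_right _ _
  have hδ2 : δ ≤ ε / 2 := min_le_left _ _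
  obtain ⟨L, f, hf, hf0, hfg⟩ := near_lip hg h0 hδ0
  obtain ⟨C, hC, hmain⟩ := tube_lip L
  obtain ⟨T0, hT0⟩ := exists_nat_ge (C / δ)
  refine ⟨Real.exp (-(C / δ)), Real.exp_pos _, T0 + 1, ?_⟩
  intro T hT
  have hT1 : 1 ≤ T := by omega
  have hTp : (0 : ℝ) < T := by exact_mod_cast hT1
  have hCT : C / δ ≤ T := hT0.trans (by exact_mod_cast (by omega : T0 ≤ T))
  have h1 := hmain f hf hf0 δ T hδ0 hδ1 hCT
  refine h1.trans ?_
  rw [transfer hT1, transfer hT1]
  apply gf_mono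
  rintro t ⟨ht, hp⟩
  refine ⟨ht, ?_⟩
  intro p hpm
  have h2 := hp p hpm
  have hp2 : (p.2 : ℝ) / T ∈ Set.Icc (0 : ℝ) 1 := by
    obtain ⟨i, i1, i2, e1, e2⟩ := site hpm
    have hl1 := (mem_Brd.1 ht).1 i i1 i2
    have h3 : 0 ≤ p.2 ∧ p.2 ≤ T := by omega
    have h4 : (0 : ℝ) ≤ p.2 := by exact_mod_cast h3.1
    have h5 : (p.2 : ℝ) ≤ T := by exact_mod_cast h3.2
    exact ⟨div_nonneg h4 hTp.le, (div_le_one hTp).2 h5⟩
  have h3 := hfg _ hp2
  have e : (p.1 : ℝ) / T - g ((p.2 : ℝ) / T) = ((p.1 : ℝ) / T - f ((p.2 : ℝ) / T)) +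
      (f ((p.2 : ℝ) / T) - g ((p.2 : ℝ) / T)) := by ring
  rw [e]
  refine (abs_add_le _ _).trans ?_
  linarith

end CC

end HexObs
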