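import Pool.Agent.HexSPR.Final

/-!
The number of cuts of a bridge of a given height below w is rarely small.
-/

set_option autoImplicit false

namespace HexObs

namespace Ex

open Complex Finset ENNReal

/-- the cuts of u in [a, b]. -/
noncomputable def cutsIn (u : List Bool) (a b : ℕ) : Finset ℕ :=
  open Classical in (Finset.Icc a b).filter (fun c => Cut u c)

lemma mem_cutsIn {u : List Bool} {a b c : ℕ} : c ∈ cutsIn u a b ↔ (a ≤ c ∧ c ≤ b) ∧ Cut u c := by
  classical
  unfold cutsIn
  rw [Finset.mem_filter, Finset.mem_Icc]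

/-- bridges of height m with less than n cuts in [1, v]. -/
def few (n v m : ℕ) : Set (List Bool) := {u | u ∈ Brd m ∧ (cutsIn u 1 v).card < n}

lemma cut_cat {r b c : ℕ} {p u : List Bool} (hp : p ∈ Brd r) (hu : u ∈ Brd b) (h : Cut u c) : Cut (p ++ u) (r + c) := by
  obtain ⟨s, v, b', hs, hv, e⟩ := h
  exact ⟨p ++ s, v, b', Brd_append hp hs, hv, by rw [e, List.append_assoc]⟩

lemma few_step {n v m : ℕ} (hm : 1 ≤ m) : few (n + 1) v m ⊆
    (⋃ r ∈ Finset.Icc 1 v, cat (Irr r) (few n (v - r) (m - r))) ∪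
      ⋃ r ∈ Finset.Icc (v + 1) m, cat (Irr r) (Brd (m - r)) := by
  classical
  rintro u ⟨hu, hc⟩
  obtain ⟨r, p, u', h1, h2, hp, hu', e⟩ := Brd_first hu hm
  rcases Nat.lt_or_ge v r with h | h
  · right
    simp only [Set.mem_iUnion]
    exact ⟨r, Finset.mem_Icc.2 ⟨h, h2⟩, p, u', hp, hu', e⟩
  · left
    simp only [Set.mem_iUnion]
    refine ⟨r, Finset.mem_Icc.2 ⟨h1, h⟩, p, u', hp, ⟨hu', ?_⟩, e⟩
    have hsub : insert r ((cutsIn u' 1 (v - r)).image (fun c => r + c)) ⊆ cutsIn u 1 v := by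
      intro c hcm
      rw [Finset.mem_insert, Finset.mem_image] at hcm
      rw [mem_cutsIn]
      rcases hcm with rfl | ⟨c', hc', rfl⟩
      · exact ⟨⟨h1, h⟩, p, u', _, hp.1, hu', e⟩
      · rw [mem_cutsIn] at hc'
        refine ⟨⟨by omega, by omega⟩, ?_⟩
        rw [e]
        exact cut_cat hp.1 hu' hc'.2
    have h3 : r ∉ (cutsIn u' 1 (v - r)).image (fun c => r + c) := by
      intro hcon
      rw [Finset.mem_image] at hcon
      obtain ⟨c', hc', he⟩ := hcon
      rw [mem_cutsIn] at hc'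
      omega
    have h4 := Finset.card_le_card hsub
    rw [Finset.card_insert_of_notMem h3, Finset.card_image_of_injective _ (add_right_injective r)] at h4
    omega

lemma Irr_gf (r : ℕ) : gf (Irr r) = ENNReal.ofReal (kk r) := kap_eq r

/-- real weights -/
lemma gfB_ne {T : ℕ} {P : Set (List Bool)} (hP : P ⊆ Brd T) : gf P ≠ ∞ :=
  ne_top_of_le_ne_top ENNReal.ofReal_ne_top (gfB_le hP)

lemma gfB_real_le {T : ℕ} {P : Set (List Bool)} (hP : P ⊆ Brd T) : (gf P).toReal ≤ uu T := by
  have := ENNReal.toReal_mono ENNReal.ofReal_ne_top (gfB_le hP)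
  rwa [ENNReal.toReal_ofReal (uu_pos T).le] at this

lemma few_real_step {n v m : ℕ} (hm : 1 ≤ m) (hv : v ≤ m) : (gf (few (n + 1) v m)).toReal ≤
    ∑ r ∈ Finset.Icc 1 v, kk r * (gf (few n (v - r) (m - r))).toReal + uu m * KK' (v + 1) := by
  have h1 : gf (few (n + 1) v m) ≤ (∑ r ∈ Finset.Icc 1 v, gf (Irr r) * gf (few n (v - r) (m - r))) +
      ∑ r ∈ Finset.Icc (v + 1) m, gf (Irr r) * gf (Brd (m - r)) := by
    refine (gf_mono (few_step hm)).trans ((gf_union_le _ _).trans ?_)
    refine add_le_add ?_ ?_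
    · exact (ENNReal.tsum_biUnion_le wE _ _).trans (Finset.sum_le_sum fun r _ => gf_cat_le _ _)
    · exact (ENNReal.tsum_biUnion_le wE _ _).trans (Finset.sum_le_sum fun r _ => gf_cat_le _ _)
  have h2 : (∑ r ∈ Finset.Icc 1 v, gf (Irr r) * gf (few n (v - r) (m - r))) =
      ENNReal.ofReal (∑ r ∈ Finset.Icc 1 v, kk r * (gf (few n (v - r) (m - r))).toReal) := by
    rw [ENNReal.ofReal_sum_of_nonneg (fun r _ => mul_nonneg (kk_nonneg r) ENNReal.toReal_nonneg)]
    apply Finset.sum_congr rfl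
    intro r _
    rw [ENNReal.ofReal_mul (kk_nonneg r), Irr_gf,
      ENNReal.ofReal_toReal (gfB_ne (T := m - r) fun _ h => h.1)]
  have h3 : ∑ r ∈ Finset.Icc (v + 1) m, gf (Irr r) * gf (Brd (m - r)) =
      ENNReal.ofReal (∑ r ∈ Finset.Icc (v + 1) m, kk r * uu (m - r)) := by
    rw [ENNReal.ofReal_sum_of_nonneg (fun r _ => mul_nonneg (kk_nonneg r) (uu_pos _).le)]
    apply Finset.sum_congr rfl
    intro r _
    rw [ENNReal.ofReal_mul (kk_nonneg r), Irr_gf, gf_Brd, BT_eq]
  have hs1 : 0 ≤ ∑ r ∈ Finset.Icc 1 v, kk r * (gf (few n (v - r) (m - r))).toReal :=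
    Finset.sum_nonneg fun r _ => mul_nonneg (kk_nonneg r) ENNReal.toReal_nonneg
  have hs2 : 0 ≤ ∑ r ∈ Finset.Icc (v + 1) m, kk r * uu (m - r) :=
    Finset.sum_nonneg fun r _ => mul_nonneg (kk_nonneg r) (uu_pos _).le
  rw [h2, h3, ← ENNReal.ofReal_add hs1 hs2] at h1
  have h4 := ENNReal.toReal_mono ENNReal.ofReal_ne_top h1
  rw [ENNReal.toReal_ofReal (add_nonneg hs1 hs2)] at h4
  have h5 := T1 (m := m) (R := v + 1) hm
  linarith

/-- the potential argument. -/
theorem few_pot {w m0 : ℕ} (hw : 1 ≤ w) (hwm : w ≤ m0) (n : ℕ) : ∀ v m : ℕ, v ≤ w → m0 - w + v ≤ m →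
    (v : ℝ) * (gf (few n v m)).toReal ≤ n * (uu (m0 - w) * ((9 + CW) * (w / UU w))) := by
  have hCW := Num2Aux.CW_pos
  have hUw : 0 < UU w := Num2Aux.UU_pos w
  have hwp : (1 : ℝ) ≤ w := by exact_mod_cast hw
  have hu0 := uu_pos (m0 - w)
  set B := uu (m0 - w) * ((9 + CW) * (w / UU w)) with hB
  have hB0 : 0 < B := by positivity
  induction n with
  | zero =>
    intro v m _ _
    have h0 : few 0 v m = ∅ := by
      ext u
      simp only [Set.mem_empty_iff_false, iff_false]
      rintro ⟨_, h⟩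
      exact absurd h (Nat.not_lt_zero _)
    rw [h0]
    unfold gf
    simp
  | succ n ih =>
    intro v m hv hm
    rcases Nat.eq_zero_or_pos v with h0 | h0
    · rw [h0]
      simp only [Nat.cast_zero, zero_mul]
      positivity
    · have hm1 : 1 ≤ m := by omega
      have hvm : v ≤ m := by omega
      have hvp : (1 : ℝ) ≤ v := by exact_mod_cast h0
      have h1 := few_real_step (n := n) hm1 hvm
      have hK := KK_nonneg (v + 1)
      -- the first part
      have h2 : (v : ℝ) * ∑ r ∈ Finset.Icc 1 v, kk r * (gf (few n (v - r) (m - r))).toReal ≤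
          ∑ r ∈ Finset.Icc 1 v, kk r * (n * B) + uu (m0 - w) * ∑ r ∈ Finset.Icc 1 v, r * kk r := by
        rw [Finset.mul_sum, Finset.mul_sum, ← Finset.sum_add_distrib]
        apply Finset.sum_le_sum
        intro r hr
        rw [Finset.mem_Icc] at hr
        have h3 := ih (v - r) (m - r) (by omega) (by omega)
        have h4 : (gf (few n (v - r) (m - r))).toReal ≤ uu (m0 - w) :=
          (gfB_real_le fun _ h => h.1).trans (uu_anti (by omega))
        have e : ((v - r : ℕ) : ℝ) = (v : ℝ) - r := by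
          rw [Nat.cast_sub hr.2]
        rw [e] at h3
        set z := (gf (few n (v - r) (m - r))).toReal with hz
        have hk := kk_nonneg r
        have hrr : (0 : ℝ) ≤ r := Nat.cast_nonneg r
        calc (v : ℝ) * (kk r * z) = kk r * (((v : ℝ) - r) * z) + (r * kk r) * z := by ring
          _ ≤ kk r * (n * B) + (r * kk r) * uu (m0 - w) :=
              add_le_add (mul_le_mul_of_nonneg_left h3 hk) (mul_le_mul_of_nonneg_left h4 (by positivity))
          _ = _ := by ring
      have h3 : ∑ r ∈ Finset.Icc 1 v, kk r * (n * B) ≤ n * B := by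
        rw [← Finset.sum_mul]
        have h4 : ∑ r ∈ Finset.Icc 1 v, kk r ≤ 1 := by
          refine le_trans ?_ (sum_kk_le (v + 1))
          apply Finset.sum_le_sum_of_subset_of_nonneg
          · intro r hr
            rw [Finset.mem_Icc] at hr
            rw [Finset.mem_range]
            omega
          · intro r _ _
            exact kk_nonneg r
        have h5 : 0 ≤ (n : ℝ) * B := by positivity
        calc (∑ r ∈ Finset.Icc 1 v, kk r) * (n * B) ≤ 1 * (n * B) := mul_le_mul_of_nonneg_right h4 h5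
          _ = _ := one_mul _
      have h4 : ∑ r ∈ Finset.Icc 1 v, (r : ℝ) * kk r ≤ 3 * (w / UU w) := by
        refine le_trans ?_ (sum_mul_kk hw)
        apply Finset.sum_le_sum_of_subset_of_nonneg
        · intro r hr
          rw [Finset.mem_Icc] at hr
          rw [Finset.mem_range]
          omega
        · intro r _ _
          exact mul_nonneg (Nat.cast_nonneg r) (kk_nonneg r)
      have h5 : (v : ℝ) * KK' (v + 1) ≤ (6 + CW) * (w / UU w) := by
        have a1 := UU_mul_KK v
        have a2 := Num2Aux.mul_le_UU v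
        have a3 : uu w ≤ uu v := uu_anti hv
        have a4 := UU_le_mul hw
        have a5 := uu_pos w
        have a6 : (v : ℝ) * uu w ≤ UU v := (mul_le_mul_of_nonneg_left a3 (by linarith)).trans a2
        have a7 : (v : ℝ) * uu w * KK' (v + 1) ≤ 1 := (mul_le_mul_of_nonneg_right a6 hK).trans a1
        rw [← mul_div_assoc, le_div_iff₀ hUw]
        have a8 : 0 ≤ (v : ℝ) * KK' (v + 1) := mul_nonneg (by linarith) hK
        calc (v : ℝ) * KK' (v + 1) * UU w ≤ (v : ℝ) * KK' (v + 1) * ((6 + CW) * (w * uu w)) :=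
              mul_le_mul_of_nonneg_left a4 a8
          _ = (6 + CW) * w * ((v : ℝ) * uu w * KK' (v + 1)) := by ring
          _ ≤ (6 + CW) * w * 1 := mul_le_mul_of_nonneg_left a7 (by positivity)
          _ = _ := mul_one _
      have h6 : uu m ≤ uu (m0 - w) := uu_anti (by omega)
      have h7 : (v : ℝ) * (uu m * KK' (v + 1)) ≤ uu (m0 - w) * ((6 + CW) * (w / UU w)) := by
        calc (v : ℝ) * (uu m * KK' (v + 1)) = uu m * (v * KK' (v + 1)) := by ring
          _ ≤ uu (m0 - w) * ((6 + CW) * (w / UU w)) :=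
              mul_le_mul h6 h5 (mul_nonneg (by linarith) hK) hu0.le
      have h8 : uu (m0 - w) * ∑ r ∈ Finset.Icc 1 v, (r : ℝ) * kk r ≤ uu (m0 - w) * (3 * (w / UU w)) :=
        mul_le_mul_of_nonneg_left h4 hu0.le
      calc (v : ℝ) * (gf (few (n + 1) v m)).toReal ≤ v * (∑ r ∈ Finset.Icc 1 v,
            kk r * (gf (few n (v - r) (m - r))).toReal + uu m * KK' (v + 1)) :=
            mul_le_mul_of_nonneg_left h1 (by linarith)
        _ = v * ∑ r ∈ Finset.Icc 1 v, kk r * (gf (few n (v - r) (m - r))).toReal + v * (uu m * KK' (v + 1)) := by ring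
        _ ≤ (n * B + uu (m0 - w) * (3 * (w / UU w))) + uu (m0 - w) * ((6 + CW) * (w / UU w)) := by
            refine add_le_add (h2.trans (add_le_add h3 h8)) h7
        _ = (n : ℝ) * B + B := by
            rw [hB]
            ring
        _ = ((n + 1 : ℕ) : ℝ) * B := by
            push_cast
            ring

/-- few cuts below w: for bridges of height m ≥ 2 w. -/
theorem few_le {w m : ℕ} (hw : 1 ≤ w) (hwm : 2 * w ≤ m) (n : ℕ) :
    (gf (few n w m)).toReal ≤ 2 * (6 + CW) * (9 + CW) * (n / UU w) * uu m := by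
  have hCW := Num2Aux.CW_pos
  have hUw : 0 < UU w := Num2Aux.UU_pos w
  have hwp : (1 : ℝ) ≤ w := by exact_mod_cast hw
  have h1 := few_pot hw (by omega : w ≤ m) n w m le_rfl (by omega)
  have h2 := uu_half hwm
  have h3 : (w : ℝ) * (gf (few n w m)).toReal ≤ w * (2 * (6 + CW) * (9 + CW) * (n / UU w) * uu m) := by
    calc (w : ℝ) * (gf (few n w m)).toReal ≤ n * (uu (m - w) * ((9 + CW) * (w / UU w))) := h1
      _ ≤ n * (2 * (6 + CW) * uu m * ((9 + CW) * (w / UU w))) := by
          apply mul_le_mul_of_nonneg_left _ (Nat.cast_nonneg n)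
          exact mul_le_mul_of_nonneg_right h2 (by positivity)
      _ = _ := by ring
  exact le_of_mul_le_mul_left h3 (by linarith)

end Ex

end HexObs
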