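import Pool.Agent.HexLim.Law

/-!
Estimates for the trace of a critical bridge of T rows.
-/

set_option autoImplicit false

open ENNReal MeasureTheory TopologicalSpace

namespace HexObs

namespace CC

open Ex Haus

lemma lev_rows {T : ℕ} {t : List Bool} (ht : t ∈ Brd T) {i : ℕ} (h1 : 1 ≤ i) (h2 : i ≤ t.length) {y : ℤ}
    (h3 : lev t i = 3 * y ∨ lev t i = 3 * y - 1) : 1 ≤ y ∧ y ≤ T := by
  have h4 := (mem_Brd.1 ht).1 i h1 h2
  omega

/-- the strip -/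
lemma fin_strip {T : ℕ} (hT : 1 ≤ T) (L : {L : List (ℤ × ℤ) // ∃ b, Crossing T 0 b L}) :
    ∀ p ∈ trace T L, p ∈ {p : PL | 0 ≤ p.2 ∧ p.2 ≤ 1} := by
  rintro p hp
  obtain ⟨s, hs, rfl⟩ := mem_trace.1 hp
  obtain ⟨b, hb⟩ := L.2
  have h1 := hb.2.2.1 s hs
  have hTp : (0 : ℝ) < T := by exact_mod_cast hT
  have h2 : (0 : ℝ) ≤ s.2 := by
    have : (0 : ℤ) ≤ s.2 := by omega
    exact_mod_cast this
  have h3 : (s.2 : ℝ) ≤ T := by exact_mod_cast h1.2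
  exact ⟨div_nonneg h2 hTp.le, (div_le_one hTp).2 h3⟩

/-- the start -/
lemma fin_start {T : ℕ} (L : {L : List (ℤ × ℤ) // ∃ b, Crossing T 0 b L}) :
    ((0 : ℝ), 1 / (T : ℝ)) ∈ trace T L := by
  obtain ⟨b, hb⟩ := L.2
  refine mem_trace.2 ⟨(0, 1), head_mem hb, ?_⟩
  simp

/-- the end -/
lemma fin_end {T : ℕ} (hT : 1 ≤ T) (L : {L : List (ℤ × ℤ) // ∃ b, Crossing T 0 b L}) :
    ∃ p ∈ trace T L, p.2 = 1 := by
  obtain ⟨b, hb⟩ := L.2
  refine ⟨_, mem_trace.2 ⟨(b, (T : ℤ)), last_mem hb, rfl⟩, ?_⟩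
  have hTp : (0 : ℝ) < T := by exact_mod_cast hT
  show (((T : ℤ) : ℝ)) / T = 1
  rw [Int.cast_natCast, div_self hTp.ne']

lemma edge_dist {T : ℕ} (hT : 1 ≤ T) {s s' : ℤ × ℤ} (h : Edge s s') :
    dist (((s.1 : ℝ) / T, (s.2 : ℝ) / T) : PL) ((s'.1 : ℝ) / T, (s'.2 : ℝ) / T) ≤ 1 / T := by
  have hTp : (0 : ℝ) < T := by exact_mod_cast hT
  have h1 : |s.1 - s'.1| ≤ 1 ∧ |s.2 - s'.2| ≤ 1 := by
    rcases h with h | h | ⟨h, -⟩ | ⟨h, -⟩ <;> rw [h] <;> simp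
  have h2 : |(s.1 : ℝ) - s'.1| ≤ 1 := by exact_mod_cast h1.1
  have h3 : |(s.2 : ℝ) - s'.2| ≤ 1 := by exact_mod_cast h1.2
  rw [Prod.dist_eq]
  apply max_le
  · rw [Real.dist_eq, ← sub_div, abs_div, abs_of_pos hTp]
    exact div_le_div_of_nonneg_right h2 hTp.le
  · rw [Real.dist_eq, ← sub_div, abs_div, abs_of_pos hTp]
    exact div_le_div_of_nonneg_right h3 hTp.le

lemma chain_prop {α : Type*} {R : α → α → Prop} {P : α → Prop} : ∀ (l : List α) (a : α), (a :: l).IsChain R → P a →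
    (∀ x ∈ a :: l, ∀ y ∈ a :: l, R x y → P x → P y) → ∀ x ∈ a :: l, P x := by
  intro l
  induction l with
  | nil =>
    intro a _ ha _ x hx
    rw [List.mem_singleton] at hx
    rw [hx]
    exact ha
  | cons b l ih =>
    intro a hc ha h x hx
    rw [List.isChain_cons_cons] at hc
    have hb : P b := h a (by simp) b (by simp) hc.1 ha
    rcases List.mem_cons.1 hx with rfl | hx'
    · exact ha
    · exact ih b hc.2 hb (fun x hx y hy => h x (List.mem_cons_of_mem _ hx) y (List.mem_cons_of_mem _ hy)) x hx'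

/-- the trace does not split -/
lemma fin_split {T : ℕ} (hT : 1 ≤ T) {r : ℝ} (hr : 1 / (T : ℝ) < r) (L : {L : List (ℤ × ℤ) // ∃ b, Crossing T 0 b L}) :
    trace T L ∉ Split r := by
  rintro ⟨U, V, -, -, h3, h4, ⟨pU, hpU, hpU'⟩, ⟨pV, hpV, hpV'⟩⟩
  have hTp : (0 : ℝ) < T := by exact_mod_cast hT
  have hr0 : 0 < r := lt_trans (by positivity) hr
  obtain ⟨b, hb⟩ := L.2
  obtain ⟨l, hl⟩ : ∃ l, L.1 = (0, 1) :: l := by
    have h5 := hb.2.2.2.1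
    cases hL : L.1 with
    | nil =>
      rw [hL] at h5
      exact absurd h5 (by simp)
    | cons a l =>
      rw [hL, List.head?_cons] at h5
      exact ⟨l, by rw [Option.some.inj h5]⟩
  let f : ℤ × ℤ → PL := fun s => ((s.1 : ℝ) / T, (s.2 : ℝ) / T)
  have hchain : ((0, 1) :: l : List (ℤ × ℤ)).IsChain Edge := by
    rw [← hl]
    exact hb.1
  have hmem : ∀ s ∈ ((0, 1) :: l : List (ℤ × ℤ)), f s ∈ U ∪ V := by
    intro s hs
    rw [← hl] at hs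
    exact h4 _ (mem_trace.2 ⟨s, hs, rfl⟩)
  have hdis : ∀ x, x ∈ U → x ∉ V := by
    intro x hx hx'
    have := h3 x hx x hx'
    rw [dist_self] at this
    linarith
  rcases hmem (0, 1) (by simp) with h5 | h5
  · have h6 := chain_prop (P := fun s => f s ∈ U) l (0, 1) hchain h5 (by
      intro x hx y hy hxy hxU
      rcases hmem y hy with h7 | h7
      · exact h7
      · have h8 := h3 _ hxU _ h7
        have h9 := edge_dist hT hxy
        exact absurd (lt_of_lt_of_le hr (h8.trans h9)) (lt_irrefl _))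
    obtain ⟨s, hs, rfl⟩ := mem_trace.1 hpV
    rw [hl] at hs
    exact hdis _ (h6 s hs) hpV'
  · have h6 := chain_prop (P := fun s => f s ∈ V) l (0, 1) hchain h5 (by
      intro x hx y hy hxy hxV
      rcases hmem y hy with h7 | h7
      · have h8 := h3 _ h7 _ hxV
        have h9 := edge_dist hT hxy
        rw [dist_comm] at h9
        exact absurd (lt_of_lt_of_le hr (h8.trans h9)) (lt_irrefl _)
      · exact h7)
    obtain ⟨s, hs, rfl⟩ := mem_trace.1 hpU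
    rw [hl] at hs
    exact hdis _ hpU' (h6 s hs)

/-- near the bottom -/
theorem fin_bot {δ η : ℝ} (hδ : 0 < δ) (hη : 0 < η) : ∃ ε : ℝ, 0 < ε ∧ ∀ T : ℕ, 1 ≤ T →
    law T {K | ∃ p ∈ K, δ < |p.1| ∧ p.2 < ε} ≤ ENNReal.ofReal η := by
  obtain ⟨ε, h1, -, h3⟩ := touchR hδ hη
  refine ⟨ε, h1, ?_⟩
  intro T hT
  have hTp : (0 : ℝ) < T := by exact_mod_cast hT
  refine law_le_of hT hη.le ?_ (h3 T hT).1
  rintro t ht L hL ⟨p, hp, hp1, hp2⟩
  obtain ⟨i, y, i1, i2, e1, e2, e3⟩ := trace_site hL hp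
  have hy := lev_rows ht i1 i2 e3
  refine ⟨ht, y.toNat, ?_, i, i2, ?_, ?_⟩
  · rw [e2, div_lt_iff₀ hTp] at hp2
    have : ((y.toNat : ℕ) : ℝ) = y := by
      have : ((y.toNat : ℕ) : ℤ) = y := Int.toNat_of_nonneg (by omega)
      exact_mod_cast this
    rw [this]
    exact hp2.le
  · have : ((y.toNat : ℕ) : ℤ) = y := Int.toNat_of_nonneg (by omega)
    rw [this]
    omega
  · rw [e1, abs_div, abs_of_pos hTp, lt_div_iff₀ hTp] at hp1
    exact hp1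

/-- a site in the top rows far from the end -/
lemma top_of {ε δ : ℝ} {T : ℕ} (hT : 1 ≤ T) (hε : 1 ≤ ε * T) {t : List Bool} (ht : t ∈ Brd T) {i : ℕ} {y : ℤ}
    (i1 : 1 ≤ i) (i2 : i ≤ t.length) (e3 : lev t i = 3 * y ∨ lev t i = 3 * y - 1) (h1 : 1 - ε < (y : ℝ) / T)
    (h2 : δ < |(lat t i : ℝ) / T - (latE t : ℝ) / T|) : t ∈ TopR (2 * ε) δ T := by
  have hTp : (0 : ℝ) < T := by exact_mod_cast hT
  have hy := lev_rows ht i1 i2 e3
  refine ⟨ht, (T - y).toNat + 1, ?_, i, i1, i2, ?_, ?_⟩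
  · rw [lt_div_iff₀ hTp] at h1
    have : (((T - y).toNat : ℕ) : ℝ) = T - y := by
      have : (((T - y).toNat : ℕ) : ℤ) = T - y := Int.toNat_of_nonneg (by omega)
      exact_mod_cast this
    push_cast
    rw [this]
    linarith
  · have : (((T - y).toNat : ℕ) : ℤ) = T - y := Int.toNat_of_nonneg (by omega)
    push_cast
    rw [this]
    omega
  · rw [← sub_div, abs_div, abs_of_pos hTp, lt_div_iff₀ hTp, abs_sub_comm] at h2
    exact h2

/-- two points near the top -/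
theorem fin_top {δ η : ℝ} (hδ : 0 < δ) (hη : 0 < η) : ∃ (ε : ℝ) (T0 : ℕ), 0 < ε ∧ ∀ T : ℕ, T0 ≤ T →
    law T {K | ∃ p ∈ K, ∃ p' ∈ K, 2 * δ < |p.1 - p'.1| ∧ 1 - ε < p.2 ∧ 1 - ε < p'.2} ≤ ENNReal.ofReal η := by
  obtain ⟨ε, h1, -, h3⟩ := touchR hδ hη
  obtain ⟨T0, hT0⟩ := exists_nat_ge (2 / ε)
  rw [div_le_iff₀ h1] at hT0
  refine ⟨ε / 2, T0 + 1, by positivity, ?_⟩
  intro T hT
  have hT1 : 1 ≤ T := by omega
  have hTp : (0 : ℝ) < T := by exact_mod_cast hT1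
  have hTT : (T0 : ℝ) ≤ T := by exact_mod_cast (by omega : T0 ≤ T)
  have hεT : 1 ≤ ε / 2 * T := by nlinarith
  refine law_le_of hT1 hη.le ?_ (h3 T hT1).2
  rintro t ht L hL ⟨p, hp, p', hp', hd, hp1, hp2⟩
  obtain ⟨i, y, i1, i2, e1, e2, e3⟩ := trace_site hL hp
  obtain ⟨i', y', i1', i2', e1', e2', e3'⟩ := trace_site hL hp'
  have e : ε = 2 * (ε / 2) := by ring
  rw [e]
  by_cases hc : δ < |(lat t i : ℝ) / T - (latE t : ℝ) / T|
  · rw [e2] at hp1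
    exact top_of hT1 hεT ht i1 i2 e3 hp1 hc
  · by_cases hc' : δ < |(lat t i' : ℝ) / T - (latE t : ℝ) / T|
    · rw [e2'] at hp2
      exact top_of hT1 hεT ht i1' i2' e3' hp2 hc'
    · exfalso
      push Not at hc hc'
      rw [e1, e1'] at hd
      have h5 : |(lat t i : ℝ) / T - (lat t i' : ℝ) / T| ≤ 2 * δ := by
        have h6 : (lat t i : ℝ) / T - (lat t i' : ℝ) / T =
            ((lat t i : ℝ) / T - (latE t : ℝ) / T) - ((lat t i' : ℝ) / T - (latE t : ℝ) / T) := by ring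
        rw [h6]
        refine (abs_sub _ _).trans ?_
        linarith
      linarith

/-- the end in an interval -/
theorem fin_int : ∃ C κ : ℝ, 0 < C ∧ 0 < κ ∧ ∀ (a h η : ℝ), 0 < h → 0 < η → ∃ (ε : ℝ) (T0 : ℕ), 0 < ε ∧
    ∀ T : ℕ, T0 ≤ T → law T {K | ∃ p ∈ K, a - h < p.1 ∧ p.1 < a + 2 * h ∧ 1 - ε < p.2} ≤ ENNReal.ofReal (C * h ^ κ + η) := by
  obtain ⟨C, κ, hC, hκ, hmain⟩ := anti_end
  refine ⟨C * 6 ^ κ, κ, by positivity, hκ, ?_⟩
  intro a h η hh hη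
  obtain ⟨ε, h1, -, h3⟩ := touchR hh hη
  obtain ⟨T0, hT0⟩ := exists_nat_ge (2 / ε)
  obtain ⟨T1, hT1⟩ := exists_nat_ge (1 / h)
  rw [div_le_iff₀ h1] at hT0
  rw [div_le_iff₀ hh] at hT1
  refine ⟨ε / 2, T0 + T1 + 1, by positivity, ?_⟩
  intro T hT
  have hT1' : 1 ≤ T := by omega
  have hTp : (0 : ℝ) < T := by exact_mod_cast hT1'
  have hTT : (T0 : ℝ) ≤ T := by exact_mod_cast (by omega : T0 ≤ T)
  have hTT1 : (T1 : ℝ) ≤ T := by exact_mod_cast (by omega : T1 ≤ T)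
  have hεT : 1 ≤ ε / 2 * T := by nlinarith
  have hhT : 1 ≤ h * T := by nlinarith
  set I : Finset ℤ := Finset.Icc ⌈(a - 2 * h) * T⌉ ⌊(a + 3 * h) * T⌋ with hI
  have hcard : ((I.card : ℕ) : ℝ) / T ≤ 6 * h := by
    rw [div_le_iff₀ hTp, hI, Int.card_Icc]
    have h4 := Int.le_ceil ((a - 2 * h) * T)
    have h5 := Int.floor_le ((a + 3 * h) * T)
    rcases le_or_gt 0 (⌊(a + 3 * h) * T⌋ + 1 - ⌈(a - 2 * h) * T⌉) with h6 | h6
    · have h7 : (((⌊(a + 3 * h) * T⌋ + 1 - ⌈(a - 2 * h) * T⌉).toNat : ℕ) : ℝ) =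
          ⌊(a + 3 * h) * T⌋ + 1 - ⌈(a - 2 * h) * T⌉ := by
        have : (((⌊(a + 3 * h) * T⌋ + 1 - ⌈(a - 2 * h) * T⌉).toNat : ℕ) : ℤ) =
          ⌊(a + 3 * h) * T⌋ + 1 - ⌈(a - 2 * h) * T⌉ := Int.toNat_of_nonneg h6
        exact_mod_cast this
      rw [h7]
      nlinarith
    · rw [Int.toNat_of_nonpos h6.le]
      push_cast
      positivity
  have hP : gf (TopR ε h T ∪ endI T I) ≤ ENNReal.ofReal ((C * 6 ^ κ * h ^ κ + η) * uu T) := by
    refine (gf_union_le _ _).trans ?_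
    have h4 : gf (endI T I) ≤ ENNReal.ofReal (C * 6 ^ κ * h ^ κ * uu T) := by
      rcases I.eq_empty_or_nonempty with h5 | h5
      · have h6 : endI T I = ∅ := by
          rw [Set.eq_empty_iff_forall_notMem]
          rintro t ⟨_, ht⟩
          rw [h5] at ht
          exact absurd ht (Finset.notMem_empty _)
        rw [h6]
        unfold gf
        simp
      · refine (hmain T hT1' I h5).trans (ENNReal.ofReal_le_ofReal ?_)
        apply mul_le_mul_of_nonneg_right _ (uu_pos T).le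
        rw [mul_assoc]
        apply mul_le_mul_of_nonneg_left _ hC.le
        rw [← Real.mul_rpow (by norm_num) hh.le]
        exact Real.rpow_le_rpow (by positivity) hcard hκ.le
    refine (add_le_add (h3 T hT1').2 h4).trans ?_
    have h5 : 0 < h ^ κ := Real.rpow_pos_of_pos hh _
    have h6 := uu_pos T
    rw [← ENNReal.ofReal_add (by positivity) (by positivity)]
    apply ENNReal.ofReal_le_ofReal
    apply le_of_eq
    ring
  refine law_le_of hT1' (by have : 0 < h ^ κ := Real.rpow_pos_of_pos hh _; positivity) ?_ hP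
  rintro t ht L hL ⟨p, hp, hp1, hp2, hp3⟩
  obtain ⟨i, y, i1, i2, e1, e2, e3⟩ := trace_site hL hp
  by_cases hc : h < |(lat t i : ℝ) / T - (latE t : ℝ) / T|
  · left
    rw [e2] at hp3
    have e : ε = 2 * (ε / 2) := by ring
    rw [e]
    exact top_of hT1' hεT ht i1 i2 e3 hp3 hc
  · right
    push Not at hc
    rw [abs_le] at hc
    rw [e1] at hp1 hp2
    refine ⟨ht, ?_⟩
    rw [hI, Finset.mem_Icc]
    constructor
    · rw [Int.ceil_le]
      have h5 : a - 2 * h < (latE t : ℝ) / T := by linarith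
      rw [lt_div_iff₀ hTp] at h5
      exact h5.le
    · rw [Int.le_floor]
      have h5 : (latE t : ℝ) / T < a + 3 * h := by linarith
      rw [div_lt_iff₀ hTp] at h5
      exact h5.le

/-- tails -/
theorem fin_tails : ∃ C q : ℝ, 0 < C ∧ 0 < q ∧ q < 1 ∧ ∀ T M : ℕ, 1 ≤ T →
    law T {K | ∃ p ∈ K, (M : ℝ) < |p.1|} ≤ ENNReal.ofReal (C * q ^ M) := by
  obtain ⟨C0, q, h0, h1, h2, h3⟩ := latR
  refine ⟨C0, q, h0, h1, h2, ?_⟩
  intro T M hT
  have hTp : (0 : ℝ) < T := by exact_mod_cast hT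
  refine law_le_of hT (by positivity) ?_ (h3 M T hT)
  rintro t ht L hL ⟨p, hp, hp1⟩
  obtain ⟨i, y, i1, i2, e1, e2, e3⟩ := trace_site hL hp
  refine ⟨ht, i, i2, ?_⟩
  rw [e1, abs_div, abs_of_pos hTp, lt_div_iff₀ hTp] at hp1
  exact_mod_cast hp1

/-- the tube -/
theorem fin_tube (L : ℕ) : ∃ C : ℝ, 0 < C ∧ ∀ g : ℝ → ℝ,
    (∀ a ∈ Set.Icc (0 : ℝ) 1, ∀ b ∈ Set.Icc (0 : ℝ) 1, |g a - g b| ≤ L * |a - b|) → g 0 = 0 →
    ∀ ε : ℝ, 0 < ε → ε ≤ 1 → ∃ T0 : ℕ, ∀ T : ℕ, T0 ≤ T → ENNReal.ofReal (Real.exp (-(C / ε))) ≤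
      law T {K | ∀ p ∈ K, p.2 ∈ Set.Icc (0 : ℝ) 1 ∧ |p.1 - g p.2| ≤ ε} := by
  obtain ⟨C, hC, hmain⟩ := tube_lip L
  refine ⟨C, hC, ?_⟩
  intro g hg hg0 ε hε hε1
  obtain ⟨T0, hT0⟩ := exists_nat_ge (C / ε)
  refine ⟨T0 + 1, ?_⟩
  intro T hT
  have hT1 : 1 ≤ T := by omega
  have h1 := hmain g hg hg0 ε T hε hε1 (hT0.trans (by exact_mod_cast (by omega : T0 ≤ T)))
  rw [transfer hT1] at h1
  refine le_trans ?_ (law_ge hT1 (Q := fun N => ∀ p ∈ N, |(p.1 : ℝ) / T - g ((p.2 : ℝ) / T)| ≤ ε) ?_)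
  · calc ENNReal.ofReal (Real.exp (-(C / ε))) =
          (B T)⁻¹ * (ENNReal.ofReal (Real.exp (-(C / ε))) * B T) := by
            rw [mul_comm, mul_assoc, ENNReal.mul_inv_cancel (B_ne_zero hT1) (B_ne_top' hT1), mul_one]
      _ ≤ _ := mul_le_mul' le_rfl h1
  · intro N hN p hp
    refine ⟨fin_strip hT1 N p hp, ?_⟩
    obtain ⟨s, hs, rfl⟩ := mem_trace.1 hp
    exact hN s hs

theorem fin_tube' {g : ℝ → ℝ} (hg : ContinuousOn g (Set.Icc 0 1)) (h0 : g 0 = 0) {ε : ℝ} (hε : 0 < ε) :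
    ∃ c : ℝ, 0 < c ∧ ∃ T0 : ℕ, ∀ T : ℕ, T0 ≤ T → ENNReal.ofReal c ≤
      law T {K | ∀ p ∈ K, p.2 ∈ Set.Icc (0 : ℝ) 1 ∧ |p.1 - g p.2| ≤ ε} := by
  obtain ⟨c, hc, T0, hT0⟩ := tube_cont hg h0 hε
  refine ⟨c, hc, T0 + 1, ?_⟩
  intro T hT
  have hT1 : 1 ≤ T := by omega
  have h1 := hT0 T (by omega)
  rw [transfer hT1] at h1
  refine le_trans ?_ (law_ge hT1 (Q := fun N => ∀ p ∈ N, |(p.1 : ℝ) / T - g ((p.2 : ℝ) / T)| ≤ ε) ?_)
  · calc ENNReal.ofReal c = (B T)⁻¹ * (ENNReal.ofReal c * B T) := by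
            rw [mul_comm, mul_assoc, ENNReal.mul_inv_cancel (B_ne_zero hT1) (B_ne_top' hT1), mul_one]
      _ ≤ _ := mul_le_mul' le_rfl h1
  · intro N hN p hp
    refine ⟨fin_strip hT1 N p hp, ?_⟩
    obtain ⟨s, hs, rfl⟩ := mem_trace.1 hp
    exact hN s hs

end CC

end HexObs
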