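import Pool.Agent.HexLim.Fin

/-!
Narrow levels of the trace.
-/

set_option autoImplicit false

open ENNReal MeasureTheory TopologicalSpace

namespace HexObs

namespace CC

open Ex Haus

lemma narrow_num {ε : ℕ → ℝ} (hε : ∀ k, 0 < ε k) {α : ℝ} (hα : 0 < α) (s0 j : ℕ) : ∃ T0 : ℕ, ∀ T : ℕ, T0 ≤ T →
    1 ≤ T ∧ s0 ≤ ⌊α * T⌋₊ ∧ α * T / 2 ≤ ⌊α * T⌋₊ ∧ ∀ k ≤ j, 4 ≤ ε k * (α * T) := by
  choose N hN using fun k : ℕ => exists_nat_ge (4 / (ε k * α))
  obtain ⟨N0, hN0⟩ := exists_nat_ge ((s0 + 2) / α)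
  refine ⟨(Finset.range (j + 1)).sup N + N0 + 1, ?_⟩
  intro T hT
  have hT1 : 1 ≤ T := by omega
  have hTp : (0 : ℝ) < T := by exact_mod_cast hT1
  have h0 : (N0 : ℝ) ≤ T := by exact_mod_cast (by omega : N0 ≤ T)
  rw [div_le_iff₀ hα] at hN0
  have h1 : (s0 : ℝ) + 2 ≤ α * T := by nlinarith
  have hs0 : (0 : ℝ) ≤ s0 := Nat.cast_nonneg s0
  refine ⟨hT1, Nat.le_floor (by linarith), ?_, ?_⟩
  · have h2 : α * T < (⌊α * T⌋₊ : ℕ) + 1 := Nat.lt_floor_add_one _
    linarith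
  · intro k hk
    have h2 : N k ≤ T := by
      have : N k ≤ (Finset.range (j + 1)).sup N := Finset.le_sup (Finset.mem_range.2 (by omega))
      omega
    have h3 : (N k : ℝ) ≤ T := by exact_mod_cast h2
    have h4 := hN k
    have h5 := hε k
    rw [div_le_iff₀ (by positivity)] at h4
    calc (4 : ℝ) ≤ N k * (ε k * α) := h4
      _ ≤ T * (ε k * α) := mul_le_mul_of_nonneg_right h3 (by positivity)
      _ = ε k * (α * T) := by ring

/-- NARROW LEVELS near the bottom and near the top. -/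
theorem fin_narrow {η r : ℝ} (hη : 0 < η) (hr : 0 < r) (hr2 : r ≤ 1 / 2) : ∃ (e d : ℕ → ℝ) (a : ℝ),
    (∀ k, 0 < e k) ∧ Filter.Tendsto d Filter.atTop (nhds 0) ∧ 0 < a ∧ ∀ j, ∃ T0 : ℕ, ∀ T : ℕ, T0 ≤ T →
      law T {K | ∃ l ∈ Set.Icc a r, NarrowAt e d j K l}ᶜ ≤ ENNReal.ofReal η ∧
      law T {K | ∃ l ∈ Set.Icc (1 - r) (1 - a), NarrowAt e d j K l}ᶜ ≤ ENNReal.ofReal η := by
  have hδ : ∀ k : ℕ, (0 : ℝ) < (1 / 2) ^ k := fun k => by positivity
  obtain ⟨ε, W, s0, hε, hW, hs0, hmain⟩ := good_cut hδ hη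
  set α := r / (W + 2) with hα
  have hα0 : 0 < α := by positivity
  have hαW : (W + 2) * α = r := by
    rw [hα]
    field_simp
  refine ⟨fun k => ε k * α / 4, fun k => 2 * (1 / 2) ^ k, α / 2, ?_, ?_, by positivity, ?_⟩
  · intro k
    have := (hε k).1
    positivity
  · have h1 := tendsto_pow_atTop_nhds_zero_of_lt_one (by norm_num : (0 : ℝ) ≤ 1 / 2) (by norm_num : (1 / 2 : ℝ) < 1)
    have h2 := h1.const_mul 2
    rw [mul_zero] at h2
    exact h2
  intro j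
  obtain ⟨T0, hT0⟩ := narrow_num (fun k => (hε k).1) hα0 s0 j
  refine ⟨T0, ?_⟩
  intro T hT
  obtain ⟨hT1, h1, h2, h3⟩ := hT0 T hT
  have hTp : (0 : ℝ) < T := by exact_mod_cast hT1
  set s := ⌊α * T⌋₊ with hs
  have hsα : (s : ℝ) ≤ α * T := Nat.floor_le (by positivity)
  have hWs : ((W + 2 : ℕ) : ℝ) * s ≤ r * T := by
    push_cast
    calc ((W : ℝ) + 2) * s ≤ (W + 2) * (α * T) := mul_le_mul_of_nonneg_left hsα (by positivity)
      _ = (W + 2) * α * T := by ring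
      _ = r * T := by rw [hαW]
  have hTs : 2 * ((W + 2) * s) ≤ T := by
    have h4 : (2 : ℝ) * (((W + 2 : ℕ) : ℝ) * s) ≤ T := by nlinarith
    exact_mod_cast h4
  have hk2 : ∀ k ≤ j, 2 ≤ ε k * s := by
    intro k hk
    have h4 := h3 k hk
    have h5 := (hε k).1
    nlinarith
  have hgf := hmain j T s h1 hk2 hTs
  have hcut : ∀ c : ℕ, s ≤ c → c ≤ (W + 2) * s → α / 2 ≤ (c : ℝ) / T ∧ (c : ℝ) / T ≤ r := by
    intro c hc1 hc2
    have h4 : (s : ℝ) ≤ c := by exact_mod_cast hc1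
    have h5 : (c : ℝ) ≤ ((W + 2 : ℕ) : ℝ) * s := by exact_mod_cast hc2
    rw [le_div_iff₀ hTp, div_le_iff₀ hTp]
    constructor
    · linarith
    · linarith
  have hscale : ∀ k ≤ j, ∀ x : ℝ, |x| < ε k * α / 4 * T → 3 * |x| + 3 ≤ 3 * (ε k * s) := by
    intro k hk x hx
    have h4 := h3 k hk
    have h5 := (hε k).1
    nlinarith
  constructor
  · refine law_le_of hT1 hη.le ?_ hgf
    rintro t ht L hL hK
    refine ⟨ht, ?_⟩
    rintro ⟨c, hc1, hc2, hN⟩
    apply hK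
    obtain ⟨h4, h5⟩ := hcut c hc1 hc2
    refine ⟨(c : ℝ) / T, ⟨h4, h5⟩, ?_⟩
    have key : ∀ k ≤ j, ∀ (p : PL) (i : ℕ) (y : ℤ), p.2 = (y : ℝ) / T → (lev t i = 3 * y ∨ lev t i = 3 * y - 1) →
        |p.2 - (c : ℝ) / T| < ε k * α / 4 → |(lev t i : ℝ) - 3 * c| ≤ 3 * (ε k * s) := by
      intro k hk p i y e2 e3 hp
      rw [e2, ← sub_div, abs_div, abs_of_pos hTp, div_lt_iff₀ hTp] at hp
      have h6 := hscale k hk _ hp
      refine le_trans ?_ h6
      rcases e3 with e3 | e3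
      · rw [e3]
        push_cast
        rw [show (3 : ℝ) * y - 3 * c = 3 * (y - c) by ring, abs_mul, abs_of_pos (by norm_num : (0 : ℝ) < 3)]
        linarith
      · rw [e3]
        push_cast
        rw [show (3 : ℝ) * y - 1 - 3 * c = 3 * (y - c) + (-1) by ring]
        refine (abs_add_le _ _).trans ?_
        rw [abs_mul, abs_of_pos (by norm_num : (0 : ℝ) < 3), abs_neg, abs_one]
        linarith
    intro k hk p hp p' hp' hpl hpl'
    obtain ⟨i, y, i1, i2, e1, e2, e3⟩ := trace_site hL hp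
    obtain ⟨i', y', i1', i2', e1', e2', e3'⟩ := trace_site hL hp'
    have h6 := hN k hk i i1 i2 i' i1' i2' (key k hk p i y e2 e3 hpl) (key k hk p' i' y' e2' e3' hpl')
    rw [e1, e1', ← sub_div, abs_div, abs_of_pos hTp, div_le_iff₀ hTp]
    linarith
  · have hgf' : gf {t | t ∈ Brd T ∧ ¬ ∃ c, s ≤ c ∧ c ≤ (W + 2) * s ∧ Narrow ε (fun k => (1 / 2) ^ k) j s T (rev t) c} ≤
        ENNReal.ofReal (η * uu T) := by
      rw [Wall.gf_Brd_rev T (fun t => ¬ ∃ c, s ≤ c ∧ c ≤ (W + 2) * s ∧ Narrow ε (fun k => (1 / 2) ^ k) j s T t c)]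
      exact hgf
    refine law_le_of hT1 hη.le ?_ hgf'
    rintro t ht L hL hK
    refine ⟨ht, ?_⟩
    rintro ⟨c, hc1, hc2, hN⟩
    apply hK
    obtain ⟨h4, h5⟩ := hcut c hc1 hc2
    refine ⟨1 - (c : ℝ) / T, ⟨by linarith, by linarith⟩, ?_⟩
    have key : ∀ k ≤ j, ∀ (p : PL) (i : ℕ) (y : ℤ), 1 ≤ i → i ≤ t.length → p.2 = (y : ℝ) / T →
        (lev t i = 3 * y ∨ lev t i = 3 * y - 1) →
        |p.2 - (1 - (c : ℝ) / T)| < ε k * α / 4 → |(lev (rev t) (t.length + 1 - i) : ℝ) - 3 * c| ≤ 3 * (ε k * s) := by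
      intro k hk p i y i1 i2 e2 e3 hp
      have h7 : (y : ℝ) / T - (1 - (c : ℝ) / T) = ((y : ℝ) + c - T) / T := by
        field_simp
        ring
      rw [e2, h7, abs_div, abs_of_pos hTp, div_lt_iff₀ hTp] at hp
      have h6 := hscale k hk _ hp
      refine le_trans ?_ h6
      have h8 : lev (rev t) (t.length + 1 - i) = 3 * T + 2 - lev t i := by
        rw [lev_rot (Wall.dx_end ht) (by omega), lev_top ht]
        have : t.length + 1 - (t.length + 1 - i) = i := by omega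
        rw [this]
      rw [h8]
      rcases e3 with e3 | e3
      · rw [e3]
        push_cast
        rw [show (3 : ℝ) * T + 2 - 3 * y - 3 * c = -(3 * (y + c - T)) + 2 by ring]
        refine (abs_add_le _ _).trans ?_
        rw [abs_neg, abs_mul, abs_of_pos (by norm_num : (0 : ℝ) < 3), abs_of_pos (by norm_num : (0 : ℝ) < 2)]
        linarith
      · rw [e3]
        push_cast
        rw [show (3 : ℝ) * T + 2 - (3 * y - 1) - 3 * c = -(3 * (y + c - T)) + 3 by ring]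
        refine (abs_add_le _ _).trans ?_
        rw [abs_neg, abs_mul, abs_of_pos (by norm_num : (0 : ℝ) < 3)]
    intro k hk p hp p' hp' hpl hpl'
    obtain ⟨i, y, i1, i2, e1, e2, e3⟩ := trace_site hL hp
    obtain ⟨i', y', i1', i2', e1', e2', e3'⟩ := trace_site hL hp'
    have h6 := hN k hk (t.length + 1 - i) (by omega) (by rw [rev_length]; omega) (t.length + 1 - i') (by omega)
      (by rw [rev_length]; omega) (key k hk p i y i1 i2 e2 e3 hpl) (key k hk p' i' y' i1' i2' e2' e3' hpl')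
    rw [Wall.lat_rev ht (by omega), Wall.lat_rev ht (by omega)] at h6
    have h9 : t.length + 1 - (t.length + 1 - i) = i := by omega
    have h9' : t.length + 1 - (t.length + 1 - i') = i' := by omega
    rw [h9, h9'] at h6
    push_cast at h6
    rw [show (latE t : ℝ) - lat t i - (latE t - lat t i') = -((lat t i : ℝ) - lat t i') by ring, abs_neg] at h6
    rw [e1, e1', ← sub_div, abs_div, abs_of_pos hTp, div_le_iff₀ hTp]
    linarith

end CC

end HexObs
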