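import Pool.Agent.HexLim.Touch

/-!
Cuts at which the walk is narrow at all scales.
-/

set_option autoImplicit false

open ENNReal

namespace HexObs

namespace Ex

/-- the walk near the bottom at the scale k -/
def BotR (ε δ : ℝ) (T : ℕ) : Set (List Bool) :=
  {t | t ∈ Brd T ∧ ∃ s : ℕ, (s : ℝ) ≤ ε * T ∧ ∃ i ≤ t.length, lev t i ≤ 3 * s ∧ δ * T < |(lat t i : ℝ)|}

/-- the walk near the top -/
def TopR (ε δ : ℝ) (T : ℕ) : Set (List Bool) :=
  {t | t ∈ Brd T ∧ ∃ s : ℕ, (s : ℝ) ≤ ε * T ∧ ∃ i, 1 ≤ i ∧ i ≤ t.length ∧ 3 * (T - s : ℤ) + 2 ≤ lev t i ∧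
    δ * T < |(latE t : ℝ) - lat t i|}

lemma BotR_mono {ε ε' δ : ℝ} (h : ε ≤ ε') (T : ℕ) : BotR ε δ T ⊆ BotR ε' δ T := by
  rintro t ⟨ht, s, hs, h1⟩
  exact ⟨ht, s, hs.trans (mul_le_mul_of_nonneg_right h (Nat.cast_nonneg T)), h1⟩

lemma TopR_mono {ε ε' δ : ℝ} (h : ε ≤ ε') (T : ℕ) : TopR ε δ T ⊆ TopR ε' δ T := by
  rintro t ⟨ht, s, hs, h1⟩
  exact ⟨ht, s, hs.trans (mul_le_mul_of_nonneg_right h (Nat.cast_nonneg T)), h1⟩

theorem touchR {δ η : ℝ} (hδ : 0 < δ) (hη : 0 < η) : ∃ ε : ℝ, 0 < ε ∧ ε ≤ 1 ∧ ∀ T : ℕ, 1 ≤ T →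
    gf (BotR ε δ T) ≤ ENNReal.ofReal (η * uu T) ∧ gf (TopR ε δ T) ≤ ENNReal.ofReal (η * uu T) := by
  obtain ⟨ε1, h1, h2, h3⟩ := touch hδ hη
  obtain ⟨ε2, h4, h5, h6⟩ := touch_top hδ hη
  refine ⟨min ε1 ε2, lt_min h1 h4, (min_le_left _ _).trans h2, ?_⟩
  intro T hT
  have hTp : (0 : ℝ) < T := by exact_mod_cast hT
  constructor
  · refine le_trans (gf_mono ?_) (h3 T ⌊ε1 * T⌋₊ hT (Nat.floor_le (by positivity)))
    rintro t ⟨ht, s, hs, i, hi, hl, hr⟩
    refine ⟨ht, i, hi, ?_, hr⟩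
    have h7 : s ≤ ⌊ε1 * T⌋₊ := Nat.le_floor (hs.trans (mul_le_mul_of_nonneg_right (min_le_left _ _) hTp.le))
    have : (s : ℤ) ≤ ⌊ε1 * T⌋₊ := by exact_mod_cast h7
    omega
  · refine le_trans (gf_mono ?_) (h6 T ⌊ε2 * T⌋₊ hT (Nat.floor_le (by positivity)))
    rintro t ⟨ht, s, hs, i, hi1, hi, hl, hr⟩
    refine ⟨ht, i, hi1, hi, ?_, hr⟩
    have h7 : s ≤ ⌊ε2 * T⌋₊ := Nat.le_floor (hs.trans (mul_le_mul_of_nonneg_right (min_le_right _ _) hTp.le))
    have : (s : ℤ) ≤ ⌊ε2 * T⌋₊ := by exact_mod_cast h7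
    omega

/-- all scales at once. -/
theorem touch_all {δ : ℕ → ℝ} (hδ : ∀ k, 0 < δ k) {η : ℝ} (hη : 0 < η) : ∃ ε : ℕ → ℝ, (∀ k, 0 < ε k ∧ ε k ≤ 1) ∧
    ∀ T : ℕ, 1 ≤ T → gf (⋃ k, BotR (ε k) (δ k) T) ≤ ENNReal.ofReal (η * uu T) ∧
      gf (⋃ k, TopR (ε k) (δ k) T) ≤ ENNReal.ofReal (η * uu T) := by
  have hk : ∀ k : ℕ, 0 < η / 2 / 2 ^ k := fun k => by positivity
  choose ε h1 h2 h3 using fun k => touchR (hδ k) (hk k)
  refine ⟨ε, fun k => ⟨h1 k, h2 k⟩, ?_⟩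
  intro T hT
  have huT := uu_pos T
  have hsum : ∑' k : ℕ, ENNReal.ofReal (η / 2 / 2 ^ k * uu T) = ENNReal.ofReal (η * uu T) := by
    rw [← ENNReal.ofReal_tsum_of_nonneg (fun k => by positivity) ((summable_geometric_two' η).mul_right (uu T)),
      tsum_mul_right, tsum_geometric_two']
  constructor
  · rw [← hsum]
    refine (ENNReal.tsum_iUnion_le_tsum wE _).trans (ENNReal.tsum_le_tsum fun k => ?_)
    exact (h3 k T hT).1
  · rw [← hsum]
    refine (ENNReal.tsum_iUnion_le_tsum wE _).trans (ENNReal.tsum_le_tsum fun k => ?_)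
    exact (h3 k T hT).2

/-- the walk is narrow near the level c, at the scales up to j. -/
def Narrow (ε δ : ℕ → ℝ) (j s T : ℕ) (t : List Bool) (c : ℕ) : Prop :=
  ∀ k ≤ j, ∀ i, 1 ≤ i → i ≤ t.length → ∀ i', 1 ≤ i' → i' ≤ t.length →
    |(lev t i : ℝ) - 3 * c| ≤ 3 * (ε k * s) → |(lev t i' : ℝ) - 3 * c| ≤ 3 * (ε k * s) →
    |(lat t i : ℝ) - lat t i'| ≤ 2 * (δ k * T)

/-- a cut which is not narrow. -/
lemma narrow_of {ε δ : ℕ → ℝ} (hδ : ∀ k, 0 < δ k) {j s T c : ℕ} (hsc : s ≤ c) (hcT : 2 * c ≤ T)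
    (hj : ∀ k ≤ j, 2 ≤ ε k * s) {t a u : List Bool} (ha : a ∈ Brd c) (hu : u ∈ Brd (T - c)) (e : t = a ++ u)
    (h1 : a ∉ ⋃ k, TopR (2 * ε k) (δ k) c) (h2 : u ∉ ⋃ k, BotR (2 * ε k) (δ k) (T - c)) :
    Narrow ε δ j s T t c := by
  intro k hk
  have hx := hj k hk
  have hδk := hδ k
  simp only [Set.mem_iUnion, not_exists] at h1 h2
  have h1k := h1 k
  have h2k := h2 k
  have hεk : 0 < ε k := by
    by_contra hcon
    push Not at hcon
    have : ε k * s ≤ 0 := mul_nonpos_of_nonpos_of_nonneg hcon (Nat.cast_nonneg s)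
    linarith
  set m := ⌊ε k * s⌋₊ + 2 with hm
  have hfl : ((⌊ε k * s⌋₊ : ℕ) : ℝ) ≤ ε k * s := Nat.floor_le (by positivity)
  have hfl2 : ε k * s < (⌊ε k * s⌋₊ : ℕ) + 1 := Nat.lt_floor_add_one _
  have hm1 : (m : ℝ) ≤ 2 * ε k * s := by
    rw [hm]
    push_cast
    linarith
  have hscr : (s : ℝ) ≤ c := by exact_mod_cast hsc
  have hcTr : (c : ℝ) ≤ (T - c : ℕ) := by
    have : c ≤ T - c := by omega
    exact_mod_cast this
  have hTcr : ((T - c : ℕ) : ℝ) ≤ T := by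
    have : T - c ≤ T := by omega
    exact_mod_cast this
  have hcTr' : (c : ℝ) ≤ T := hcTr.trans hTcr
  have key : ∀ i, 1 ≤ i → i ≤ t.length → |(lev t i : ℝ) - 3 * c| ≤ 3 * (ε k * s) →
      |(lat t i : ℝ) - latE a| ≤ δ k * T := by
    intro i hi1 hi hl
    rw [abs_le] at hl
    rcases Nat.lt_or_ge a.length i with hia | hia
    · obtain ⟨j', hj'⟩ := Nat.exists_eq_add_of_lt hia
      have hj'' : i = a.length + (j' + 1) := by omega
      rw [e, hj'', lev_cat (mem_Brd.1 ha).2.2.1, (mem_Brd.1 ha).2.2.2] at hl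
      rw [e, hj'', lat_cat (mem_Brd.1 ha).2.2.1]
      push_cast at hl ⊢
      have h3 : |(lat u (j' + 1) : ℝ)| ≤ δ k * (T - c : ℕ) := by
        by_contra hcon
        push Not at hcon
        apply h2k
        refine ⟨hu, m, ?_, j' + 1, ?_, ?_, hcon⟩
        · calc (m : ℝ) ≤ 2 * ε k * s := hm1
            _ ≤ 2 * ε k * (T - c : ℕ) := by
              apply mul_le_mul_of_nonneg_left _ (by positivity)
              linarith
        · rw [e, List.length_append, hj''] at hi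
          omega
        · have h4 : (lev u (j' + 1) : ℝ) ≤ 3 * m := by
            rw [hm]
            push_cast
            linarith [hl.2]
          exact_mod_cast h4
      rw [show ((latE a : ℤ) : ℝ) + lat u (j' + 1) - latE a = lat u (j' + 1) by ring]
      refine h3.trans ?_
      exact mul_le_mul_of_nonneg_left hTcr hδk.le
    · rw [e, lev_append (by omega)] at hl
      rw [e, lat_append (by omega)]
      have h3 : |(latE a : ℝ) - lat a i| ≤ δ k * c := by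
        by_contra hcon
        push Not at hcon
        apply h1k
        refine ⟨ha, m, ?_, i, hi1, hia, ?_, hcon⟩
        · calc (m : ℝ) ≤ 2 * ε k * s := hm1
            _ ≤ 2 * ε k * c := mul_le_mul_of_nonneg_left hscr (by positivity)
        · have h4 : (3 * ((c : ℝ) - m) + 2 : ℝ) ≤ lev a i := by
            rw [hm]
            push_cast
            linarith [hl.1]
          exact_mod_cast h4
      rw [abs_sub_comm]
      refine h3.trans ?_
      exact mul_le_mul_of_nonneg_left hcTr' hδk.le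
  intro i hi1 hi i' hi1' hi' hl hl'
  have h3 := key i hi1 hi hl
  have h4 := key i' hi1' hi' hl'
  rw [show (lat t i : ℝ) - lat t i' = ((lat t i : ℝ) - latE a) - ((lat t i' : ℝ) - latE a) by ring]
  refine (abs_sub _ _).trans ?_
  linarith

/-- GOOD CUTS. -/
theorem good_cut {δ : ℕ → ℝ} (hδ : ∀ k, 0 < δ k) {η : ℝ} (hη : 0 < η) : ∃ (ε : ℕ → ℝ) (W s0 : ℕ),
    (∀ k, 0 < ε k ∧ ε k ≤ 1) ∧ 1 ≤ W ∧ 1 ≤ s0 ∧ ∀ j T s : ℕ, s0 ≤ s → (∀ k ≤ j, 2 ≤ ε k * s) →
      2 * ((W + 2) * s) ≤ T →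
      gf {t | t ∈ Brd T ∧ ¬ ∃ c, s ≤ c ∧ c ≤ (W + 2) * s ∧ Narrow ε δ j s T t c} ≤ ENNReal.ofReal (η * uu T) := by
  have hCW := Num2Aux.CW_pos
  -- W
  have hW : ∃ W : ℕ, 1 ≤ W ∧ 4 * (6 + CW) * (W : ℝ) ^ (-(1 / (6 + CW))) ≤ η / 4 := by
    have h1 : Filter.Tendsto (fun n : ℕ => (n : ℝ) ^ (-(1 / (6 + CW)))) Filter.atTop (nhds 0) :=
      (tendsto_rpow_neg_atTop (by positivity : 0 < 1 / (6 + CW))).comp tendsto_natCast_atTop_atTop
    obtain ⟨n, hn1, hn⟩ := ((Filter.eventually_ge_atTop 1).and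
      (h1.eventually_le_const (by positivity : (0 : ℝ) < η / 4 / (4 * (6 + CW))))).exists
    refine ⟨n, hn1, ?_⟩
    rw [le_div_iff₀ (by positivity)] at hn
    linarith
  obtain ⟨W, hW1, hW⟩ := hW
  set A := 2 * (6 + CW) * (9 + CW) with hA
  have hA0 : 0 < A := by positivity
  set δ' := η / (4 * A) with hδ'
  have hδ0 : 0 < δ' := by positivity
  obtain ⟨s0, hs01, hs0⟩ := UU_large (4 * A / η)
  set η' := η / 4 / (2 * (2 * (6 + CW)) * ((W + 2) / δ')) with hη'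
  have hη'0 : 0 < η' := by positivity
  obtain ⟨ε1, he1, he2⟩ := touch_all hδ hη'0
  refine ⟨fun k => ε1 k / 2, W, s0, ?_, hW1, hs01, ?_⟩
  · intro k
    have := he1 k
    constructor
    · linarith
    · linarith
  intro j T s hs hj hT
  have hs1 : 1 ≤ s := hs01.trans hs
  have huT := uu_pos T
  have hUs : 0 < UU s := Num2Aux.UU_pos s
  have hUU := hs0 s hs
  set n := ⌈δ' * UU s⌉₊ with hn
  have hn1 : 1 ≤ n := Nat.ceil_pos.2 (by positivity)
  have hn2 : δ' * UU s ≤ n := Nat.le_ceil _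
  have hn3 : (n : ℝ) < δ' * UU s + 1 := Nat.ceil_lt_add_one (by positivity)
  have hnp : (0 : ℝ) < n := by exact_mod_cast hn1
  set b := (W + 2) * s with hb
  have hsb : s ≤ b := by
    rw [hb]
    exact Nat.le_mul_of_pos_left s (by omega)
  set S := {t | t ∈ Brd T ∧ ¬ ∃ c, s ≤ c ∧ c ≤ b ∧ Narrow (fun k => ε1 k / 2) δ j s T t c} with hS
  have h0 := parts (n := n) hs1 hW1 hT (S := S) (fun t ht => ht.1)
  rw [← hb] at h0
  have h1 := count_gen (a := s) (b := b) (n := n) (S := {t | t ∈ S ∧ n ≤ (cutsIn t s b).card})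
    (P := fun t c => Cut t c) (by
      rintro t ⟨_, ht⟩
      refine ⟨cutsIn t s b, ht, ?_⟩
      intro c hc
      rw [mem_cutsIn] at hc
      exact ⟨hc.1.1, hc.1.2, hc.2⟩)
  have h2 : ∀ c ∈ Finset.Icc s b, gf {t | t ∈ {t | t ∈ S ∧ n ≤ (cutsIn t s b).card} ∧ Cut t c} ≤
      ENNReal.ofReal (2 * η' * uu c * (2 * (6 + CW) * uu T)) := by
    intro c hc
    rw [Finset.mem_Icc] at hc
    have hTc : uu (T - c) ≤ 2 * (6 + CW) * uu T := uu_half (by omega)
    have huc := uu_pos c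
    have hucT := uu_pos (T - c)
    have h3 : {t | t ∈ {t | t ∈ S ∧ n ≤ (cutsIn t s b).card} ∧ Cut t c} ⊆
        {t | ∃ a ∈ ⋃ k, TopR (ε1 k) (δ k) c, ∃ u ∈ Brd (T - c), t = a ++ u} ∪
          {t | ∃ a ∈ Brd c, ∃ u ∈ ⋃ k, BotR (ε1 k) (δ k) (T - c), t = a ++ u} := by
      rintro t ⟨⟨⟨ht, hbad⟩, _⟩, a, u, m, ha, hu, e⟩
      have hm : T = c + m := by
        rw [e] at ht
        exact Brd_height ht (Brd_append ha hu)
      have hu' : u ∈ Brd (T - c) := by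
        have : T - c = m := by omega
        rw [this]
        exact hu
      by_cases hA1 : a ∈ ⋃ k, TopR (ε1 k) (δ k) c
      · exact Or.inl ⟨a, hA1, u, hu', e⟩
      · by_cases hB1 : u ∈ ⋃ k, BotR (ε1 k) (δ k) (T - c)
        · exact Or.inr ⟨a, ha, u, hB1, e⟩
        · exfalso
          apply hbad
          refine ⟨c, hc.1, hc.2, ?_⟩
          have e2 : ∀ k, 2 * (ε1 k / 2) = ε1 k := fun k => by ring
          refine narrow_of hδ hc.1 (by omega) hj ha hu' e ?_ ?_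
          · simp only [e2]
            exact hA1
          · simp only [e2]
            exact hB1
    refine (gf_mono h3).trans ((gf_union_le _ _).trans ?_)
    have h4 : gf {t | ∃ a ∈ ⋃ k, TopR (ε1 k) (δ k) c, ∃ u ∈ Brd (T - c), t = a ++ u} ≤
        ENNReal.ofReal (η' * uu c) * ENNReal.ofReal (uu (T - c)) := by
      refine (gf_le_mul fun t ht => ht).trans ?_
      rw [gf_Brd, BT_eq]
      exact mul_le_mul' (he2 c (by omega)).2 le_rfl
    have h5 : gf {t | ∃ a ∈ Brd c, ∃ u ∈ ⋃ k, BotR (ε1 k) (δ k) (T - c), t = a ++ u} ≤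
        ENNReal.ofReal (uu c) * ENNReal.ofReal (η' * uu (T - c)) := by
      refine (gf_le_mul fun t ht => ht).trans ?_
      rw [gf_Brd, BT_eq]
      exact mul_le_mul' le_rfl (he2 (T - c) (by omega)).1
    refine (add_le_add h4 h5).trans ?_
    rw [← ENNReal.ofReal_mul (by positivity), ← ENNReal.ofReal_mul (by positivity),
      ← ENNReal.ofReal_add (by positivity) (by positivity)]
    apply ENNReal.ofReal_le_ofReal
    calc η' * uu c * uu (T - c) + uu c * (η' * uu (T - c)) = 2 * η' * uu c * uu (T - c) := by ring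
      _ ≤ 2 * η' * uu c * (2 * (6 + CW) * uu T) := mul_le_mul_of_nonneg_left hTc (by positivity)
  have h3 : ∑ c ∈ Finset.Icc s b, gf {t | t ∈ {t | t ∈ S ∧ n ≤ (cutsIn t s b).card} ∧ Cut t c} ≤
      ENNReal.ofReal (2 * η' * UU b * (2 * (6 + CW) * uu T)) := by
    refine (Finset.sum_le_sum h2).trans ?_
    rw [← ENNReal.ofReal_sum_of_nonneg (fun c _ => by have := uu_pos c; positivity)]
    apply ENNReal.ofReal_le_ofReal
    rw [← Finset.sum_mul, ← Finset.mul_sum]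
    apply mul_le_mul_of_nonneg_right _ (by positivity)
    apply mul_le_mul_of_nonneg_left _ (by positivity)
    unfold UU
    apply Finset.sum_le_sum_of_subset_of_nonneg
    · intro c hc
      rw [Finset.mem_Icc] at hc
      rw [Finset.mem_range]
      omega
    · intro c _ _
      exact (uu_pos c).le
  have h4 := h1.trans h3
  have h5 : ENNReal.ofReal (2 * η' * UU b * (2 * (6 + CW) * uu T)) =
      (n : ℝ≥0∞) * ENNReal.ofReal (2 * η' * (2 * (6 + CW)) * (UU b / n) * uu T) := by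
    rw [← ENNReal.ofReal_natCast n, ← ENNReal.ofReal_mul (Nat.cast_nonneg n)]
    congr 1
    field_simp
  rw [h5] at h4
  have h6 : (n : ℝ≥0∞) ≠ 0 := by
    rw [Ne, Nat.cast_eq_zero]
    omega
  have h7 := (ENNReal.mul_le_mul_iff_right h6 (ENNReal.natCast_ne_top n)).1 h4
  have hUb : 0 < UU b := Num2Aux.UU_pos _
  have hk : 0 < (W : ℝ) ^ (-(1 / (6 + CW))) := Real.rpow_pos_of_pos (by exact_mod_cast hW1) _
  refine (h0.trans (add_le_add le_rfl h7)).trans ?_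
  rw [← ENNReal.ofReal_add (by positivity) (by positivity), ← add_mul]
  apply ENNReal.ofReal_le_ofReal
  apply mul_le_mul_of_nonneg_right _ huT.le
  have e1 : A * (n / UU s) ≤ η / 4 + η / 4 := by
    have h3 : (n : ℝ) / UU s ≤ δ' + 1 / UU s := by
      rw [div_le_iff₀ hUs, add_mul, one_div, inv_mul_cancel₀ hUs.ne']
      exact hn3.le
    have h4 : A * (1 / UU s) ≤ η / 4 := by
      rw [mul_one_div, div_le_iff₀ hUs]
      rw [div_le_iff₀ hη] at hUU
      nlinarith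
    have h5 : A * δ' = η / 4 := by
      rw [hδ']
      field_simp
    calc A * (n / UU s) ≤ A * (δ' + 1 / UU s) := mul_le_mul_of_nonneg_left h3 hA0.le
      _ = A * δ' + A * (1 / UU s) := by ring
      _ ≤ η / 4 + η / 4 := by rw [h5]; linarith
  have e2 : 2 * η' * (2 * (6 + CW)) * (UU b / n) ≤ η / 4 := by
    have h3 := UU_mul_le s (W + 2) (by omega)
    push_cast at h3
    have h4 : UU b / n ≤ (W + 2) / δ' := by
      rw [div_le_div_iff₀ hnp hδ0]
      calc UU b * δ' ≤ ((W + 2) * UU s) * δ' := mul_le_mul_of_nonneg_right h3 hδ0.le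
        _ = (W + 2) * (δ' * UU s) := by ring
        _ ≤ (W + 2) * n := by gcongr
    calc 2 * η' * (2 * (6 + CW)) * (UU b / n) ≤ 2 * η' * (2 * (6 + CW)) * ((W + 2) / δ') :=
          mul_le_mul_of_nonneg_left h4 (by positivity)
      _ = η' * (2 * (2 * (6 + CW)) * ((W + 2) / δ')) := by ring
      _ = η / 4 := by
        rw [hη', div_mul_cancel₀]
        positivity
  linarith

end Ex

end HexObs
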