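import Pool.Agent.HexLim.Limit

set_option autoImplicit false

open TopologicalSpace MeasureTheory Filter Topology ENNReal

namespace Pool.Agent.HexLim.HandIn

/-- Nearest neighbours of the honeycomb lattice in brick wall coordinates: the sites are `ℤ × ℤ`,
`(x, y)` is joined to `(x + 1, y)`, and to `(x, y + 1)` if `x + y` is even. -/
def Edge (p q : ℤ × ℤ) : Prop :=
  q = (p.1 + 1, p.2) ∨ p = (q.1 + 1, q.2) ∨
    (q = (p.1, p.2 + 1) ∧ Even (p.1 + p.2)) ∨ (p = (q.1, q.2 + 1) ∧ Even (q.1 + q.2))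

/-- `L` lists the sites of a bridge of `T` rows: a self-avoiding walk in the rows `1, ..., T` that
starts at `(0, 1)` and ends at a site `(b, T)` of the row `T` that is joined to `(b, T + 1)`. -/
def Bridge (T : ℕ) (L : List (ℤ × ℤ)) : Prop :=
  ∃ b : ℤ, L.IsChain Edge ∧ L.Nodup ∧ (∀ p ∈ L, 1 ≤ p.2 ∧ p.2 ≤ T) ∧ L.head? = some (0, 1) ∧
    L.getLast? = some (b, (T : ℤ)) ∧ Even (b + T)

/-- The critical weight `μ ^ (-n)` of a walk with `n` sites, `μ = √(2 + √2)`. -/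
noncomputable def wt (L : List (ℤ × ℤ)) : ℝ≥0∞ :=
  ENNReal.ofReal ((Real.sqrt (2 + Real.sqrt 2))⁻¹ ^ L.length)

/-- The total weight of the bridges of `T` rows. -/
noncomputable def B (T : ℕ) : ℝ≥0∞ := ∑' L : {L : List (ℤ × ℤ) // Bridge T L}, wt L

/-- The nonempty compact subsets of the plane, with the Hausdorff distance (Mathlib). -/
abbrev NC := NonemptyCompacts (ℝ × ℝ)

noncomputable instance instMeas : MeasurableSpace NC := borel NC

/-- The rescaled sites of a bridge of `T` rows, a finite subset of the plane. -/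
def trace (T : ℕ) (L : {L : List (ℤ × ℤ) // Bridge T L}) : NC :=
  ⟨⟨{p | ∃ s ∈ L.1, p = ((s.1 : ℝ) / T, (s.2 : ℝ) / T)}, (HexObs.CC.sites_finite T L.1).isCompact⟩, by
    obtain ⟨b, hb⟩ := L.2
    exact ⟨_, (0, 1), List.mem_of_head? hb.2.2.2.1, rfl⟩⟩

/-- The law of the rescaled sites of the critical bridge of `T` rows. -/
noncomputable def law (T : ℕ) : Measure NC :=
  Measure.sum fun L : {L : List (ℤ × ℤ) // Bridge T L} => (wt L.1 / B T) • Measure.dirac (trace T L)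

/-- The laws of the bridges of `φ k` rows converge weakly to `ν`. -/
def LawTo (φ : ℕ → ℕ) (ν : Measure NC) : Prop :=
  ∀ f : BoundedContinuousFunction NC ℝ,
    Tendsto (fun k => ∫ K, f K ∂(law (φ k))) atTop (𝓝 (∫ K, f K ∂ν))

/-- The graph `{(g y, y) | 0 ≤ y ≤ 1}`. -/
def graph (g : C(unitInterval, ℝ)) : NC :=
  ⟨⟨Set.range fun y : unitInterval => (g y, (y : ℝ)), isCompact_range (by fun_prop)⟩, Set.range_nonempty _⟩

/-- `K` has exactly one point at the height `l`. -/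
def Single (K : NC) (l : ℝ) : Prop := ∃! p, p ∈ K ∧ p.2 = l

open HexObs.Haus in
lemma B_eq {T : ℕ} (hT : 1 ≤ T) : B T = HexObs.CC.B T := by
  have h := HexObs.CC.transfer hT (fun _ => True)
  have h2 : {t | t ∈ HexObs.Brd T ∧ True} = HexObs.Brd T := by
    ext t
    exact ⟨fun h => h.1, fun h => ⟨h, trivial⟩⟩
  rw [h2, HexObs.gf_Brd, HexObs.Ex.BT_eq, ← HexObs.CC.B_uu hT] at h
  rw [← h]
  let e : {L : List (ℤ × ℤ) // Bridge T L} ≃ {L : List (ℤ × ℤ) // (∃ b, HexObs.CC.Crossing T 0 b L) ∧ True} :=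
    { toFun := fun L => ⟨L.1, L.2, trivial⟩
      invFun := fun L => ⟨L.1, L.2.1⟩
      left_inv := fun _ => rfl
      right_inv := fun _ => rfl }
  exact e.tsum_eq (fun L : {L : List (ℤ × ℤ) // (∃ b, HexObs.CC.Crossing T 0 b L) ∧ True} => HexObs.CC.wt L.1)

lemma law_eq {T : ℕ} (hT : 1 ≤ T) : law T = HexObs.CC.law T := by
  unfold law HexObs.CC.law
  rw [B_eq hT]
  rfl

lemma tendsto_of {φ : ℕ → ℕ} {ν : Measure NC} [hν : IsProbabilityMeasure ν] (hφ : Tendsto φ atTop atTop)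
    (h : LawTo φ ν) : Tendsto (fun k => HexObs.CC.lawP (φ k)) atTop (𝓝 (⟨ν, hν⟩ : ProbabilityMeasure NC)) := by
  rw [ProbabilityMeasure.tendsto_iff_forall_integral_tendsto]
  intro f
  refine (h f).congr' ?_
  filter_upwards [hφ.eventually_ge_atTop 1] with k hk
  rw [HexObs.CC.lawP_coe, max_eq_right hk, law_eq hk]

lemma lawTo_of {φ : ℕ → ℕ} {ν : ProbabilityMeasure NC} (hφ : Tendsto φ atTop atTop)
    (h : Tendsto (fun k => HexObs.CC.lawP (φ k)) atTop (𝓝 ν)) : LawTo φ (ν : Measure NC) := by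
  rw [ProbabilityMeasure.tendsto_iff_forall_integral_tendsto] at h
  intro f
  refine (h f).congr' ?_
  filter_upwards [hφ.eventually_ge_atTop 1] with k hk
  rw [HexObs.CC.lawP_coe, max_eq_right hk, law_eq hk]

lemma single_of {K : NC} (hK : IsConnected (K : Set (ℝ × ℝ))) (h0 : (0, 0) ∈ K) (h1 : ∃ p ∈ K, p.2 = 1) {l : ℝ}
    (hl : l ∈ Set.Icc (0 : ℝ) 1) (h : ∀ p ∈ K, ∀ p' ∈ K, p.2 = l → p'.2 = l → p = p') : Single K l := by
  have h2 : IsPreconnected (Prod.snd '' (K : Set (ℝ × ℝ))) := (hK.image _ continuous_snd.continuousOn).isPreconnected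
  obtain ⟨p1, hp1, e1⟩ := h1
  have h3 : Set.Icc (0 : ℝ) 1 ⊆ Prod.snd '' (K : Set (ℝ × ℝ)) := h2.Icc_subset ⟨(0, 0), h0, rfl⟩ ⟨p1, hp1, e1⟩
  obtain ⟨p, hp, ep⟩ := h3 hl
  exact ⟨p, ⟨hp, ep⟩, fun p' hp' => h p' hp'.1 p hp hp'.2 ep⟩

/-- the extension of a continuous function on the unit interval -/
noncomputable def ext (g : C(unitInterval, ℝ)) : ℝ → ℝ := fun x => g (Set.projIcc 0 1 zero_le_one x)

lemma ext_cont (g : C(unitInterval, ℝ)) : Continuous (ext g) := g.continuous.comp continuous_projIcc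

lemma ext_apply (g : C(unitInterval, ℝ)) {x : ℝ} (hx : x ∈ Set.Icc (0 : ℝ) 1) : ext g x = g ⟨x, hx⟩ := by
  unfold ext
  rw [Set.projIcc_of_mem _ hx]

lemma graph_eq (g : C(unitInterval, ℝ)) : graph g = HexObs.Haus.graph (ext g) (ext_cont g).continuousOn := by
  apply NonemptyCompacts.ext
  show (Set.range fun y : unitInterval => (g y, (y : ℝ))) = (fun y => (ext g y, y)) '' Set.Icc 0 1
  ext p
  constructor
  · rintro ⟨y, rfl⟩
    refine ⟨y, y.2, ?_⟩
    show (ext g y, (y : ℝ)) = (g y, (y : ℝ))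
    rw [ext_apply g y.2]
  · rintro ⟨y, hy, rfl⟩
    refine ⟨⟨y, hy⟩, ?_⟩
    show (g ⟨y, hy⟩, y) = (ext g y, y)
    rw [ext_apply g hy]

/-- Subsequential scaling limits of the critical bridges of the honeycomb lattice exist, and every one of them is a random
continuum that touches the two boundary lines of the strip at one point only, is cut by horizontal lines arbitrarily near its
two ends, has an end with a Hoelder continuous distribution function and full support in the space of graphs. -/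
theorem result :
    (∀ T : ℕ, 1 ≤ T → IsProbabilityMeasure (law T)) ∧
    (∀ φ : ℕ → ℕ, StrictMono φ → ∃ ψ : ℕ → ℕ, StrictMono ψ ∧ ∃ ν : Measure NC, IsProbabilityMeasure ν ∧
      LawTo (fun k => φ (ψ k)) ν) ∧
    ∃ C κ q : ℝ, 0 < C ∧ 0 < κ ∧ 0 < q ∧ q < 1 ∧ ∃ A : NNReal → ℝ, (∀ L, 0 < A L) ∧
      ∀ (φ : ℕ → ℕ) (ν : Measure NC), Tendsto φ atTop atTop → IsProbabilityMeasure ν → LawTo φ ν →
        (∀ᵐ K : NC ∂ν, IsConnected (K : Set (ℝ × ℝ)) ∧ (∀ p ∈ K, 0 ≤ p.2 ∧ p.2 ≤ 1) ∧ (∀ p ∈ K, p.2 = 0 ↔ p = (0, 0)) ∧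
          Single K 0 ∧ Single K 1 ∧ (∀ r, 0 < r → ∃ l, 0 < l ∧ l < r ∧ Single K l) ∧
          ∀ r, 0 < r → ∃ l, 1 - r < l ∧ l < 1 ∧ Single K l) ∧
        (∀ a h : ℝ, 0 < h → ν {K | ∃ x ∈ Set.Icc a (a + h), (x, 1) ∈ K} ≤ ENNReal.ofReal (C * h ^ κ)) ∧
        (∀ M : ℕ, ν {K | ∃ p ∈ K, (M : ℝ) < |p.1|} ≤ ENNReal.ofReal (C * q ^ M)) ∧
        (∀ (g : C(unitInterval, ℝ)) (L : NNReal) (ε : ℝ), g 0 = 0 → LipschitzWith L g → 0 < ε → ε ≤ 1 →
          ENNReal.ofReal (Real.exp (-(A L / ε))) ≤ ν {K | dist K (graph g) ≤ ε}) ∧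
        (∀ (g : C(unitInterval, ℝ)) (ε : ℝ), g 0 = 0 → 0 < ε → 0 < ν {K | dist K (graph g) < ε}) := by
  refine ⟨?_, ?_, ?_⟩
  · intro T hT
    rw [law_eq hT]
    exact HexObs.CC.law_prob hT
  · intro φ hφ
    obtain ⟨ψ, hψ, ν, h⟩ := HexObs.CC.law_subseq φ
    exact ⟨ψ, hψ, ν, inferInstance, lawTo_of ((hφ.comp hψ).tendsto_atTop) h⟩
  · obtain ⟨C1, κ, hC1, hκ, hint⟩ := HexObs.CC.lim_int
    obtain ⟨C2, q, hC2, hq, hq1, htail⟩ := HexObs.CC.lim_tails
    choose A hA hAt using fun L : ℕ => HexObs.CC.fin_tube L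
    refine ⟨max C1 C2, κ, q, lt_max_of_lt_left hC1, hκ, hq, hq1, fun L => A ⌈(L : ℝ)⌉₊, fun L => hA _, ?_⟩
    intro φ ν hφ hν hlaw
    have hlim := tendsto_of hφ hlaw
    refine ⟨?_, ?_, ?_, ?_, ?_⟩
    · have e1 := HexObs.CC.lim_conn hφ hlim
      have e2 := HexObs.CC.lim_strip hφ hlim
      have e3 := HexObs.CC.lim_start hφ hlim
      have e4 := HexObs.CC.lim_end hφ hlim
      have e5 := HexObs.CC.lim_bot hφ hlim
      have e6 := HexObs.CC.lim_top hφ hlim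
      have e7 := HexObs.CC.lim_narrow hφ hlim
      have e8 := HexObs.CC.lim_narrow' hφ hlim
      filter_upwards [e1, e2, e3, e4, e5, e6, e7, e8] with K h1 h2 h3 h4 h5 h6 h7 h8
      refine ⟨h1, h2, ?_, ?_, ?_, ?_, ?_⟩
      · intro p hp
        constructor
        · intro h
          exact Prod.ext (h5 p hp h) h
        · intro h
          rw [h]
      · refine ⟨(0, 0), ⟨h3, rfl⟩, ?_⟩
        rintro p ⟨hp, hp'⟩
        exact Prod.ext (h5 p hp hp') hp'
      · obtain ⟨p, hp, hp'⟩ := h4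
        exact ⟨p, ⟨hp, hp'⟩, fun p' hp'' => h6 p' hp''.1 p hp hp''.2 hp'⟩
      · intro r hr
        obtain ⟨l, l1, l2, l3⟩ := h7 (min r 1) (lt_min hr one_pos)
        refine ⟨l, l1, lt_of_lt_of_le l2 (min_le_left _ _), single_of h1 h3 h4 ⟨l1.le, ?_⟩ l3⟩
        exact (lt_of_lt_of_le l2 (min_le_right _ _)).le
      · intro r hr
        obtain ⟨l, l1, l2, l3⟩ := h8 (min r 1) (lt_min hr one_pos)
        have l4 : 1 - r ≤ 1 - min r 1 := by
          have := min_le_left r 1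
          linarith
        have l5 : 0 ≤ 1 - min r 1 := by
          have := min_le_right r 1
          linarith
        exact ⟨l, lt_of_le_of_lt l4 l1, l2, single_of h1 h3 h4 ⟨l5.trans l1.le, l2.le⟩ l3⟩
    · intro a h hh
      refine (hint hφ hlim a h hh).trans (ENNReal.ofReal_le_ofReal ?_)
      exact mul_le_mul_of_nonneg_right (le_max_left _ _) (Real.rpow_nonneg hh.le _)
    · intro M
      refine (htail hφ hlim M).trans (ENNReal.ofReal_le_ofReal ?_)
      exact mul_le_mul_of_nonneg_right (le_max_right _ _) (by positivity)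
    · intro g L ε hg0 hgL hε hε1
      rw [graph_eq]
      have hg1 : ∀ a ∈ Set.Icc (0 : ℝ) 1, ∀ b ∈ Set.Icc (0 : ℝ) 1, |ext g a - ext g b| ≤ (⌈(L : ℝ)⌉₊ : ℕ) * |a - b| := by
        intro a ha b hb
        rw [ext_apply g ha, ext_apply g hb]
        have h1 := hgL.dist_le_mul ⟨a, ha⟩ ⟨b, hb⟩
        rw [Real.dist_eq] at h1
        have h2 : dist (⟨a, ha⟩ : unitInterval) ⟨b, hb⟩ = |a - b| := by
          rw [Subtype.dist_eq, Real.dist_eq]
        rw [h2] at h1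
        exact h1.trans (mul_le_mul_of_nonneg_right (Nat.le_ceil _) (abs_nonneg _))
      have hg2 : ext g 0 = 0 := by
        rw [ext_apply g ⟨le_rfl, zero_le_one⟩]
        exact hg0
      obtain ⟨T0, hT0⟩ := hAt ⌈(L : ℝ)⌉₊ (ext g) hg1 hg2 ε hε hε1
      exact HexObs.CC.lim_tube hφ hlim (ext_cont g).continuousOn hε hT0
    · intro g ε hg0 hε
      rw [graph_eq]
      have hg2 : ext g 0 = 0 := by
        rw [ext_apply g ⟨le_rfl, zero_le_one⟩]
        exact hg0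
      obtain ⟨c, hc, T0, hT0⟩ := HexObs.CC.fin_tube' (ext_cont g).continuousOn hg2 (half_pos hε)
      have h1 := HexObs.CC.lim_tube hφ hlim (ext_cont g).continuousOn (half_pos hε) hT0
      refine lt_of_lt_of_le (ENNReal.ofReal_pos.2 hc) (h1.trans (measure_mono ?_))
      intro K hK
      exact lt_of_le_of_lt hK (half_lt_self hε)

end Pool.Agent.HexLim.HandIn
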