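import Mathlib

/-!
The space of the nonempty compact subsets of the plane with the Hausdorff distance: open and closed conditions,
compact sets, connectedness of limits.
-/

set_option autoImplicit false

open TopologicalSpace MeasureTheory Filter Topology

namespace HexObs

namespace Haus

/-- the plane -/
abbrev PL := ℝ × ℝ

/-- the nonempty compact subsets of the plane -/
abbrev NC := NonemptyCompacts PL

lemma isOpen_meet {U : Set PL} (hU : IsOpen U) : IsOpen {K : NC | ∃ p ∈ K, p ∈ U} :=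
  NonemptyCompacts.isOpen_inter_nonempty_of_isOpen hU

lemma isOpen_sub {U : Set PL} (hU : IsOpen U) : IsOpen {K : NC | ∀ p ∈ K, p ∈ U} :=
  NonemptyCompacts.isOpen_subsets_of_isOpen hU

lemma isClosed_sub {F : Set PL} (hF : IsClosed F) : IsClosed {K : NC | ∀ p ∈ K, p ∈ F} :=
  NonemptyCompacts.isClosed_subsets_of_isClosed hF

/-- open conditions on two points of the set and a parameter. -/
lemma isOpen_pair {Z : Type*} [TopologicalSpace Z] {V : Set (PL × PL × Z)} (hV : IsOpen V) :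
    IsOpen {x : NC × Z | ∃ p ∈ x.1, ∃ p' ∈ x.1, (p, p', x.2) ∈ V} := by
  rw [isOpen_iff_mem_nhds]
  rintro ⟨K, z⟩ ⟨p, hp, p', hp', hV'⟩
  obtain ⟨A, B, hA, hB, hpA, hB', hAB⟩ := isOpen_prod_iff.1 hV p (p', z) hV'
  obtain ⟨A', C, hA', hC, hpA', hzC, hAC⟩ := isOpen_prod_iff.1 hB p' z hB'
  have h1 : IsOpen ({K : NC | ∃ p ∈ K, p ∈ A} ∩ {K : NC | ∃ p ∈ K, p ∈ A'}) :=
    (isOpen_meet hA).inter (isOpen_meet hA')
  have h2 : IsOpen (({K : NC | ∃ p ∈ K, p ∈ A} ∩ {K : NC | ∃ p ∈ K, p ∈ A'}) ×ˢ C) := h1.prod hC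
  refine Filter.mem_of_superset (h2.mem_nhds ⟨⟨⟨p, hp, hpA⟩, ⟨p', hp', hpA'⟩⟩, hzC⟩) ?_
  rintro ⟨K', z'⟩ ⟨⟨⟨x, hx, hxA⟩, ⟨x', hx', hxA'⟩⟩, hz'⟩
  exact ⟨x, hx, x', hx', hAB ⟨hxA, hAC ⟨hxA', hz'⟩⟩⟩

lemma isOpen_pair' {V : Set (PL × PL)} (hV : IsOpen V) : IsOpen {K : NC | ∃ p ∈ K, ∃ p' ∈ K, (p, p') ∈ V} := by
  have h1 : IsOpen {x : PL × PL × Unit | (x.1, x.2.1) ∈ V} := hV.preimage (by fun_prop)
  have h2 := isOpen_pair h1
  exact h2.preimage (f := fun K : NC => (K, ())) (by fun_prop)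

/-- the subsets of a compact set form a compact set. -/
lemma isCompact_sub {F : Set PL} (hF : IsCompact F) : IsCompact {K : NC | ∀ p ∈ K, p ∈ F} :=
  isCompact_iff_totallyBounded_isComplete.2
    ⟨NonemptyCompacts.totallyBounded_subsets_of_totallyBounded hF.totallyBounded, (isClosed_sub hF.isClosed).isComplete⟩

/-- sets that split into two parts at distance at least r. -/
def Split (r : ℝ) : Set NC :=
  {K | ∃ U V : Set PL, IsOpen U ∧ IsOpen V ∧ (∀ u ∈ U, ∀ v ∈ V, r ≤ dist u v) ∧ (∀ p ∈ K, p ∈ U ∪ V) ∧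
    (∃ p ∈ K, p ∈ U) ∧ ∃ p ∈ K, p ∈ V}

lemma isOpen_split (r : ℝ) : IsOpen (Split r) := by
  have h : Split r = ⋃ (UV : {UV : Set PL × Set PL // IsOpen UV.1 ∧ IsOpen UV.2 ∧ ∀ u ∈ UV.1, ∀ v ∈ UV.2, r ≤ dist u v}),
      {K : NC | ∀ p ∈ K, p ∈ UV.1.1 ∪ UV.1.2} ∩ ({K : NC | ∃ p ∈ K, p ∈ UV.1.1} ∩ {K : NC | ∃ p ∈ K, p ∈ UV.1.2}) := by
    ext K
    rw [Set.mem_iUnion]
    constructor
    · rintro ⟨U, V, h1, h2, h3, h4, h5, h6⟩
      exact ⟨⟨(U, V), h1, h2, h3⟩, h4, h5, h6⟩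
    · rintro ⟨⟨⟨U, V⟩, h1, h2, h3⟩, h4, h5, h6⟩
      exact ⟨U, V, h1, h2, h3, h4, h5, h6⟩
  rw [h]
  apply isOpen_iUnion
  rintro ⟨⟨U, V⟩, h1, h2, h3⟩
  exact (isOpen_sub (h1.union h2)).inter ((isOpen_meet h1).inter (isOpen_meet h2))

lemma split_mono {r r' : ℝ} (h : r ≤ r') : Split r' ⊆ Split r := by
  rintro K ⟨U, V, h1, h2, h3, h4⟩
  exact ⟨U, V, h1, h2, fun u hu v hv => h.trans (h3 u hu v hv), h4⟩

/-- a compact set that is not connected splits. -/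
lemma split_of {K : NC} (hK : ¬ IsConnected (K : Set PL)) : ∃ n : ℕ, K ∈ Split (1 / ((n : ℝ) + 1)) := by
  have h1 : ¬ IsPreconnected (K : Set PL) := fun h => hK ⟨K.nonempty, h⟩
  rw [isPreconnected_closed_iff] at h1
  push Not at h1
  obtain ⟨t, t', ht, ht', hsub, ⟨a, ha⟩, ⟨b, hb⟩, hne⟩ := h1
  have hKc := K.isCompact
  have hA : IsCompact ((K : Set PL) ∩ t) := hKc.inter_right ht
  have hB : IsCompact ((K : Set PL) ∩ t') := hKc.inter_right ht'
  have hd : Disjoint ((K : Set PL) ∩ t) ((K : Set PL) ∩ t') := by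
    rw [Set.disjoint_left]
    rintro x ⟨hx1, hx2⟩ ⟨_, hx3⟩
    have : x ∈ (K : Set PL) ∩ (t ∩ t') := ⟨hx1, hx2, hx3⟩
    rw [hne] at this
    exact this
  obtain ⟨δ, hδ, hdis⟩ := hd.exists_thickenings hA hB.isClosed
  obtain ⟨n, hn⟩ := exists_nat_one_div_lt (show 0 < δ / 3 by positivity)
  refine ⟨n, split_mono hn.le ⟨Metric.thickening (δ / 3) ((K : Set PL) ∩ t), Metric.thickening (δ / 3) ((K : Set PL) ∩ t'),
    Metric.isOpen_thickening, Metric.isOpen_thickening, ?_, ?_, ?_, ?_⟩⟩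
  · intro u hu v hv
    by_contra hcon
    push Not at hcon
    rw [Metric.mem_thickening_iff] at hu hv
    obtain ⟨x, hx, hx'⟩ := hu
    obtain ⟨y, hy, hy'⟩ := hv
    have h2 : u ∈ Metric.thickening δ ((K : Set PL) ∩ t) := by
      rw [Metric.mem_thickening_iff]
      exact ⟨x, hx, by linarith⟩
    have h3 : u ∈ Metric.thickening δ ((K : Set PL) ∩ t') := by
      rw [Metric.mem_thickening_iff]
      refine ⟨y, hy, ?_⟩
      have := dist_triangle u v y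
      linarith
    exact Set.disjoint_left.1 hdis h2 h3
  · intro p hp
    rcases hsub hp with h | h
    · exact Or.inl (Metric.self_subset_thickening (by positivity) _ ⟨hp, h⟩)
    · exact Or.inr (Metric.self_subset_thickening (by positivity) _ ⟨hp, h⟩)
  · exact ⟨a, ha.1, Metric.self_subset_thickening (by positivity) _ ha⟩
  · exact ⟨b, hb.1, Metric.self_subset_thickening (by positivity) _ hb⟩

/-- the levels at which the set is narrow. -/
def NarrowAt (e d : ℕ → ℝ) (j : ℕ) (K : NC) (l : ℝ) : Prop :=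
  ∀ k ≤ j, ∀ p ∈ K, ∀ p' ∈ K, |p.2 - l| < e k → |p'.2 - l| < e k → |p.1 - p'.1| ≤ d k

lemma isClosed_narrow2 (e d : ℕ → ℝ) (j : ℕ) : IsClosed {x : NC × ℝ | NarrowAt e d j x.1 x.2} := by
  have h : {x : NC × ℝ | NarrowAt e d j x.1 x.2} =
      ⋂ k ∈ Set.Iic j, {x : NC × ℝ | ∃ p ∈ x.1, ∃ p' ∈ x.1, (p, p', x.2) ∈
        {y : PL × PL × ℝ | |y.1.2 - y.2.2| < e k ∧ |y.2.1.2 - y.2.2| < e k ∧ d k < |y.1.1 - y.2.1.1|}}ᶜ := by
    ext x
    simp only [Set.mem_iInter, Set.mem_compl_iff, Set.mem_ofPred_eq, Set.mem_Iic]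
    constructor
    · rintro h1 k hk ⟨p, hp, p', hp', h2, h3, h4⟩
      have := h1 k hk p hp p' hp' h2 h3
      linarith
    · intro h1 k hk p hp p' hp' h2 h3
      by_contra hcon
      push Not at hcon
      exact h1 k hk ⟨p, hp, p', hp', h2, h3, hcon⟩
  rw [h]
  refine isClosed_biInter fun k _ => ?_
  rw [isClosed_compl_iff]
  apply isOpen_pair
  have h1 : IsOpen {y : PL × PL × ℝ | |y.1.2 - y.2.2| < e k} := isOpen_lt (by fun_prop) (by fun_prop)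
  have h2 : IsOpen {y : PL × PL × ℝ | |y.2.1.2 - y.2.2| < e k} := isOpen_lt (by fun_prop) (by fun_prop)
  have h3 : IsOpen {y : PL × PL × ℝ | d k < |y.1.1 - y.2.1.1|} := isOpen_lt (by fun_prop) (by fun_prop)
  exact h1.inter (h2.inter h3)

lemma isClosed_narrow (e d : ℕ → ℝ) (j : ℕ) (a b : ℝ) :
    IsClosed {K : NC | ∃ l ∈ Set.Icc a b, NarrowAt e d j K l} := by
  have h1 : IsClosed ({x : NC × Set.Icc a b | NarrowAt e d j x.1 (x.2 : ℝ)}) :=
    (isClosed_narrow2 e d j).preimage (f := fun x : NC × Set.Icc a b => (x.1, (x.2 : ℝ))) (by fun_prop)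
  have h2 := isClosedMap_fst_of_compactSpace (X := NC) (Y := Set.Icc a b) _ h1
  convert h2 using 1
  ext K
  constructor
  · rintro ⟨l, hl, h⟩
    exact ⟨(K, ⟨l, hl⟩), h, rfl⟩
  · rintro ⟨⟨K', ⟨l, hl⟩⟩, h, rfl⟩
    exact ⟨l, hl, h⟩

/-- a level narrow at all the scales. -/
lemma narrow_all {e d : ℕ → ℝ} (he : ∀ k, 0 < e k) (hd : Tendsto d atTop (𝓝 0)) {a b : ℝ} {K : NC}
    (h : ∀ j, ∃ l ∈ Set.Icc a b, NarrowAt e d j K l) :
    ∃ l ∈ Set.Icc a b, ∀ p ∈ K, ∀ p' ∈ K, p.2 = l → p'.2 = l → p = p' := by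
  have hcl : ∀ j, IsClosed {l : ℝ | NarrowAt e d j K l} := fun j =>
    (isClosed_narrow2 e d j).preimage (f := fun l : ℝ => (K, l)) (by fun_prop)
  have h1 : (⋂ j, (Set.Icc a b ∩ {l : ℝ | NarrowAt e d j K l})).Nonempty := by
    apply IsCompact.nonempty_iInter_of_sequence_nonempty_isCompact_isClosed
    · intro j
      apply Set.inter_subset_inter_right
      intro l hl k hk
      exact hl k (by omega)
    · intro j
      obtain ⟨l, hl, h2⟩ := h j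
      exact ⟨l, hl, h2⟩
    · exact isCompact_Icc.inter_right (hcl 0)
    · intro j
      exact isClosed_Icc.inter (hcl j)
  obtain ⟨l, hl⟩ := h1
  rw [Set.mem_iInter] at hl
  refine ⟨l, (hl 0).1, ?_⟩
  intro p hp p' hp' h2 h3
  have h4 : ∀ k, |p.1 - p'.1| ≤ d k := by
    intro k
    refine (hl k).2 k le_rfl p hp p' hp' ?_ ?_
    · rw [h2, sub_self, abs_zero]
      exact he k
    · rw [h3, sub_self, abs_zero]
      exact he k
  have h5 : |p.1 - p'.1| ≤ 0 := ge_of_tendsto' hd h4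
  have h6 : p.1 = p'.1 := by
    have := abs_nonpos_iff.1 h5
    linarith
  exact Prod.ext h6 (h2.trans h3.symm)

/-- graphs -/
noncomputable def graph (g : ℝ → ℝ) (hg : ContinuousOn g (Set.Icc 0 1)) : NC :=
  ⟨⟨(fun y => (g y, y)) '' Set.Icc 0 1, isCompact_Icc.image_of_continuousOn (hg.prodMk continuousOn_id)⟩,
    ⟨_, ⟨0, ⟨le_rfl, zero_le_one⟩, rfl⟩⟩⟩

/-- a connected set in the tube that joins the levels 0 and 1 is close to the graph. -/
lemma dist_graph {g : ℝ → ℝ} (hg : ContinuousOn g (Set.Icc 0 1)) {K : NC} (hK : IsConnected (K : Set PL)) {ε : ℝ}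
    (hε : 0 ≤ ε) (h0 : ∃ p ∈ K, p.2 = 0) (h1 : ∃ p ∈ K, p.2 = 1)
    (h : ∀ p ∈ K, p.2 ∈ Set.Icc (0 : ℝ) 1 ∧ |p.1 - g p.2| ≤ ε) : dist K (graph g hg) ≤ ε := by
  rw [Metric.NonemptyCompacts.dist_eq]
  apply Metric.hausdorffDist_le_of_mem_dist hε
  · intro p hp
    obtain ⟨h2, h3⟩ := h p hp
    refine ⟨(g p.2, p.2), ⟨p.2, h2, rfl⟩, ?_⟩
    rw [Prod.dist_eq]
    simp only [dist_self]
    rw [Real.dist_eq]
    exact max_le h3 hε
  · rintro _ ⟨y, hy, rfl⟩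
    have h2 : IsPreconnected (Prod.snd '' (K : Set PL)) := (hK.image _ continuous_snd.continuousOn).isPreconnected
    obtain ⟨p0, hp0, e0⟩ := h0
    obtain ⟨p1, hp1, e1⟩ := h1
    have h3 : Set.Icc (0 : ℝ) 1 ⊆ Prod.snd '' (K : Set PL) :=
      h2.Icc_subset ⟨p0, hp0, e0⟩ ⟨p1, hp1, e1⟩
    obtain ⟨p, hp, ep⟩ := h3 hy
    refine ⟨p, hp, ?_⟩
    obtain ⟨h4, h5⟩ := h p hp
    rw [ep] at h5
    rw [Prod.dist_eq]
    simp only
    rw [ep, dist_self, dist_comm, Real.dist_eq]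
    exact max_le h5 hε

end Haus

end HexObs
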