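import Pool.Agent.HexLim.Cont
import Pool.Agent.HexLim.GoodCut
import Pool.Agent.HexLim.Haus

/-!
The law of the rescaled trace of a critical bridge.
-/

set_option autoImplicit false

open ENNReal MeasureTheory TopologicalSpace

namespace HexObs

namespace CC

open Ex Haus

noncomputable instance instMNC : MeasurableSpace NC := borel NC

instance instBNC : BorelSpace NC := ⟨rfl⟩

/-- the rescaled sites -/
def sites (T : ℕ) (L : List (ℤ × ℤ)) : Set PL := {p | ∃ s ∈ L, p = ((s.1 : ℝ) / T, (s.2 : ℝ) / T)}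

lemma sites_finite (T : ℕ) (L : List (ℤ × ℤ)) : (sites T L).Finite := by
  have h : sites T L ⊆ (fun s : ℤ × ℤ => (((s.1 : ℝ) / T, (s.2 : ℝ) / T) : PL)) '' {s | s ∈ L} := by
    rintro p ⟨s, hs, rfl⟩
    exact ⟨s, hs, rfl⟩
  exact (L.finite_toSet.image _).subset h

lemma head_mem {T : ℕ} {b : ℤ} {L : List (ℤ × ℤ)} (h : Crossing T 0 b L) : (0, 1) ∈ L :=
  List.mem_of_head? h.2.2.2.1

lemma last_mem {T : ℕ} {b : ℤ} {L : List (ℤ × ℤ)} (h : Crossing T 0 b L) : (b, (T : ℤ)) ∈ L :=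
  List.mem_of_getLast? h.2.2.2.2.1

/-- the trace of a bridge: the compact set of its rescaled sites. -/
def trace (T : ℕ) (L : {L : List (ℤ × ℤ) // ∃ b, Crossing T 0 b L}) : NC :=
  ⟨⟨sites T L.1, (sites_finite T L.1).isCompact⟩, by
    obtain ⟨b, hb⟩ := L.2
    exact ⟨_, (0, 1), head_mem hb, rfl⟩⟩

lemma mem_trace {T : ℕ} {L : {L : List (ℤ × ℤ) // ∃ b, Crossing T 0 b L}} {p : PL} :
    p ∈ trace T L ↔ ∃ s ∈ L.1, p = ((s.1 : ℝ) / T, (s.2 : ℝ) / T) := Iff.rfl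

/-- the law of the trace. -/
noncomputable def law (T : ℕ) : Measure NC :=
  Measure.sum fun L : {L : List (ℤ × ℤ) // ∃ b, Crossing T 0 b L} => (wt L.1 / B T) • Measure.dirac (trace T L)

lemma law_apply (T : ℕ) (A : Set NC) :
    law T A = (B T)⁻¹ * ∑' L : {L : List (ℤ × ℤ) // ∃ b, Crossing T 0 b L}, A.indicator (fun _ => wt L.1) (trace T L) := by
  unfold law
  rw [Measure.sum_apply_of_countable, ← ENNReal.tsum_mul_left]
  apply tsum_congr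
  intro L
  rw [Measure.smul_apply, Measure.dirac_apply, smul_eq_mul, ENNReal.div_eq_inv_mul, mul_assoc]
  congr 1
  by_cases h : trace T L ∈ A
  · rw [Set.indicator_of_mem h, Set.indicator_of_mem h, Pi.one_apply, mul_one]
  · rw [Set.indicator_of_notMem h, Set.indicator_of_notMem h, mul_zero]

lemma sum_ind {T : ℕ} (hT : 1 ≤ T) (Q : List (ℤ × ℤ) → Prop) :
    ∑' L : {L : List (ℤ × ℤ) // ∃ b, Crossing T 0 b L}, {L : {L : List (ℤ × ℤ) // ∃ b, Crossing T 0 b L} | Q L.1}.indicator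
      (fun L => wt L.1) L = gf {t | t ∈ Brd T ∧ Q (toL oo t)} := by
  rw [← transfer hT Q, ← _root_.tsum_subtype]
  let e : {L : {L : List (ℤ × ℤ) // ∃ b, Crossing T 0 b L} | Q L.1} ≃
      {L : List (ℤ × ℤ) // (∃ b, Crossing T 0 b L) ∧ Q L} :=
    { toFun := fun L => ⟨L.1.1, L.1.2, L.2⟩
      invFun := fun L => ⟨⟨L.1, L.2.1⟩, L.2.2⟩
      left_inv := fun _ => rfl
      right_inv := fun _ => rfl }
  exact (e.tsum_eq (fun L : {L : List (ℤ × ℤ) // (∃ b, Crossing T 0 b L) ∧ Q L} => wt L.1))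

lemma law_le {T : ℕ} (hT : 1 ≤ T) {A : Set NC} {Q : List (ℤ × ℤ) → Prop} (h : ∀ L, trace T L ∈ A → Q L.1) :
    law T A ≤ (B T)⁻¹ * gf {t | t ∈ Brd T ∧ Q (toL oo t)} := by
  rw [law_apply, ← sum_ind hT]
  refine mul_le_mul' le_rfl (ENNReal.tsum_le_tsum fun L => ?_)
  by_cases h1 : trace T L ∈ A
  · rw [Set.indicator_of_mem h1]
    rw [Set.indicator_of_mem (show L ∈ {L : {L : List (ℤ × ℤ) // ∃ b, Crossing T 0 b L} | Q L.1} from h L h1)]
  · rw [Set.indicator_of_notMem h1]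
    exact zero_le

lemma law_ge {T : ℕ} (hT : 1 ≤ T) {A : Set NC} {Q : List (ℤ × ℤ) → Prop} (h : ∀ L : {L : List (ℤ × ℤ) // ∃ b, Crossing T 0 b L}, Q L.1 → trace T L ∈ A) :
    (B T)⁻¹ * gf {t | t ∈ Brd T ∧ Q (toL oo t)} ≤ law T A := by
  rw [law_apply, ← sum_ind hT]
  refine mul_le_mul' le_rfl (ENNReal.tsum_le_tsum fun L => ?_)
  by_cases h1 : Q L.1
  · rw [Set.indicator_of_mem (show L ∈ {L : {L : List (ℤ × ℤ) // ∃ b, Crossing T 0 b L} | Q L.1} from h1)]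
    rw [Set.indicator_of_mem (h L h1)]
  · rw [Set.indicator_of_notMem (show L ∉ {L : {L : List (ℤ × ℤ) // ∃ b, Crossing T 0 b L} | Q L.1} from h1)]
    exact zero_le

lemma B_ne_zero {T : ℕ} (hT : 1 ≤ T) : B T ≠ 0 := by
  rw [B_uu hT]
  exact (ENNReal.ofReal_pos.2 (uu_pos T)).ne'

lemma B_ne_top' {T : ℕ} (hT : 1 ≤ T) : B T ≠ ∞ := by
  rw [B_uu hT]
  exact ENNReal.ofReal_ne_top

lemma law_univ {T : ℕ} (hT : 1 ≤ T) : law T Set.univ = 1 := by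
  have h1 : (B T)⁻¹ * gf (Brd T) = 1 := by
    rw [gf_Brd, BT_eq, ← B_uu hT]
    exact ENNReal.inv_mul_cancel (B_ne_zero hT) (B_ne_top' hT)
  have h2 := law_le hT (A := Set.univ) (Q := fun _ => True) (fun _ _ => trivial)
  have h3 := law_ge hT (A := Set.univ) (Q := fun _ => True) (fun _ _ => trivial)
  have h4 : {t | t ∈ Brd T ∧ True} = Brd T := by
    ext t
    exact ⟨fun h => h.1, fun h => ⟨h, trivial⟩⟩
  rw [h4, h1] at h2 h3
  exact le_antisymm h2 h3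

lemma law_prob {T : ℕ} (hT : 1 ≤ T) : IsProbabilityMeasure (law T) := ⟨law_univ hT⟩

/-- upper bounds from the words. -/
lemma law_le_of {T : ℕ} (hT : 1 ≤ T) {A : Set NC} {P : Set (List Bool)} {c : ℝ} (hc : 0 ≤ c)
    (h : ∀ t ∈ Brd T, ∀ L : {L : List (ℤ × ℤ) // ∃ b, Crossing T 0 b L}, L.1 = toL oo t → trace T L ∈ A → t ∈ P)
    (hP : gf P ≤ ENNReal.ofReal (c * uu T)) : law T A ≤ ENNReal.ofReal c := by
  have h1 := law_le hT (A := A) (Q := fun L => ∃ h : ∃ b, Crossing T 0 b L, trace T ⟨L, h⟩ ∈ A)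
    (fun L hL => ⟨L.2, hL⟩)
  refine h1.trans ?_
  have h2 : gf {t | t ∈ Brd T ∧ ∃ h : ∃ b, Crossing T 0 b (toL oo t), trace T ⟨toL oo t, h⟩ ∈ A} ≤ gf P := by
    apply gf_mono
    rintro t ⟨ht, hb, hA⟩
    exact h t ht ⟨toL oo t, hb⟩ rfl hA
  refine (mul_le_mul' le_rfl (h2.trans hP)).trans ?_
  rw [ENNReal.ofReal_mul hc, ← B_uu hT, mul_comm, mul_assoc, ENNReal.mul_inv_cancel (B_ne_zero hT) (B_ne_top' hT), mul_one]

lemma law_ge_of {T : ℕ} (hT : 1 ≤ T) {A : Set NC} {P : Set (List Bool)} {c : ℝ} (hc : 0 ≤ c) (hPB : P ⊆ Brd T)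
    (h : ∀ t ∈ P, ∀ L : {L : List (ℤ × ℤ) // ∃ b, Crossing T 0 b L}, L.1 = toL oo t → trace T L ∈ A)
    (hP : ENNReal.ofReal (c * uu T) ≤ gf P) : ENNReal.ofReal c ≤ law T A := by
  have h1 := law_ge hT (A := A) (Q := fun L => ∃ h : ∃ b, Crossing T 0 b L, trace T ⟨L, h⟩ ∈ A)
    (by rintro L ⟨h, h'⟩; exact h')
  refine le_trans ?_ h1
  have h2 : gf P ≤ gf {t | t ∈ Brd T ∧ ∃ h : ∃ b, Crossing T 0 b (toL oo t), trace T ⟨toL oo t, h⟩ ∈ A} := by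
    apply gf_mono
    intro t ht
    have hb : ∃ b, Crossing T 0 b (toL oo t) := by
      obtain ⟨b, h3, -⟩ := crossing_toL hT lv_oo (brd_out.1 (hPB ht))
      exact ⟨b, h3⟩
    exact ⟨hPB ht, hb, h t ht ⟨toL oo t, hb⟩ rfl⟩
  refine le_trans ?_ (mul_le_mul' le_rfl (hP.trans h2))
  rw [ENNReal.ofReal_mul hc, ← B_uu hT, mul_comm (B T)⁻¹, mul_assoc, ENNReal.mul_inv_cancel (B_ne_zero hT) (B_ne_top' hT), mul_one]

/-- sites of the trace of a word. -/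
lemma trace_site {T : ℕ} {t : List Bool} {L : {L : List (ℤ × ℤ) // ∃ b, Crossing T 0 b L}} (hL : L.1 = toL oo t)
    {p : PL} (hp : p ∈ trace T L) : ∃ (i : ℕ) (y : ℤ), 1 ≤ i ∧ i ≤ t.length ∧ p.1 = (lat t i : ℝ) / T ∧
      p.2 = (y : ℝ) / T ∧ (lev t i = 3 * y ∨ lev t i = 3 * y - 1) := by
  obtain ⟨s, hs, rfl⟩ := mem_trace.1 hp
  rw [hL] at hs
  obtain ⟨i, i1, i2, e1, e2⟩ := site hs
  exact ⟨i, s.2, i1, i2, by rw [e1], rfl, e2⟩

end CC

end HexObs
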