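import Pool.Agent.HexLim.FinNarrow

/-!
Scaling limits of the trace of a critical bridge along subsequences.
-/

set_option autoImplicit false

open ENNReal MeasureTheory TopologicalSpace Filter Topology

namespace HexObs

namespace CC

open Ex Haus

/-- the law as a probability measure -/
noncomputable def lawP (n : ℕ) : ProbabilityMeasure NC := ⟨law (max 1 n), law_prob (le_max_left _ _)⟩

lemma lawP_coe (n : ℕ) : (lawP n : Measure NC) = law (max 1 n) := rfl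

lemma open_le {μ : ℕ → ProbabilityMeasure NC} {ν : ProbabilityMeasure NC} (h : Tendsto μ atTop (𝓝 ν)) {O : Set NC}
    (hO : IsOpen O) {c : ℝ≥0∞} (hμ : ∀ᶠ k in atTop, (μ k : Measure NC) O ≤ c) : (ν : Measure NC) O ≤ c := by
  refine (ProbabilityMeasure.le_liminf_measure_open_of_tendsto h hO).trans ?_
  exact liminf_le_of_frequently_le' hμ.frequently

lemma closed_ge {μ : ℕ → ProbabilityMeasure NC} {ν : ProbabilityMeasure NC} (h : Tendsto μ atTop (𝓝 ν)) {F : Set NC}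
    (hF : IsClosed F) {c : ℝ≥0∞} (hμ : ∀ᶠ k in atTop, c ≤ (μ k : Measure NC) F) : c ≤ (ν : Measure NC) F := by
  refine le_trans ?_ (ProbabilityMeasure.limsup_measure_closed_le_of_tendsto h hF)
  exact le_limsup_of_frequently_le' hμ.frequently

/-- tightness and subsequences. -/
theorem law_subseq (φ : ℕ → ℕ) : ∃ ψ : ℕ → ℕ, StrictMono ψ ∧ ∃ ν : ProbabilityMeasure NC,
    Tendsto (fun k => lawP (φ (ψ k))) atTop (𝓝 ν) := by
  obtain ⟨C, q, hC, hq, hq1, ht⟩ := fin_tails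
  have htight : IsTightMeasureSet {((ρ : ProbabilityMeasure NC) : Measure NC) | ρ ∈ Set.range fun k => lawP (φ k)} := by
    rw [isTightMeasureSet_iff_exists_isCompact_measure_compl_le]
    intro ε hε
    have h1 : Tendsto (fun M : ℕ => ENNReal.ofReal (C * q ^ M)) atTop (𝓝 0) := by
      have h2 : Tendsto (fun M : ℕ => C * q ^ M) atTop (𝓝 0) := by
        have := (tendsto_pow_atTop_nhds_zero_of_lt_one hq.le hq1).const_mul C
        rwa [mul_zero] at this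
      have := ENNReal.tendsto_ofReal h2
      rwa [ENNReal.ofReal_zero] at this
    obtain ⟨M, hM⟩ := (h1.eventually (ge_mem_nhds hε)).exists
    have hbox : IsCompact (Set.Icc (-(M : ℝ)) M ×ˢ Set.Icc (0 : ℝ) 1) := isCompact_Icc.prod isCompact_Icc
    refine ⟨{K | ∀ p ∈ K, p ∈ Set.Icc (-(M : ℝ)) M ×ˢ Set.Icc (0 : ℝ) 1}, isCompact_sub hbox, ?_⟩
    rintro _ ⟨ρ, ⟨k, rfl⟩, rfl⟩
    have hT1 : 1 ≤ max 1 (φ k) := le_max_left _ _
    have h2 := ht (max 1 (φ k)) M hT1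
    rw [lawP_coe]
    refine le_trans ?_ hM
    refine le_trans ?_ h2
    -- only the traces count
    rw [law_apply, law_apply]
    refine mul_le_mul' le_rfl (ENNReal.tsum_le_tsum fun L => ?_)
    by_cases h3 : trace (max 1 (φ k)) L ∈ {K | ∀ p ∈ K, p ∈ Set.Icc (-(M : ℝ)) M ×ˢ Set.Icc (0 : ℝ) 1}ᶜ
    · rw [Set.indicator_of_mem h3, Set.indicator_of_mem]
      have h4 : ¬ ∀ p ∈ trace (max 1 (φ k)) L, p ∈ Set.Icc (-(M : ℝ)) M ×ˢ Set.Icc (0 : ℝ) 1 := h3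
      push Not at h4
      obtain ⟨p, hp, hp'⟩ := h4
      refine ⟨p, hp, ?_⟩
      by_contra hcon
      push Not at hcon
      apply hp'
      exact ⟨abs_le.1 hcon, fin_strip hT1 L p hp⟩
    · rw [Set.indicator_of_notMem h3]
      exact zero_le
  have hc := isCompact_closure_of_isTightMeasureSet htight
  obtain ⟨ν, -, ψ, hψ, hlim⟩ := hc.tendsto_subseq (x := fun k => lawP (φ k)) (fun k => subset_closure ⟨k, rfl⟩)
  exact ⟨ψ, hψ, ν, hlim⟩

/-- events of probability zero -/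
lemma null_of {ν : Measure NC} {A : Set NC} (h : ∀ η : ℝ, 0 < η → ν A ≤ ENNReal.ofReal η) : ν A = 0 := by
  refine le_antisymm (ENNReal.le_of_forall_pos_le_add ?_) zero_le
  intro η hη _
  rw [zero_add]
  have := h η (by exact_mod_cast hη)
  rwa [ENNReal.ofReal_coe_nnreal] at this

section limit

variable {φ : ℕ → ℕ} {ν : ProbabilityMeasure NC}

lemma ev_of (hφ : Tendsto φ atTop atTop) (h : Tendsto (fun k => lawP (φ k)) atTop (𝓝 ν)) {O : Set NC} (hO : IsOpen O) {c : ℝ≥0∞} {T0 : ℕ} (hT : ∀ T, T0 ≤ T → 1 ≤ T → law T O ≤ c) :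
    (ν : Measure NC) O ≤ c := by
  apply open_le h hO
  filter_upwards [hφ.eventually_ge_atTop T0] with k hk
  rw [lawP_coe]
  exact hT _ (hk.trans (le_max_right _ _)) (le_max_left _ _)

lemma ev_ge (hφ : Tendsto φ atTop atTop) (h : Tendsto (fun k => lawP (φ k)) atTop (𝓝 ν)) {F : Set NC} (hF : IsClosed F) {c : ℝ≥0∞} {T0 : ℕ} (hT : ∀ T, T0 ≤ T → 1 ≤ T → c ≤ law T F) :
    c ≤ (ν : Measure NC) F := by
  apply closed_ge h hF
  filter_upwards [hφ.eventually_ge_atTop T0] with k hk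
  rw [lawP_coe]
  exact hT _ (hk.trans (le_max_right _ _)) (le_max_left _ _)

lemma law_null {T : ℕ} {A : Set NC} (hA : ∀ L, trace T L ∉ A) : law T A = 0 := by
  rw [law_apply]
  have : ∀ L : {L : List (ℤ × ℤ) // ∃ b, Crossing T 0 b L}, A.indicator (fun _ => wt L.1) (trace T L) = 0 :=
    fun L => Set.indicator_of_notMem (hA L) _
  simp_rw [this]
  simp

/-- the limit is in the strip -/
lemma lim_strip (hφ : Tendsto φ atTop atTop) (h : Tendsto (fun k => lawP (φ k)) atTop (𝓝 ν)) : ∀ᵐ (K : NC) ∂(ν : Measure NC), ∀ p ∈ K, 0 ≤ p.2 ∧ p.2 ≤ 1 := by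
  have hcl : IsClosed {p : PL | 0 ≤ p.2 ∧ p.2 ≤ 1} :=
    (isClosed_le continuous_const continuous_snd).inter (isClosed_le continuous_snd continuous_const)
  have h1 : (ν : Measure NC) {K : NC | ∀ p ∈ K, p ∈ {p : PL | 0 ≤ p.2 ∧ p.2 ≤ 1}}ᶜ ≤ 0 := by
    apply ev_of hφ h (isClosed_sub hcl).isOpen_compl (T0 := 0)
    intro T _ hT
    exact le_of_eq (law_null fun L hL => hL (fin_strip hT L))
  rw [ae_iff]
  exact le_antisymm h1 zero_le

/-- the limit contains the origin -/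
lemma lim_start (hφ : Tendsto φ atTop atTop) (h : Tendsto (fun k => lawP (φ k)) atTop (𝓝 ν)) : ∀ᵐ (K : NC) ∂(ν : Measure NC), (0, 0) ∈ K := by
  have h1 : ∀ n : ℕ, (ν : Measure NC) {K : NC | ∀ p ∈ K, p ∈ {p : PL | 1 / ((n : ℝ) + 1) < dist p (0, 0)}} ≤ 0 := by
    intro n
    have hop : IsOpen {K : NC | ∀ p ∈ K, p ∈ {p : PL | 1 / ((n : ℝ) + 1) < dist p (0, 0)}} :=
      isOpen_sub (isOpen_lt continuous_const (continuous_id.dist continuous_const))
    apply ev_of hφ h hop (T0 := n + 1)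
    intro T hTn hT
    refine le_of_eq (law_null fun L hL => ?_)
    have h2 := hL _ (fin_start L)
    have h3 : dist (((0 : ℝ), 1 / (T : ℝ)) : PL) (0, 0) = 1 / (T : ℝ) := by
      rw [Prod.dist_eq]
      simp
    have h2' : 1 / ((n : ℝ) + 1) < dist (((0 : ℝ), 1 / (T : ℝ)) : PL) (0, 0) := h2
    rw [h3] at h2'
    have h4 : ((n : ℝ) + 1) ≤ T := by exact_mod_cast hTn
    have h5 : 1 / (T : ℝ) ≤ 1 / ((n : ℝ) + 1) := one_div_le_one_div_of_le (by positivity) h4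
    linarith
  have h2 : (ν : Measure NC) (⋃ n : ℕ, {K : NC | ∀ p ∈ K, p ∈ {p : PL | 1 / ((n : ℝ) + 1) < dist p (0, 0)}}) = 0 :=
    measure_iUnion_null fun n => le_antisymm (h1 n) zero_le
  rw [ae_iff]
  refine measure_mono_null ?_ h2
  intro K hK
  have hK' : (0, 0) ∉ K := hK
  have hcl : IsClosed (K : Set PL) := K.isCompact.isClosed
  obtain ⟨r, hr, hr'⟩ := Metric.isOpen_iff.1 hcl.isOpen_compl (0, 0) hK'
  obtain ⟨n, hn⟩ := exists_nat_one_div_lt hr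
  rw [Set.mem_iUnion]
  refine ⟨n, ?_⟩
  intro p hp
  show 1 / ((n : ℝ) + 1) < dist p (0, 0)
  by_contra hcon
  push Not at hcon
  exact hr' (Metric.mem_ball.2 (lt_of_le_of_lt hcon hn)) hp

/-- the limit is connected -/
lemma lim_conn (hφ : Tendsto φ atTop atTop) (h : Tendsto (fun k => lawP (φ k)) atTop (𝓝 ν)) : ∀ᵐ (K : NC) ∂(ν : Measure NC), IsConnected (K : Set PL) := by
  have h1 : ∀ n : ℕ, (ν : Measure NC) (Split (1 / ((n : ℝ) + 1))) ≤ 0 := by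
    intro n
    apply ev_of hφ h (isOpen_split _) (T0 := n + 2)
    intro T hTn hT
    refine le_of_eq (law_null fun L => fin_split hT ?_ L)
    have h4 : ((n : ℝ) + 1) < T := by exact_mod_cast (by omega : n + 1 < T)
    exact one_div_lt_one_div_of_lt (by positivity) h4
  have h2 : (ν : Measure NC) (⋃ n : ℕ, Split (1 / ((n : ℝ) + 1))) = 0 :=
    measure_iUnion_null fun n => le_antisymm (h1 n) zero_le
  rw [ae_iff]
  refine measure_mono_null ?_ h2
  intro K hK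
  rw [Set.mem_iUnion]
  exact split_of hK

/-- the limit reaches the top -/
lemma lim_end (hφ : Tendsto φ atTop atTop) (h : Tendsto (fun k => lawP (φ k)) atTop (𝓝 ν)) : ∀ᵐ (K : NC) ∂(ν : Measure NC), ∃ p ∈ K, p.2 = 1 := by
  have h1 : (ν : Measure NC) {K : NC | ∀ p ∈ K, p ∈ {p : PL | p.2 ≠ 1}} ≤ 0 := by
    apply ev_of hφ h (isOpen_sub (isOpen_ne_fun continuous_snd continuous_const)) (T0 := 0)
    intro T _ hT
    refine le_of_eq (law_null fun L hL => ?_)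
    obtain ⟨p, hp, hp'⟩ := fin_end hT L
    exact hL p hp hp'
  rw [ae_iff]
  refine measure_mono_null ?_ (le_antisymm h1 zero_le)
  intro K hK
  have hK' : ¬ ∃ p ∈ K, p.2 = 1 := hK
  push Not at hK'
  exact hK'

/-- the limit touches the bottom line only at the origin -/
lemma lim_bot (hφ : Tendsto φ atTop atTop) (h : Tendsto (fun k => lawP (φ k)) atTop (𝓝 ν)) : ∀ᵐ (K : NC) ∂(ν : Measure NC), ∀ p ∈ K, p.2 = 0 → p.1 = 0 := by
  have h1 : ∀ n : ℕ, (ν : Measure NC) {K : NC | ∃ p ∈ K, 1 / ((n : ℝ) + 1) < |p.1| ∧ p.2 ≤ 0} = 0 := by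
    intro n
    apply null_of
    intro η hη
    obtain ⟨ε, hε, h2⟩ := fin_bot (δ := 1 / ((n : ℝ) + 1)) (by positivity) hη
    have hop : IsOpen {K : NC | ∃ p ∈ K, 1 / ((n : ℝ) + 1) < |p.1| ∧ p.2 < ε} := by
      have : IsOpen {p : PL | 1 / ((n : ℝ) + 1) < |p.1| ∧ p.2 < ε} :=
        (isOpen_lt continuous_const (continuous_fst.abs)).inter (isOpen_lt continuous_snd continuous_const)
      exact isOpen_meet this
    refine le_trans (measure_mono ?_) (ev_of hφ h hop (T0 := 0) (fun T _ hT => h2 T hT))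
    rintro K ⟨p, hp, h3, h4⟩
    exact ⟨p, hp, h3, lt_of_le_of_lt h4 hε⟩
  have h2 : (ν : Measure NC) (⋃ n : ℕ, {K : NC | ∃ p ∈ K, 1 / ((n : ℝ) + 1) < |p.1| ∧ p.2 ≤ 0}) = 0 :=
    measure_iUnion_null h1
  rw [ae_iff]
  refine measure_mono_null ?_ h2
  intro K hK
  have hK' : ¬ ∀ p ∈ K, p.2 = 0 → p.1 = 0 := hK
  push Not at hK'
  obtain ⟨p, hp, h3, h4⟩ := hK'
  obtain ⟨n, hn⟩ := exists_nat_one_div_lt (abs_pos.2 h4)
  rw [Set.mem_iUnion]
  exact ⟨n, p, hp, hn, h3.le⟩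

/-- the limit touches the top line at one point only -/
lemma lim_top (hφ : Tendsto φ atTop atTop) (h : Tendsto (fun k => lawP (φ k)) atTop (𝓝 ν)) : ∀ᵐ (K : NC) ∂(ν : Measure NC), ∀ p ∈ K, ∀ p' ∈ K, p.2 = 1 → p'.2 = 1 → p = p' := by
  have h1 : ∀ n : ℕ, (ν : Measure NC) {K : NC | ∃ p ∈ K, ∃ p' ∈ K, 1 / ((n : ℝ) + 1) < |p.1 - p'.1| ∧ p.2 = 1 ∧ p'.2 = 1} = 0 := by
    intro n
    apply null_of
    intro η hη
    obtain ⟨ε, T0, hε, h2⟩ := fin_top (δ := 1 / ((n : ℝ) + 1) / 2) (by positivity) hη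
    have hop : IsOpen {K : NC | ∃ p ∈ K, ∃ p' ∈ K, (p, p') ∈ {x : PL × PL | 2 * (1 / ((n : ℝ) + 1) / 2) < |x.1.1 - x.2.1| ∧
        1 - ε < x.1.2 ∧ 1 - ε < x.2.2}} := by
      apply isOpen_pair'
      have h3 : IsOpen {x : PL × PL | 2 * (1 / ((n : ℝ) + 1) / 2) < |x.1.1 - x.2.1|} :=
        isOpen_lt (by fun_prop) (by fun_prop)
      have h4 : IsOpen {x : PL × PL | 1 - ε < x.1.2} := isOpen_lt (by fun_prop) (by fun_prop)
      have h5 : IsOpen {x : PL × PL | 1 - ε < x.2.2} := isOpen_lt (by fun_prop) (by fun_prop)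
      exact h3.inter (h4.inter h5)
    refine le_trans (measure_mono ?_) (ev_of hφ h hop (T0 := T0) (fun T hT _ => h2 T hT))
    rintro K ⟨p, hp, p', hp', h3, h4, h5⟩
    refine ⟨p, hp, p', hp', ?_, ?_, ?_⟩
    · show 2 * (1 / ((n : ℝ) + 1) / 2) < |p.1 - p'.1|
      linarith
    · show 1 - ε < p.2
      linarith
    · show 1 - ε < p'.2
      linarith
  have h2 : (ν : Measure NC) (⋃ n : ℕ, {K : NC | ∃ p ∈ K, ∃ p' ∈ K, 1 / ((n : ℝ) + 1) < |p.1 - p'.1| ∧ p.2 = 1 ∧ p'.2 = 1}) = 0 :=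
    measure_iUnion_null h1
  rw [ae_iff]
  refine measure_mono_null ?_ h2
  intro K hK
  have hK' : ¬ ∀ p ∈ K, ∀ p' ∈ K, p.2 = 1 → p'.2 = 1 → p = p' := hK
  push Not at hK'
  obtain ⟨p, hp, p', hp', h3, h4, h5⟩ := hK'
  have h6 : p.1 - p'.1 ≠ 0 := by
    intro h7
    exact h5 (Prod.ext (by linarith) (h3.trans h4.symm))
  obtain ⟨n, hn⟩ := exists_nat_one_div_lt (abs_pos.2 h6)
  rw [Set.mem_iUnion]
  exact ⟨n, p, hp, p', hp', hn, h3, h4⟩

/-- the levels where the limit has one point only accumulate at 0 -/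
lemma lim_narrow (hφ : Tendsto φ atTop atTop) (h : Tendsto (fun k => lawP (φ k)) atTop (𝓝 ν)) : ∀ᵐ (K : NC) ∂(ν : Measure NC), ∀ r : ℝ, 0 < r → ∃ l : ℝ, 0 < l ∧ l < r ∧
    ∀ p ∈ K, ∀ p' ∈ K, p.2 = l → p'.2 = l → p = p' := by
  have key : ∀ n : ℕ, (ν : Measure NC) {K : NC | ¬ ∃ l, 0 < l ∧ l ≤ 1 / ((n : ℝ) + 2) ∧
      ∀ p ∈ K, ∀ p' ∈ K, p.2 = l → p'.2 = l → p = p'} = 0 := by
    intro n
    apply null_of
    intro η hη
    have hn2 : 1 / ((n : ℝ) + 2) ≤ 1 / 2 := one_div_le_one_div_of_le (by norm_num) (by have : (0 : ℝ) ≤ n := Nat.cast_nonneg n; linarith)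
    obtain ⟨e, d, a, he, hd, ha, h2⟩ := fin_narrow hη (by positivity : 0 < 1 / ((n : ℝ) + 2)) hn2
    have h3 : ∀ j, (ν : Measure NC) {K | ∃ l ∈ Set.Icc a (1 / ((n : ℝ) + 2)), NarrowAt e d j K l}ᶜ ≤ ENNReal.ofReal η := by
      intro j
      obtain ⟨T0, hT0⟩ := h2 j
      exact ev_of hφ h (isClosed_narrow e d j _ _).isOpen_compl (T0 := T0) (fun T hT _ => (hT0 T hT).1)
    have h4 : (ν : Measure NC) (⋃ j, {K | ∃ l ∈ Set.Icc a (1 / ((n : ℝ) + 2)), NarrowAt e d j K l}ᶜ) ≤ ENNReal.ofReal η := by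
      rw [Monotone.measure_iUnion]
      · exact iSup_le h3
      · intro i j hij K hK hK'
        apply hK
        obtain ⟨l, hl, h5⟩ := hK'
        exact ⟨l, hl, fun k hk => h5 k (hk.trans hij)⟩
    refine le_trans (measure_mono ?_) h4
    intro K hK
    rw [Set.mem_iUnion]
    by_contra hcon
    push Not at hcon
    apply hK
    obtain ⟨l, hl, h5⟩ := narrow_all (a := a) (b := 1 / ((n : ℝ) + 2)) he hd (fun j => not_not.1 (hcon j))
    exact ⟨l, lt_of_lt_of_le ha hl.1, hl.2, h5⟩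
  have h2 := measure_iUnion_null key
  rw [ae_iff]
  refine measure_mono_null ?_ h2
  intro K hK
  rw [Set.mem_iUnion]
  by_contra hcon
  rw [not_exists] at hcon
  apply hK
  intro r hr
  obtain ⟨n, hn⟩ := exists_nat_one_div_lt hr
  obtain ⟨l, hl1, hl2, hl3⟩ := not_not.1 (hcon n)
  refine ⟨l, hl1, ?_, hl3⟩
  have : 1 / ((n : ℝ) + 2) ≤ 1 / ((n : ℝ) + 1) := one_div_le_one_div_of_le (by positivity) (by linarith)
  linarith

/-- the levels where the limit has one point only accumulate at 1 -/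
lemma lim_narrow' (hφ : Tendsto φ atTop atTop) (h : Tendsto (fun k => lawP (φ k)) atTop (𝓝 ν)) : ∀ᵐ (K : NC) ∂(ν : Measure NC), ∀ r : ℝ, 0 < r → ∃ l : ℝ, 1 - r < l ∧ l < 1 ∧
    ∀ p ∈ K, ∀ p' ∈ K, p.2 = l → p'.2 = l → p = p' := by
  have key : ∀ n : ℕ, (ν : Measure NC) {K : NC | ¬ ∃ l, 1 - 1 / ((n : ℝ) + 2) ≤ l ∧ l < 1 ∧
      ∀ p ∈ K, ∀ p' ∈ K, p.2 = l → p'.2 = l → p = p'} = 0 := by
    intro n
    apply null_of
    intro η hη
    have hn2 : 1 / ((n : ℝ) + 2) ≤ 1 / 2 := one_div_le_one_div_of_le (by norm_num) (by have : (0 : ℝ) ≤ n := Nat.cast_nonneg n; linarith)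
    obtain ⟨e, d, a, he, hd, ha, h2⟩ := fin_narrow hη (by positivity : 0 < 1 / ((n : ℝ) + 2)) hn2
    have h3 : ∀ j, (ν : Measure NC) {K | ∃ l ∈ Set.Icc (1 - 1 / ((n : ℝ) + 2)) (1 - a), NarrowAt e d j K l}ᶜ ≤ ENNReal.ofReal η := by
      intro j
      obtain ⟨T0, hT0⟩ := h2 j
      exact ev_of hφ h (isClosed_narrow e d j _ _).isOpen_compl (T0 := T0) (fun T hT _ => (hT0 T hT).2)
    have h4 : (ν : Measure NC) (⋃ j, {K | ∃ l ∈ Set.Icc (1 - 1 / ((n : ℝ) + 2)) (1 - a), NarrowAt e d j K l}ᶜ) ≤ ENNReal.ofReal η := by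
      rw [Monotone.measure_iUnion]
      · exact iSup_le h3
      · intro i j hij K hK hK'
        apply hK
        obtain ⟨l, hl, h5⟩ := hK'
        exact ⟨l, hl, fun k hk => h5 k (hk.trans hij)⟩
    refine le_trans (measure_mono ?_) h4
    intro K hK
    rw [Set.mem_iUnion]
    by_contra hcon
    push Not at hcon
    apply hK
    obtain ⟨l, hl, h5⟩ := narrow_all (a := 1 - 1 / ((n : ℝ) + 2)) (b := 1 - a) he hd (fun j => not_not.1 (hcon j))
    exact ⟨l, hl.1, by have := hl.2; linarith, h5⟩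
  have h2 := measure_iUnion_null key
  rw [ae_iff]
  refine measure_mono_null ?_ h2
  intro K hK
  rw [Set.mem_iUnion]
  by_contra hcon
  rw [not_exists] at hcon
  apply hK
  intro r hr
  obtain ⟨n, hn⟩ := exists_nat_one_div_lt hr
  obtain ⟨l, hl1, hl2, hl3⟩ := not_not.1 (hcon n)
  refine ⟨l, ?_, hl2, hl3⟩
  have : 1 / ((n : ℝ) + 2) ≤ 1 / ((n : ℝ) + 1) := one_div_le_one_div_of_le (by positivity) (by linarith)
  linarith

/-- the end has no atoms -/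
theorem lim_int : ∃ C κ : ℝ, 0 < C ∧ 0 < κ ∧ ∀ {φ : ℕ → ℕ} {ν : ProbabilityMeasure NC}, Tendsto φ atTop atTop →
    Tendsto (fun k => lawP (φ k)) atTop (𝓝 ν) → ∀ (a h : ℝ), 0 < h →
      (ν : Measure NC) {K : NC | ∃ x ∈ Set.Icc a (a + h), (x, 1) ∈ K} ≤ ENNReal.ofReal (C * h ^ κ) := by
  obtain ⟨C, κ, hC, hκ, hmain⟩ := fin_int
  refine ⟨C, κ, hC, hκ, ?_⟩
  intro φ ν hφ hlim a h hh
  apply ENNReal.le_of_forall_pos_le_add
  intro η hη _
  obtain ⟨ε, T0, hε, h2⟩ := hmain a h η hh (by exact_mod_cast hη)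
  have hop : IsOpen {K : NC | ∃ p ∈ K, a - h < p.1 ∧ p.1 < a + 2 * h ∧ 1 - ε < p.2} := by
    have : IsOpen {p : PL | a - h < p.1 ∧ p.1 < a + 2 * h ∧ 1 - ε < p.2} :=
      (isOpen_lt continuous_const continuous_fst).inter
        ((isOpen_lt continuous_fst continuous_const).inter (isOpen_lt continuous_const continuous_snd))
    exact isOpen_meet this
  have h3 := ev_of hφ hlim hop (T0 := T0) (fun T hT _ => h2 T hT)
  have h4 : 0 < h ^ κ := Real.rpow_pos_of_pos hh _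
  rw [ENNReal.ofReal_add (by positivity) (by exact_mod_cast hη.le), ENNReal.ofReal_coe_nnreal] at h3
  refine le_trans (measure_mono ?_) h3
  rintro K ⟨x, hx, hK⟩
  refine ⟨(x, 1), hK, ?_, ?_, ?_⟩
  · show a - h < x
    linarith [hx.1]
  · show x < a + 2 * h
    linarith [hx.2]
  · show 1 - ε < (1 : ℝ)
    linarith

/-- tails -/
theorem lim_tails : ∃ C q : ℝ, 0 < C ∧ 0 < q ∧ q < 1 ∧ ∀ {φ : ℕ → ℕ} {ν : ProbabilityMeasure NC}, Tendsto φ atTop atTop →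
    Tendsto (fun k => lawP (φ k)) atTop (𝓝 ν) → ∀ M : ℕ,
      (ν : Measure NC) {K : NC | ∃ p ∈ K, (M : ℝ) < |p.1|} ≤ ENNReal.ofReal (C * q ^ M) := by
  obtain ⟨C, q, hC, hq, hq1, hmain⟩ := fin_tails
  refine ⟨C, q, hC, hq, hq1, ?_⟩
  intro φ ν hφ hlim M
  have hop : IsOpen {K : NC | ∃ p ∈ K, (M : ℝ) < |p.1|} := by
    have : IsOpen {p : PL | (M : ℝ) < |p.1|} := isOpen_lt continuous_const continuous_fst.abs
    exact isOpen_meet this
  exact ev_of hφ hlim hop (T0 := 0) (fun T _ hT => hmain T M hT)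

lemma isClosed_tube {g : ℝ → ℝ} (hg : ContinuousOn g (Set.Icc 0 1)) (ε : ℝ) :
    IsClosed {K : NC | ∀ p ∈ K, p.2 ∈ Set.Icc (0 : ℝ) 1 ∧ |p.1 - g p.2| ≤ ε} := by
  have h1 : IsClosed {p : PL | p.2 ∈ Set.Icc (0 : ℝ) 1} := isClosed_Icc.preimage continuous_snd
  have h2 : ContinuousOn (fun p : PL => |p.1 - g p.2|) {p : PL | p.2 ∈ Set.Icc (0 : ℝ) 1} :=
    (continuous_fst.continuousOn.sub (hg.comp continuous_snd.continuousOn (fun p hp => hp))).abs
  have h3 : IsClosed ({p : PL | p.2 ∈ Set.Icc (0 : ℝ) 1} ∩ (fun p : PL => |p.1 - g p.2|) ⁻¹' Set.Iic ε) :=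
    h2.preimage_isClosed_of_isClosed h1 isClosed_Iic
  exact isClosed_sub h3

/-- small balls around graphs -/
theorem lim_tube (hφ : Tendsto φ atTop atTop) (h : Tendsto (fun k => lawP (φ k)) atTop (𝓝 ν)) {g : ℝ → ℝ} (hg : ContinuousOn g (Set.Icc 0 1)) {ε : ℝ} (hε : 0 < ε)
    {c : ℝ≥0∞} {T0 : ℕ} (hc : ∀ T, T0 ≤ T → c ≤ law T {K | ∀ p ∈ K, p.2 ∈ Set.Icc (0 : ℝ) 1 ∧ |p.1 - g p.2| ≤ ε}) :
    c ≤ (ν : Measure NC) {K | dist K (graph g hg) ≤ ε} := by
  refine (ev_ge hφ h (isClosed_tube hg ε) (T0 := T0) (fun T hT _ => hc T hT)).trans ?_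
  apply measure_mono_ae
  filter_upwards [lim_conn hφ h, lim_start hφ h, lim_end hφ h] with K h1 h2 h3 h4
  exact dist_graph hg h1 hε.le ⟨(0, 0), h2, rfl⟩ h3 h4

end limit

end CC

end HexObs
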