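import Pool.Agent.HexLim.Anti2

/-!
Bridges have many cuts in an interval of levels: general form, and the walk near the boundary of the strip.
-/

set_option autoImplicit false

open ENNReal

namespace HexObs

namespace Ex

/-- counting with marks. -/
lemma count_gen {a b n : ℕ} {S : Set (List Bool)} {P : List Bool → ℕ → Prop}
    (hn : ∀ t ∈ S, ∃ F : Finset ℕ, n ≤ F.card ∧ ∀ c ∈ F, a ≤ c ∧ c ≤ b ∧ P t c) :
    (n : ℝ≥0∞) * gf S ≤ ∑ c ∈ Finset.Icc a b, gf {t | t ∈ S ∧ P t c} := by
  classical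
  have h1 : ∀ c, gf {t | t ∈ S ∧ P t c} = ∑' t : S, (if P (t : List Bool) c then wE (t : List Bool) else 0) := by
    intro c
    unfold gf
    rw [_root_.tsum_subtype, _root_.tsum_subtype (f := fun t : List Bool => if P t c then wE t else 0)]
    apply tsum_congr
    intro t
    by_cases h2 : t ∈ S
    · by_cases h3 : P t c
      · rw [Set.indicator_of_mem (show t ∈ {t | t ∈ S ∧ P t c} from ⟨h2, h3⟩), Set.indicator_of_mem h2, if_pos h3]
      · rw [Set.indicator_of_notMem (fun h => h3 h.2), Set.indicator_of_mem h2, if_neg h3]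
    · rw [Set.indicator_of_notMem (fun h => h2 h.1), Set.indicator_of_notMem h2]
  simp_rw [h1]
  rw [← (Summable.tsum_finsetSum (fun c _ => ENNReal.summable))]
  unfold gf
  rw [← ENNReal.tsum_mul_left]
  apply ENNReal.tsum_le_tsum
  rintro ⟨t, ht⟩
  obtain ⟨F, hF1, hF2⟩ := hn t ht
  rw [← Finset.sum_filter, Finset.sum_const, nsmul_eq_mul]
  refine mul_le_mul_left ?_ _
  have h3 : F ⊆ (Finset.Icc a b).filter (fun c => P t c) := by
    intro c hc
    obtain ⟨h4, h5, h6⟩ := hF2 c hc
    rw [Finset.mem_filter, Finset.mem_Icc]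
    exact ⟨⟨h4, h5⟩, h6⟩
  exact_mod_cast hF1.trans (Finset.card_le_card h3)

/-- all bridges but few have many cuts. -/
theorem parts {T s W n : ℕ} (hs : 1 ≤ s) (hW : 1 ≤ W) (hT : 2 * ((W + 2) * s) ≤ T) {S : Set (List Bool)}
    (hS : S ⊆ Brd T) :
    gf S ≤ ENNReal.ofReal ((4 * (6 + CW) * (W : ℝ) ^ (-(1 / (6 + CW))) +
      2 * (6 + CW) * (9 + CW) * (n / UU s)) * uu T) + gf {t | t ∈ S ∧ n ≤ (cutsIn t s ((W + 2) * s)).card} := by
  classical
  have hCW := Num2Aux.CW_pos
  have hUs : 0 < UU s := Num2Aux.UU_pos s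
  have hWp : (0 : ℝ) < W := by exact_mod_cast hW
  have hus := uu_pos s
  have huT := uu_pos T
  have hWs : s ≤ W * s := Nat.le_mul_of_pos_left s hW
  have hexp : (W + 2) * s = W * s + 2 * s := by ring
  have hexp1 : (W + 1) * s = W * s + s := by ring
  set A : Set (List Bool) := ⋃ c ∈ Finset.range ((W + 1) * s), (FC s c) with hA
  have hAFC : ∀ a ∈ A, ∃ c, a ∈ FC s c := by
    intro a ha
    simp only [hA, Set.mem_iUnion] at ha
    obtain ⟨c, _, ha⟩ := ha
    exact ⟨c, ha⟩
  have hcover : S ⊆ (NC s ((W + 1) * s) T ∪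
      {N | ∃ a ∈ A, ∃ u ∈ {u | ∃ c, a ∈ FC s c ∧ u ∈ few n s (T - c)}, N = a ++ u}) ∪
      {t | t ∈ S ∧ n ≤ (cutsIn t s ((W + 2) * s)).card} := by
    intro t ht
    by_cases hmany : n ≤ (cutsIn t s ((W + 2) * s)).card
    · exact Or.inr ⟨ht, hmany⟩
    · left
      obtain ⟨c, a, u, h1, h2, ha, hu, e⟩ := FC_dec (s := s) (by omega) (hS ht)
      rcases Nat.lt_or_ge c ((W + 1) * s) with hc | hc
      · right
        refine ⟨a, ?_, u, ⟨c, ha, hu, ?_⟩, e⟩
        · simp only [hA, Set.mem_iUnion]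
          exact ⟨c, Finset.mem_range.2 hc, ha⟩
        · by_contra hcon
          push Not at hcon
          apply hmany
          refine hcon.trans ?_
          have hsub : (cutsIn u 1 s).image (fun x => c + x) ⊆ cutsIn t s ((W + 2) * s) := by
            intro x hx
            rw [Finset.mem_image] at hx
            obtain ⟨x', hx', rfl⟩ := hx
            rw [mem_cutsIn] at hx'
            rw [mem_cutsIn, e]
            exact ⟨⟨by omega, by omega⟩, cut_cat ha.1 hu hx'.2⟩
          have h3 := Finset.card_le_card hsub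
          rwa [Finset.card_image_of_injective _ (add_right_injective c)] at h3
      · left
        refine ⟨hS ht, ?_⟩
        rintro c' h3 h4 ⟨s', u', b, hs', hu', e'⟩
        obtain ⟨v, hv, h5, -⟩ := cut_nested hs' ha.1 hu' hu (by omega) (e'.symm.trans e)
        exact ha.2.2 c' h3 (by omega) ⟨s', v, _, hs', hv, h5⟩
  have h1 := E1 (s := s) (W := W) (n := T) hs hW (by omega)
  have h2 : gf {N | ∃ a ∈ A, ∃ u ∈ {u | ∃ c, a ∈ FC s c ∧ u ∈ few n s (T - c)}, N = a ++ u} ≤
      ENNReal.ofReal (2 * (6 + CW) * (9 + CW) * (n / UU s) * uu T) := by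
    have h3 := fiber_le (s := s) (n := T) A hAFC (fun a => {u | ∃ c, a ∈ FC s c ∧ u ∈ few n s (T - c)})
      (ENNReal.ofReal (2 * (6 + CW) * (9 + CW) * (n / UU s))) (by
        intro a ha c hc
        simp only [hA, Set.mem_iUnion] at ha
        obtain ⟨c', hc'r, ha'⟩ := ha
        have hcc := Brd_height hc.1 ha'.1
        subst hcc
        rw [Finset.mem_range] at hc'r
        have h4 := few_le (w := s) (m := T - c) hs (by omega) n
        have h5 : {u | ∃ c, a ∈ FC s c ∧ u ∈ few n s (T - c)} ⊆ few n s (T - c) := by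
          rintro u ⟨c'', hc'', hu⟩
          have := Brd_height hc.1 hc''.1
          rw [this]
          exact hu
        refine (gf_mono h5).trans ?_
        rw [BT_eq, ← ENNReal.ofReal_mul (by positivity),
          ← ENNReal.ofReal_toReal (gfB_ne (T := T - c) (P := few n s (T - c)) fun _ h => h.1)]
        exact ENNReal.ofReal_le_ofReal h4)
    refine h3.trans ?_
    have e5 : ENNReal.ofReal (2 * (6 + CW) * (9 + CW) * (n / UU s) * uu T) =
        ENNReal.ofReal (2 * (6 + CW) * (9 + CW) * (n / UU s)) * ENNReal.ofReal (uu T) :=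
      ENNReal.ofReal_mul (by positivity)
    rw [e5]
    refine mul_le_mul' le_rfl ?_
    refine gfB_le (T := T) ?_
    rintro N ⟨a, ha, u, ⟨c, hc, hu⟩, e⟩
    simp only [hA, Set.mem_iUnion] at ha
    obtain ⟨c', hc'r, ha'⟩ := ha
    have hcc := Brd_height hc.1 ha'.1
    subst hcc
    rw [Finset.mem_range] at hc'r
    have h4 := Brd_append hc.1 hu
    rw [← e] at h4
    have h5 : c + (T - c) = T := by omega
    rwa [h5] at h4
  refine (gf_mono hcover).trans ((gf_union_le _ _).trans (add_le_add ((gf_union_le _ _).trans ?_) le_rfl))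
  refine (add_le_add h1 h2).trans ?_
  have hk : 0 < (W : ℝ) ^ (-(1 / (6 + CW))) := Real.rpow_pos_of_pos hWp _
  rw [← ENNReal.ofReal_add (by positivity) (by positivity)]
  apply ENNReal.ofReal_le_ofReal
  apply le_of_eq
  ring

/-- bridges that go far to the side in the rows up to s. -/
def Bot (T s R : ℕ) : Set (List Bool) := {t | t ∈ Brd T ∧ ∃ i ≤ t.length, lev t i ≤ 3 * s ∧ (R : ℤ) < |lat t i|}

lemma Bot_mono {T s s' R R' : ℕ} (h1 : s ≤ s') (h2 : R' ≤ R) : Bot T s R ⊆ Bot T s' R' := by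
  rintro t ⟨ht, i, hi, h3, h4⟩
  refine ⟨ht, i, hi, ?_, ?_⟩
  · have : (s : ℤ) ≤ s' := by exact_mod_cast h1
    omega
  · have : (R' : ℤ) ≤ R := by exact_mod_cast h2
    omega

lemma Bot_zero (T R : ℕ) : Bot T 0 R = ∅ := by
  rw [Set.eq_empty_iff_forall_notMem]
  rintro t ⟨ht, i, hi, h1, h2⟩
  have h3 := (mem_Brd.1 ht).1
  rcases Nat.eq_zero_or_pos i with h0 | h0
  · rw [h0] at h2
    have : lat t 0 = 0 := by
      unfold lat
      rfl
    rw [this, abs_zero] at h2
    have := Int.natCast_nonneg R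
    omega
  · have := (h3 i h0 hi).1
    push_cast at h1
    omega


/-- three parts for the walk near the bottom. -/
theorem bot_parts {C0 q : ℝ} (hC0 : 0 < C0) (hq : 0 < q) (hlat : LatR C0 q) {T s W n M R : ℕ} (hs : 1 ≤ s)
    (hW : 1 ≤ W) (hn : 1 ≤ n) (hT : 2 * ((W + 2) * s) ≤ T) (hR : M * ((W + 2) * s) ≤ R) :
    gf (Bot T s R) ≤ ENNReal.ofReal ((4 * (6 + CW) * (W : ℝ) ^ (-(1 / (6 + CW))) +
      2 * (6 + CW) * (9 + CW) * (n / UU s) + 2 * (6 + CW) * C0 * q ^ M * (UU ((W + 2) * s) / n)) * uu T) := by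
  have hCW := Num2Aux.CW_pos
  have hUs : 0 < UU s := Num2Aux.UU_pos s
  have hUb : 0 < UU ((W + 2) * s) := Num2Aux.UU_pos _
  have hWp : (0 : ℝ) < W := by exact_mod_cast hW
  have hnp : (0 : ℝ) < n := by exact_mod_cast hn
  have huT := uu_pos T
  set b := (W + 2) * s with hb
  have hsb : s ≤ b := by
    rw [hb]
    exact Nat.le_mul_of_pos_left s (by omega)
  have h0 := parts (n := n) hs hW hT (S := Bot T s R) (fun t ht => ht.1)
  rw [← hb] at h0
  have h1 := count_gen (a := s) (b := b) (n := n) (S := {t | t ∈ Bot T s R ∧ n ≤ (cutsIn t s b).card})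
    (P := fun t c => Cut t c) (by
      rintro t ⟨_, ht⟩
      refine ⟨cutsIn t s b, ht, ?_⟩
      intro c hc
      rw [mem_cutsIn] at hc
      exact ⟨hc.1.1, hc.1.2, hc.2⟩)
  have h2 : ∀ c ∈ Finset.Icc s b, gf {t | t ∈ {t | t ∈ Bot T s R ∧ n ≤ (cutsIn t s b).card} ∧ Cut t c} ≤
      ENNReal.ofReal (C0 * q ^ M * uu c * (2 * (6 + CW) * uu T)) := by
    intro c hc
    rw [Finset.mem_Icc] at hc
    have hTc : uu (T - c) ≤ 2 * (6 + CW) * uu T := by
      have h3 : 2 * c ≤ T := by omega
      exact uu_half h3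
    have h3 : gf {t | t ∈ {t | t ∈ Bot T s R ∧ n ≤ (cutsIn t s b).card} ∧ Cut t c} ≤
        gf {t | t ∈ Brd c ∧ ∃ i, i ≤ t.length ∧ (M * c : ℤ) < |lat t i|} * gf (Brd (T - c)) := by
      apply gf_le_mul
      rintro t ⟨⟨⟨ht, i, hi, hl, hr⟩, _⟩, a, u, m, ha, hu, e⟩
      have hm : T = c + m := by
        rw [e] at ht
        exact Brd_height ht (Brd_append ha hu)
      refine ⟨a, ⟨ha, ?_⟩, u, ?_, e⟩
      · have hia : i ≤ a.length := by
          by_contra hcon
          push Not at hcon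
          obtain ⟨j, hj⟩ := Nat.exists_eq_add_of_lt hcon
          have hj' : i = a.length + (j + 1) := by omega
          rw [e, hj', lev_cat (mem_Brd.1 ha).2.2.1, (mem_Brd.1 ha).2.2.2] at hl
          have h5 := ((mem_Brd.1 hu).1 (j + 1) (by omega) (by
            rw [e, List.length_append, hj'] at hi
            omega)).1
          have : (s : ℤ) ≤ c := by exact_mod_cast hc.1
          omega
        refine ⟨i, hia, ?_⟩
        rw [e, lat_append (by omega)] at hr
        have h5 : (M * c : ℤ) ≤ R := by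
          have : M * c ≤ R := le_trans (Nat.mul_le_mul_left M hc.2) hR
          exact_mod_cast this
        omega
      · have : T - c = m := by omega
        rw [this]
        exact hu
    refine h3.trans ?_
    rw [gf_Brd, BT_eq]
    refine (mul_le_mul' (hlat M c (by omega)) le_rfl).trans ?_
    rw [← ENNReal.ofReal_mul (by have := uu_pos c; positivity)]
    apply ENNReal.ofReal_le_ofReal
    apply mul_le_mul_of_nonneg_left hTc
    have := uu_pos c
    positivity
  have h3 : ∑ c ∈ Finset.Icc s b, gf {t | t ∈ {t | t ∈ Bot T s R ∧ n ≤ (cutsIn t s b).card} ∧ Cut t c} ≤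
      ENNReal.ofReal (C0 * q ^ M * UU b * (2 * (6 + CW) * uu T)) := by
    refine (Finset.sum_le_sum h2).trans ?_
    rw [← ENNReal.ofReal_sum_of_nonneg (fun c _ => by have := uu_pos c; positivity)]
    apply ENNReal.ofReal_le_ofReal
    rw [← Finset.sum_mul, ← Finset.mul_sum]
    apply mul_le_mul_of_nonneg_right _ (by positivity)
    apply mul_le_mul_of_nonneg_left _ (by positivity)
    unfold UU
    apply Finset.sum_le_sum_of_subset_of_nonneg
    · intro c hc
      rw [Finset.mem_Icc] at hc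
      rw [Finset.mem_range]
      omega
    · intro c _ _
      exact (uu_pos c).le
  have h4 := h1.trans h3
  have h5 : ENNReal.ofReal (C0 * q ^ M * UU b * (2 * (6 + CW) * uu T)) =
      (n : ℝ≥0∞) * ENNReal.ofReal (2 * (6 + CW) * C0 * q ^ M * (UU b / n) * uu T) := by
    rw [← ENNReal.ofReal_natCast n, ← ENNReal.ofReal_mul (Nat.cast_nonneg n)]
    congr 1
    field_simp
  rw [h5] at h4
  have h6 : (n : ℝ≥0∞) ≠ 0 := by
    rw [Ne, Nat.cast_eq_zero]
    omega
  have h7 := (ENNReal.mul_le_mul_iff_right h6 (ENNReal.natCast_ne_top n)).1 h4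
  refine (h0.trans (add_le_add le_rfl h7)).trans ?_
  have hk : 0 < (W : ℝ) ^ (-(1 / (6 + CW))) := Real.rpow_pos_of_pos hWp _
  rw [← ENNReal.ofReal_add (by positivity) (by positivity)]
  apply ENNReal.ofReal_le_ofReal
  apply le_of_eq
  ring

end Ex

end HexObs
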