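import Pool.Agent.HexSPR.Final

/-!
The tube theorem: a critical bridge follows any given Lipschitz graph with positive probability, uniformly in the
height.
-/

set_option autoImplicit false

namespace HexObs

namespace Ex

open Complex Finset ENNReal

/-- mirror image of a set of words. -/
def mir (Q : Set (List Bool)) : Set (List Bool) := {q | q.map not ∈ Q}

lemma gf_mir (Q : Set (List Bool)) : gf (mir Q) = gf Q := by
  have key : ∀ Q : Set (List Bool), gf (mir Q) ≤ gf Q := by
    intro Q
    have := gf_le_of_inj (P := mir Q) (Q := Q) (fun t => t.map not) (fun t ht => ht) (by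
      intro s _ t _ hst
      have := congrArg (List.map not) hst
      rwa [map_not_not, map_not_not] at this) 1 (by
      intro t _
      rw [one_mul, wE_map_not])
    rwa [one_mul] at this
  apply le_antisymm (key Q)
  have h := key (mir Q)
  have e : mir (mir Q) = Q := by
    ext q
    show q.map not ∈ mir Q ↔ q ∈ Q
    show (q.map not).map not ∈ Q ↔ q ∈ Q
    rw [map_not_not]
  rwa [e] at h

lemma isCode_mir {Q : Set (List Bool)} (hQ : IsCode Q) : IsCode (mir Q) := by
  intro q hq q' hq' b b' u u' hu hu' h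
  have h1 := congrArg (List.map not) h
  rw [List.map_append, List.map_append] at h1
  have h2 := hQ _ hq _ hq' b b' _ _ (Brd_not hu) (Brd_not hu') h1
  have := congrArg (List.map not) h2
  rwa [map_not_not, map_not_not] at this

/-- the words that stay within distance r of the graph of G, started at height y and position x. -/
def TubeW (G : ℝ → ℝ) (r : ℝ) (y : ℕ) (x : ℤ) (N : List Bool) : Prop :=
  ∀ i, i ≤ N.length → |((x : ℝ) + (lat N i : ℝ)) - G (y + (lev N i : ℝ) / 3)| ≤ r

lemma lev_range {t : ℕ} {q : List Bool} (hq : q ∈ Brd t) {i : ℕ} (hi : i ≤ q.length) :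
    0 ≤ (lev q i : ℝ) / 3 ∧ (lev q i : ℝ) / 3 ≤ t := by
  have h1 : 0 ≤ lev q i ∧ lev q i ≤ 3 * t := by
    rcases Nat.eq_zero_or_pos i with h0 | h0
    · rw [h0, lev_zero]
      omega
    · have := (mem_Brd.1 hq).1 i h0 hi
      omega
  have h2 : (0 : ℝ) ≤ lev q i := by exact_mod_cast h1.1
  have h3 : (lev q i : ℝ) ≤ 3 * t := by exact_mod_cast h1.2
  constructor
  · positivity
  · linarith

/-- the tube of a concatenation. -/
lemma tube_cat {G : ℝ → ℝ} {r : ℝ} {y t : ℕ} {x : ℤ} {q u : List Bool} (hq : q ∈ Brd t)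
    (h1 : TubeW G r y x q) (h2 : TubeW G r (y + t) (x + latE q) u) : TubeW G r y x (q ++ u) := by
  intro i hi
  have hqd := (mem_Brd.1 hq).2.2.1
  have hql := (mem_Brd.1 hq).2.2.2
  rcases le_or_gt i q.length with h | h
  · rw [lat_append (by omega), lev_append (by omega)]
    exact h1 i h
  · rw [List.length_append] at hi
    obtain ⟨j, rfl⟩ : ∃ j, i = q.length + j := ⟨i - q.length, by omega⟩
    rw [lat_cat hqd, lev_cat hqd, hql]
    have h3 := h2 j (by omega)
    push_cast at h3 ⊢
    have e1 : (x : ℝ) + ((latE q : ℝ) + (lat u j : ℝ)) = (x : ℝ) + (latE q : ℝ) + (lat u j : ℝ) := by ring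
    have e2 : (y : ℝ) + (3 * (t : ℝ) + (lev u j : ℝ)) / 3 = (y : ℝ) + (t : ℝ) + (lev u j : ℝ) / 3 := by ring
    rw [e1, e2]
    exact h3

/-- steering. -/
theorem steer {L M M0 : ℕ} {p : ℝ} (hp0 : 0 < p) (hp1 : p ≤ 1)
    (hbox : ∀ T : ℕ, 1 ≤ T → ENNReal.ofReal (1 / 2 * uu T) ≤
      gf {t | t ∈ Brd T ∧ ∀ i, i ≤ t.length → |lat t i| ≤ M0 * T})
    {h : ℕ} (hh : 1 ≤ h) {Q : Set (List Bool)} (hQ : IsCode Q)
    (hQ2 : ∀ q ∈ Q, ∃ t, h ≤ 2 * t ∧ t ≤ h ∧ q ∈ Brd t ∧ (L * h : ℤ) ≤ latE q ∧
      ∀ i, i ≤ q.length → |lat q i| ≤ M * h) (hQ3 : ENNReal.ofReal p ≤ gf Q)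
    {G : ℝ → ℝ} (hG : ∀ a b, |G a - G b| ≤ L * |a - b|) (k : ℕ) :
    ∀ (s y : ℕ) (x : ℤ), 2 * s ≤ 4 * h + k * h → |(x : ℝ) - G y| ≤ (M + L) * h →
      ENNReal.ofReal (1 / 2 * p ^ k * uu s) ≤
        gf {N | N ∈ Brd s ∧ TubeW G ((2 * M + 4 * L + 2 * M0) * h) y x N} := by
  have hhp : (1 : ℝ) ≤ h := by exact_mod_cast hh
  have hMr : (0 : ℝ) ≤ M := Nat.cast_nonneg M
  have hLr : (0 : ℝ) ≤ L := Nat.cast_nonneg L
  have hM0r : (0 : ℝ) ≤ M0 := Nat.cast_nonneg M0
  set r : ℝ := (2 * M + 4 * L + 2 * M0) * h with hr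
  -- short heights
  have short : ∀ (s y : ℕ) (x : ℤ), s ≤ 2 * h → |(x : ℝ) - G y| ≤ (M + L) * h →
      ENNReal.ofReal (1 / 2 * uu s) ≤ gf {N | N ∈ Brd s ∧ TubeW G r y x N} := by
    intro s y x hs hx
    have hsr : (s : ℝ) ≤ 2 * h := by exact_mod_cast hs
    -- a word in a box is in the tube
    have hin : ∀ N ∈ Brd s, (∀ i, i ≤ N.length → |lat N i| ≤ M0 * s) → TubeW G r y x N := by
      intro N hN hb i hi
      have h1 : |(lat N i : ℝ)| ≤ M0 * s := by exact_mod_cast hb i hi
      have h2 := lev_range hN hi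
      have h3 := hG y (y + (lev N i : ℝ) / 3)
      have h4 : |(y : ℝ) - (y + (lev N i : ℝ) / 3)| ≤ s := by
        rw [abs_le]
        constructor <;> linarith [h2.1, h2.2]
      have h5 : (L : ℝ) * |(y : ℝ) - (y + (lev N i : ℝ) / 3)| ≤ L * (2 * h) :=
        mul_le_mul_of_nonneg_left (h4.trans hsr) hLr
      have h6 : (M0 : ℝ) * s ≤ M0 * (2 * h) := mul_le_mul_of_nonneg_left hsr hM0r
      have e : (x : ℝ) + (lat N i : ℝ) - G (y + (lev N i : ℝ) / 3) =
          ((x : ℝ) - G y) + (lat N i : ℝ) + (G y - G (y + (lev N i : ℝ) / 3)) := by ring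
      rw [e]
      refine (abs_add_le _ _).trans ((add_le_add (abs_add_le _ _) le_rfl).trans ?_)
      have h7 := h3.trans h5
      have h8 := h1.trans h6
      have h9 : 0 ≤ (M : ℝ) * h := by positivity
      rw [hr]
      nlinarith
    rcases Nat.eq_zero_or_pos s with h0 | h0
    · subst h0
      have h1 : ({[]} : Set (List Bool)) ⊆ {N | N ∈ Brd 0 ∧ TubeW G r y x N} := by
        intro N hN
        rw [Set.mem_singleton_iff] at hN
        subst hN
        refine ⟨nil_mem_Brd, hin [] nil_mem_Brd ?_⟩
        intro i hi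
        have hi0 : i = 0 := by simpa using hi
        subst hi0
        have : lat [] 0 = 0 := by decide
        rw [this]
        simp
      refine le_trans ?_ (gf_mono h1)
      unfold gf
      rw [tsum_singleton (f := wE), uu_zero]
      unfold wE
      simp only [List.length_nil, pow_zero]
      exact ENNReal.ofReal_le_ofReal (by norm_num)
    · exact (hbox s h0).trans (gf_mono fun N hN => ⟨hN.1, hin N hN.1 hN.2⟩)
  induction k with
  | zero =>
    intro s y x hs hx
    rw [pow_zero, mul_one]
    exact short s y x (by omega) hx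
  | succ k ih =>
    intro s y x hs hx
    rcases Nat.lt_or_ge (2 * h) s with hlt | hge
    · -- one step in the right direction
      have step : ∀ Q' : Set (List Bool), IsCode Q' → ENNReal.ofReal p ≤ gf Q' →
          (∀ q ∈ Q', ∃ t, h ≤ 2 * t ∧ t ≤ h ∧ q ∈ Brd t ∧ (∀ i, i ≤ q.length → |lat q i| ≤ M * h) ∧
            |((x + latE q : ℤ) : ℝ) - G ((y + t : ℕ) : ℝ)| ≤ (M + L) * h) →
          ENNReal.ofReal (1 / 2 * p ^ (k + 1) * uu s) ≤ gf {N | N ∈ Brd s ∧ TubeW G r y x N} := by
        intro Q' hc hw hprop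
        have hsub : {N | ∃ a ∈ Q', ∃ u ∈ {u | ∃ t, a ∈ Brd t ∧ u ∈ Brd (s - t) ∧
            TubeW G r (y + t) (x + latE a) u}, N = a ++ u} ⊆ {N | N ∈ Brd s ∧ TubeW G r y x N} := by
          rintro N ⟨a, ha, u, ⟨t, hat, hu, htube⟩, rfl⟩
          obtain ⟨t', h1, h2, h3, h4, h5⟩ := hprop a ha
          have := Brd_height hat h3
          subst this
          constructor
          · have h6 := Brd_append hat hu
            have h7 : t + (s - t) = s := by omega
            rwa [h7] at h6
          · apply tube_cat hat _ htube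
            intro i hi
            have h6 : |(lat a i : ℝ)| ≤ M * h := by exact_mod_cast h4 i hi
            have h7 := lev_range hat hi
            have h8 := hG y (y + (lev a i : ℝ) / 3)
            have htr : (t : ℝ) ≤ h := by exact_mod_cast h2
            have h9 : |(y : ℝ) - (y + (lev a i : ℝ) / 3)| ≤ h := by
              rw [abs_le]
              constructor <;> linarith [h7.1, h7.2]
            have h10 : (L : ℝ) * |(y : ℝ) - (y + (lev a i : ℝ) / 3)| ≤ L * h := mul_le_mul_of_nonneg_left h9 hLr
            have e : (x : ℝ) + (lat a i : ℝ) - G (y + (lev a i : ℝ) / 3) =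
                ((x : ℝ) - G y) + (lat a i : ℝ) + (G y - G (y + (lev a i : ℝ) / 3)) := by ring
            rw [e]
            refine (abs_add_le _ _).trans ((add_le_add (abs_add_le _ _) le_rfl).trans ?_)
            have h11 := h8.trans h10
            have h12 : 0 ≤ (L : ℝ) * h := by positivity
            have h13 : 0 ≤ (M0 : ℝ) * h := by positivity
            rw [hr]
            nlinarith
        refine le_trans ?_ (gf_mono hsub)
        refine le_trans ?_ (gf_sigma_ge Q' (fun a => {u | ∃ t, a ∈ Brd t ∧ u ∈ Brd (s - t) ∧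
            TubeW G r (y + t) (x + latE a) u}) ?_)
        · have h1 : ∀ a : Q', ENNReal.ofReal (1 / 2 * p ^ k * uu s) ≤
              gf {u | ∃ t, (a : List Bool) ∈ Brd t ∧ u ∈ Brd (s - t) ∧
                TubeW G r (y + t) (x + latE (a : List Bool)) u} := by
            rintro ⟨a, ha⟩
            obtain ⟨t, h1, h2, h3, h4, h5⟩ := hprop a ha
            have h6 := ih (s - t) (y + t) (x + latE a) (by
              have e1 : (k + 1) * h = k * h + h := by ring
              rw [e1] at hs
              omega) h5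
            have h7 : uu s ≤ uu (s - t) := uu_anti (by omega)
            refine (ENNReal.ofReal_le_ofReal ?_).trans (h6.trans (gf_mono ?_))
            · exact mul_le_mul_of_nonneg_left h7 (by positivity)
            · rintro u ⟨hu1, hu2⟩
              exact ⟨t, h3, hu1, hu2⟩
          calc ENNReal.ofReal (1 / 2 * p ^ (k + 1) * uu s) =
              ENNReal.ofReal p * ENNReal.ofReal (1 / 2 * p ^ k * uu s) := by
                rw [← ENNReal.ofReal_mul hp0.le]
                congr 1
                ring
            _ ≤ gf Q' * ENNReal.ofReal (1 / 2 * p ^ k * uu s) := mul_le_mul_left hw _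
            _ = ∑' a : Q', wE a * ENNReal.ofReal (1 / 2 * p ^ k * uu s) := by
                rw [ENNReal.tsum_mul_right]
                rfl
            _ ≤ _ := ENNReal.tsum_le_tsum fun a => mul_le_mul_right (h1 a) _
        · rintro a ha u ⟨t, h1, h2, _⟩ a' ha' u' ⟨t', h1', h2', _⟩ he
          exact hc a ha a' ha' _ _ u u' h2 h2' he
      -- the choice of the direction
      have hstep : ∀ t : ℕ, t ≤ h → |G ((y + t : ℕ) : ℝ) - G y| ≤ L * h := by
        intro t ht
        refine (hG _ _).trans ?_
        have htr : (t : ℝ) ≤ h := by exact_mod_cast ht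
        have e : ((y + t : ℕ) : ℝ) - y = t := by push_cast; ring
        rw [e, abs_of_nonneg (Nat.cast_nonneg t)]
        exact mul_le_mul_of_nonneg_left htr hLr
      rcases le_total (x : ℝ) (G y) with hxy | hxy
      · apply step Q hQ hQ3
        intro q hq
        obtain ⟨t, h1, h2, h3, h4, h5⟩ := hQ2 q hq
        refine ⟨t, h1, h2, h3, h5, ?_⟩
        have h6 := abs_le.1 (hstep t h2)
        have h7 := abs_le.1 hx
        have h8 : (L : ℝ) * h ≤ latE q := by exact_mod_cast h4
        have h9 : (latE q : ℝ) ≤ M * h := by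
          have := (abs_le.1 (h5 q.length le_rfl)).2
          exact_mod_cast this
        rw [abs_le]
        push_cast
        push_cast at h6
        constructor
        · linarith [h6.1, h6.2, h7.1]
        · linarith [h6.1, h6.2]
      · apply step (mir Q) (isCode_mir hQ) (by rw [gf_mir]; exact hQ3)
        intro q hq
        obtain ⟨t, h1, h2, h3, h4, h5⟩ := hQ2 _ hq
        have hlen : (q.map not).length = q.length := List.length_map _
        have e2 : latE (q.map not) = -latE q := latE_not q
        rw [e2] at h4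
        refine ⟨t, h1, h2, Brd_not_iff.1 h3, ?_, ?_⟩
        · intro i hi
          have := h5 i (by rw [hlen]; exact hi)
          rwa [lat_not q (by omega), abs_neg] at this
        · have h6 := abs_le.1 (hstep t h2)
          have h7 := abs_le.1 hx
          have h8 : (L : ℝ) * h ≤ -(latE q : ℝ) := by exact_mod_cast h4
          have h9 : -(latE q : ℝ) ≤ M * h := by
            have := (abs_le.1 (h5 (q.map not).length le_rfl)).2
            have e3 : lat (q.map not) (q.map not).length = -latE q := e2
            rw [e3] at this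
            exact_mod_cast this
          rw [abs_le]
          push_cast
          push_cast at h6
          constructor
          · linarith [h6.1, h6.2]
          · linarith [h6.1, h6.2, h7.2]
    · refine (ENNReal.ofReal_le_ofReal ?_).trans (short s y x hge hx)
      have h1 : p ^ (k + 1) ≤ 1 := pow_le_one₀ hp0.le hp1
      have h2 := (uu_pos s).le
      nlinarith [mul_nonneg (by norm_num : (0 : ℝ) ≤ 1 / 2) h2]

end Ex

end HexObs
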