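import Pool.Agent.HexLim.Tube

/-!
The tube theorem for the words: Lipschitz functions, uniform constants.
-/

set_option autoImplicit false

namespace HexObs

namespace Ex

open Complex Finset ENNReal

lemma box_half : ∃ M0 : ℕ, ∀ T : ℕ, 1 ≤ T → ENNReal.ofReal (1 / 2 * uu T) ≤
    gf {t | t ∈ Brd T ∧ ∀ i, i ≤ t.length → |lat t i| ≤ M0 * T} := by
  obtain ⟨M0, hM0⟩ := lat0 (1 / 2) (by norm_num)
  refine ⟨M0, ?_⟩
  intro T hT
  have h1 := hM0 T hT
  have huT := uu_pos T
  set P := {t | t ∈ Brd T ∧ ∀ i, i ≤ t.length → |lat t i| ≤ M0 * T} with hP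
  have hsub : Brd T ⊆ P ∪ {t | t ∈ Brd T ∧ ∃ i, i ≤ t.length ∧ (M0 * T : ℤ) < |lat t i|} := by
    intro t ht
    by_cases h2 : ∀ i, i ≤ t.length → |lat t i| ≤ M0 * T
    · exact Or.inl ⟨ht, h2⟩
    · push Not at h2
      obtain ⟨i, hi, h3⟩ := h2
      exact Or.inr ⟨ht, i, hi, h3⟩
  have h2 := ((gf_mono hsub).trans (gf_union_le _ _)).trans (add_le_add_right h1 _)
  rw [gf_Brd, BT_eq] at h2
  have tP : gf P ≠ ∞ := ne_top_of_le_ne_top ENNReal.ofReal_ne_top (gfB_le (T := T) fun _ h => h.1)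
  have h3 := ENNReal.toReal_mono (ENNReal.add_ne_top.2 ⟨tP, ENNReal.ofReal_ne_top⟩) h2
  rw [ENNReal.toReal_ofReal huT.le, ENNReal.toReal_add tP ENNReal.ofReal_ne_top, ← uu_eq hT,
    ENNReal.toReal_ofReal (by positivity)] at h3
  rw [← ENNReal.ofReal_toReal tP]
  apply ENNReal.ofReal_le_ofReal
  linarith

/-- TUBE THEOREM, words: for every Lipschitz constant L there is a constant C such that a critical bridge of height
T stays within distance ε T of the graph of any L-Lipschitz function G with G 0 = 0 with probability at least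
exp (- C / ε), for all T ≥ C / ε. -/
theorem tube_words (L : ℕ) : ∃ C : ℝ, 0 < C ∧ ∀ (G : ℝ → ℝ), (∀ a b, |G a - G b| ≤ L * |a - b|) → G 0 = 0 →
    ∀ (ε : ℝ) (T : ℕ), 0 < ε → ε ≤ 1 → C / ε ≤ T →
      ENNReal.ofReal (Real.exp (-(C / ε)) * uu T) ≤ gf {N | N ∈ Brd T ∧ TubeW G (ε * T) 0 0 N} := by
  obtain ⟨M0, hbox⟩ := box_half
  obtain ⟨p', M, hp', hcode⟩ := spr_code lat0 L
  set p := min p' (1 / 2) with hp
  have hp0 : 0 < p := lt_min hp' (by norm_num)
  have hp1 : p ≤ 1 := (min_le_right _ _).trans (by norm_num)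
  have hpp : p ≤ p' := min_le_left _ _
  obtain ⟨K, hK⟩ : ∃ K : ℝ, K = 2 * M + 4 * L + 2 * M0 + 1 := ⟨_, rfl⟩
  have hM : (0 : ℝ) ≤ M := Nat.cast_nonneg M
  have hLr : (0 : ℝ) ≤ L := Nat.cast_nonneg L
  have hM0r : (0 : ℝ) ≤ M0 := Nat.cast_nonneg M0
  have hK1 : 1 ≤ K := by rw [hK]; linarith
  have hlp : 0 ≤ -Real.log p := by
    have := Real.log_nonpos hp0.le hp1
    linarith
  have hl2 : 0 < Real.log 2 := Real.log_pos (by norm_num)
  obtain ⟨C, hC⟩ : ∃ C : ℝ, C = 5 * K * -Real.log p + Real.log 2 + 2 * K := ⟨_, rfl⟩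
  have hC0 : 0 < C := by
    rw [hC]
    have : 0 ≤ 5 * K * -Real.log p := by positivity
    linarith
  have hCK : 2 * K ≤ C := by
    rw [hC]
    have : 0 ≤ 5 * K * -Real.log p := by positivity
    linarith
  refine ⟨C, hC0, ?_⟩
  intro G hG hG0 ε T hε hε1 hT
  have huT := uu_pos T
  have hT1 : 2 * K ≤ ε * T := by
    rw [div_le_iff₀ hε] at hT
    linarith
  have hTp : (0 : ℝ) < T := by
    have : 0 < ε * T := by linarith
    exact (pos_iff_pos_of_mul_pos this).1 hε
  obtain ⟨h, hh⟩ : ∃ h : ℕ, h = ⌊ε * T / K⌋₊ := ⟨_, rfl⟩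
  have a1 : (h : ℝ) ≤ ε * T / K := by
    rw [hh]
    exact Nat.floor_le (by positivity)
  have a2 : ε * T / K < h + 1 := by
    rw [hh]
    exact Nat.lt_floor_add_one _
  have a3 : 2 ≤ ε * T / K := by
    rw [le_div_iff₀ (by linarith)]
    linarith
  have a4 : ε * T / (2 * K) ≤ h := by
    have : ε * T / (2 * K) = (ε * T / K) / 2 := by field_simp
    rw [this]
    linarith
  have hh1 : 1 ≤ h := by
    have : (0 : ℝ) < h := by linarith
    exact Nat.one_le_iff_ne_zero.2 (by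
      rintro h0
      rw [h0] at this
      simp at this)
  obtain ⟨k, hk⟩ : ∃ k : ℕ, k = ⌈4 * K / ε⌉₊ := ⟨_, rfl⟩
  have b1 : 4 * K / ε ≤ k := by
    rw [hk]
    exact Nat.le_ceil _
  have b2 : (k : ℝ) ≤ 5 * K / ε := by
    have h1 : (k : ℝ) < 4 * K / ε + 1 := by
      rw [hk]
      exact Nat.ceil_lt_add_one (by positivity)
    have h2 : 1 ≤ K / ε := by
      rw [le_div_iff₀ hε]
      linarith
    have h3 : 5 * K / ε = 4 * K / ε + K / ε := by ring
    linarith
  have b3 : 2 * T ≤ 4 * h + k * h := by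
    have h1 : (2 : ℝ) * T ≤ k * h := by
      have h2 : 4 * K / ε * (ε * T / (2 * K)) ≤ k * h := mul_le_mul b1 a4 (by positivity) (by positivity)
      have h3 : 4 * K / ε * (ε * T / (2 * K)) = 2 * T := by
        have : K ≠ 0 := by linarith
        field_simp
        ring
      linarith
    have h2 : 2 * T ≤ k * h := by exact_mod_cast h1
    omega
  obtain ⟨Q, hQ1, hQ2, hQ3⟩ := hcode h hh1
  have hst := steer (L := L) (M := M) (M0 := M0) (p := p) hp0 hp1 hbox hh1 hQ1
    (fun q hq => by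
      obtain ⟨t, c1, c2, c3, c4, c5⟩ := hQ2 q hq
      exact ⟨t, c1, c2, c3, c4, c5⟩)
    ((ENNReal.ofReal_le_ofReal hpp).trans hQ3) hG k T 0 0 b3 (by
      rw [Nat.cast_zero, hG0]
      simp only [Int.cast_zero, sub_zero, abs_zero]
      positivity)
  refine (ENNReal.ofReal_le_ofReal ?_).trans (hst.trans (gf_mono ?_))
  · apply mul_le_mul_of_nonneg_right _ huT.le
    have h1 : (1 : ℝ) / 2 * p ^ k = Real.exp (-(Real.log 2) + k * Real.log p) := by
      rw [Real.exp_add, Real.exp_neg, Real.exp_log (by norm_num), Real.exp_nat_mul, Real.exp_log hp0]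
      norm_num
    rw [h1]
    apply Real.exp_le_exp.2
    have h2 : (k : ℝ) * -Real.log p ≤ 5 * K / ε * -Real.log p := mul_le_mul_of_nonneg_right b2 hlp
    have h3 : C / ε = 5 * K / ε * -Real.log p + (Real.log 2 + 2 * K) / ε := by
      rw [hC]
      ring
    have h4 : Real.log 2 ≤ (Real.log 2 + 2 * K) / ε := by
      rw [le_div_iff₀ hε]
      nlinarith
    linarith
  · rintro N ⟨hN, ht⟩
    refine ⟨hN, ?_⟩
    intro i hi
    refine (ht i hi).trans ?_
    have h1 : (2 * (M : ℝ) + 4 * L + 2 * M0) * h ≤ K * h := by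
      apply mul_le_mul_of_nonneg_right _ (Nat.cast_nonneg h)
      rw [hK]
      linarith
    have h2 : K * h ≤ K * (ε * T / K) := mul_le_mul_of_nonneg_left a1 (by linarith)
    have h3 : K * (ε * T / K) = ε * T := by
      have : K ≠ 0 := by linarith
      field_simp
    linarith

end Ex

end HexObs
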